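import Pool.Agent.Helper82.PT.Def

/-!
# Project PT (helper82): an embedding in a completion of `F` extends to a completion of `M`

After `N438/QM/Emb.lean` (helper438) and `N498/PQ/Cpl.lean` (helper498).
-/

set_option autoImplicit false
set_option linter.all false

open IsDedekindDomain WithZero Filter Topology MonoidWithZeroHom NumberField

namespace Pool.Agent.Helper82.PT.Embf

section

variable {F M : Type} [Field F] [NumberField F] [Field M] [NumberField M] [Algebra F M]
  {v : HeightOneSpectrum (𝓞 F)} (σ : M →ₐ[F] v.adicCompletion F)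

/-- The value of `σ x`. -/
noncomputable abbrev vs (x : M) : WithZero (Multiplicative ℤ) := Valued.v (σ x)

theorem int_le (x : 𝓞 M) : vs σ (algebraMap (𝓞 M) M x) ≤ 1 := by
  obtain ⟨p, hp, hpx⟩ := x.2
  have h3 : IsIntegral (Valued.v (R := v.adicCompletion F)
      (Γ₀ := WithZero (Multiplicative ℤ))).integer (σ (algebraMap (𝓞 M) M x)) := by
    refine ⟨p.map (Int.castRingHom _), hp.map _, ?_⟩
    rw [Polynomial.eval₂_map]
    have h4 := Polynomial.hom_eval₂ p (algebraMap ℤ M) (σ : M →+* v.adicCompletion F)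
      (algebraMap (𝓞 M) M x)
    have h5 : Polynomial.eval₂ (algebraMap ℤ M) (algebraMap (𝓞 M) M x) p = 0 := hpx
    rw [h5, map_zero] at h4
    have e : ((algebraMap (Valued.v (R := v.adicCompletion F)
      (Γ₀ := WithZero (Multiplicative ℤ))).integer (v.adicCompletion F)).comp
        (Int.castRingHom _)) = (σ : M →+* v.adicCompletion F).comp (algebraMap ℤ M) :=
      RingHom.ext_int _ _
    rw [e]
    exact h4.symm
  exact Valuation.Integers.mem_of_integral (Valuation.integer.integers _) h3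

/-- The prime ideal. -/
noncomputable def pI : Ideal (𝓞 M) where
  carrier := {x | vs σ (algebraMap (𝓞 M) M x) < 1}
  add_mem' := by
    intro a b ha hb
    show vs σ (algebraMap (𝓞 M) M (a + b)) < 1
    rw [vs, map_add, map_add]
    exact Valuation.map_add_lt _ ha hb
  zero_mem' := by
    show vs σ (algebraMap (𝓞 M) M 0) < 1
    rw [vs, map_zero, map_zero, map_zero]
    exact zero_lt_one
  smul_mem' := by
    intro c x hx
    show vs σ (algebraMap (𝓞 M) M (c * x)) < 1
    rw [vs, map_mul, map_mul, map_mul]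
    refine lt_of_le_of_lt (mul_le_mul' (int_le σ c) le_rfl) ?_
    rw [one_mul]
    exact hx

theorem mem_pI (x : 𝓞 M) : x ∈ pI σ ↔ vs σ (algebraMap (𝓞 M) M x) < 1 := Iff.rfl

theorem vF (a : F) : vs σ (algebraMap F M a) = v.valuation F a := by
  rw [vs, σ.commutes]
  exact HeightOneSpectrum.valuedAdicCompletion_eq_valuation' v a

theorem mem_pI_iff (a : 𝓞 F) : a ∈ v.asIdeal ↔ algebraMap (𝓞 F) (𝓞 M) a ∈ pI σ := by
  rw [mem_pI]
  have e : algebraMap (𝓞 M) M (algebraMap (𝓞 F) (𝓞 M) a) = algebraMap F M (a : F) := rfl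
  rw [e, vF, ← HeightOneSpectrum.valuation_lt_one_iff_mem (K := F)]

theorem unit_of {x : 𝓞 M} (h : x ∉ pI σ) : vs σ (algebraMap (𝓞 M) M x) = 1 :=
  le_antisymm (int_le σ x) (not_lt.1 h)

/-- The place. -/
noncomputable def pl : HeightOneSpectrum (𝓞 M) where
  asIdeal := pI σ
  isPrime := by
    refine ⟨?_, ?_⟩
    · rw [Ne, Ideal.eq_top_iff_one, mem_pI, vs, map_one, map_one, map_one]
      exact lt_irrefl _
    · intro x y hxy
      by_contra hc
      rw [not_or] at hc
      have h1 := unit_of σ hc.1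
      have h2 := unit_of σ hc.2
      rw [mem_pI, vs, map_mul, map_mul, map_mul] at hxy
      rw [vs] at h1 h2
      rw [h1, h2, mul_one] at hxy
      exact lt_irrefl _ hxy
  ne_bot := by
    intro h0
    obtain ⟨a, ha, hne⟩ := Submodule.exists_mem_ne_zero_of_ne_bot v.ne_bot
    have h1 := (mem_pI_iff σ a).1 ha
    rw [h0, Ideal.mem_bot] at h1
    have h2 : algebraMap F M (a : F) = 0 := by
      have := congrArg (algebraMap (𝓞 M) M) h1
      rw [map_zero] at this
      exact this
    rw [map_eq_zero] at h2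
    exact hne (by exact_mod_cast h2)

theorem le_of (x : M) (hx : (pl σ).valuation M x ≤ 1) : vs σ x ≤ 1 := by
  obtain ⟨n, d, hnd⟩ := (pl σ).exists_primeCompl_mul_eq_of_integer x hx
  have hd : vs σ (algebraMap (𝓞 M) M d) = 1 := unit_of σ d.2
  have h1 := congrArg (fun y => vs σ y) hnd
  simp only [vs, map_mul] at h1
  rw [vs] at hd
  rw [hd, mul_one] at h1
  rw [vs, h1]
  exact int_le σ n

theorem lt_of (x : M) (hx : (pl σ).valuation M x < 1) : vs σ x < 1 := by
  obtain ⟨n, d, hnd⟩ := (pl σ).exists_primeCompl_mul_eq_of_integer x hx.le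
  have hd : vs σ (algebraMap (𝓞 M) M d) = 1 := unit_of σ d.2
  have h1 := congrArg (fun y => vs σ y) hnd
  simp only [vs, map_mul] at h1
  rw [vs] at hd
  rw [hd, mul_one] at h1
  rw [vs, h1]
  refine (mem_pI σ n).1 ?_
  have h2 : (pl σ).valuation M (algebraMap (𝓞 M) M n) < 1 := by
    rw [← hnd, map_mul]
    exact mul_lt_one_of_lt_of_le hx ((pl σ).valuation_le_one _)
  exact ((pl σ).valuation_lt_one_iff_mem n).1 h2

theorem lt_iff (x : M) : (pl σ).valuation M x < 1 ↔ vs σ x < 1 := by
  refine ⟨lt_of σ x, fun h => ?_⟩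
  by_contra hc
  rw [not_lt] at hc
  have h0 : (pl σ).valuation M x ≠ 0 := by
    intro h0
    rw [h0] at hc
    exact absurd hc (not_le.2 zero_lt_one)
  have h1 : (pl σ).valuation M x⁻¹ ≤ 1 := by
    rw [map_inv₀]
    exact inv_le_one_of_one_le₀ hc
  have h2 := le_of σ _ h1
  rw [vs, map_inv₀, map_inv₀] at h2
  have h3 : Valued.v (Γ₀ := WithZero (Multiplicative ℤ)) (σ x) ≠ 0 := by
    intro h4
    rw [Valuation.zero_iff, map_eq_zero] at h4
    rw [h4, map_zero] at h0
    exact h0 rfl
  exact absurd h2 (not_le.2 ((one_lt_inv₀ (zero_lt_iff.2 h3)).2 h))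

/-- The field with the topology of the valuation. -/
noncomputable def wf : WithVal ((pl σ).valuation M) →+* v.adicCompletion F :=
  (σ : M →+* v.adicCompletion F).comp (WithVal.equiv ((pl σ).valuation M)).toRingHom

theorem wf_cont : Continuous (wf σ) := by
  have key : ContinuousAt (wf σ).toAddMonoidHom 0 := by
    show Tendsto (wf σ) (𝓝 0) (𝓝 (wf σ 0))
    rw [map_zero]
    intro s hs
    obtain ⟨γ, hγ⟩ := Valued.mem_nhds_zero.1 hs
    have hg : ValueGroup₀.embedding γ.1 ≠ 0 := by
      rw [Ne, map_eq_zero]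
      exact γ.ne_zero
    obtain ⟨n, hn, -⟩ := exists_exp_neg_natCast_lt_and_lt hg hg
    obtain ⟨π, hπ⟩ := (pl σ).valuation_exists_uniformizer M
    have hπ0 : π ≠ 0 := by
      rintro rfl
      rw [map_zero] at hπ
      exact exp_ne_zero hπ.symm
    have hπ1 : vs σ π < 1 := lt_of σ π (by rw [hπ, ← exp_zero, exp_lt_exp]; norm_num)
    have hπ2 : vs σ π ≤ exp (-1 : ℤ) := by
      have h0 : vs σ π ≠ 0 := by
        intro h4
        rw [vs, Valuation.zero_iff, map_eq_zero] at h4
        exact hπ0 h4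
      have h6 : exp (log (vs σ π)) = vs σ π := exp_log h0
      rw [← h6, ← exp_zero, exp_lt_exp] at hπ1
      rw [← h6, exp_le_exp]
      omega
    have hne : (Valued.v (R := WithVal ((pl σ).valuation M))).restrict
        (WithVal.toVal ((pl σ).valuation M) (π ^ n)) ≠ 0 := by
      rw [Valuation.ne_zero_iff]
      intro h
      exact pow_ne_zero n hπ0 ((WithVal.toVal_eq_zero _ _).1 h)
    rw [Filter.mem_map, Valued.mem_nhds_zero]
    refine ⟨Units.mk0 _ hne, fun x hx => hγ ?_⟩
    have hx' : Valued.v x < Valued.v (WithVal.toVal ((pl σ).valuation M) (π ^ n)) :=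
      (Valuation.restrict_lt_iff _).1 hx
    have hx2 : (pl σ).valuation M x.ofVal < (pl σ).valuation M (π ^ n) := hx'
    have hpn : (pl σ).valuation M (π ^ n) ≠ 0 := (Valuation.ne_zero_iff _).2 (pow_ne_zero n hπ0)
    have h3 : (pl σ).valuation M (x.ofVal / π ^ n) ≤ 1 := by
      rw [map_div₀]
      exact (div_le_one₀ (zero_lt_iff.2 hpn)).2 hx2.le
    have h4 := le_of σ _ h3
    have e : x.ofVal = π ^ n * (x.ofVal / π ^ n) := by
      field_simp
    show (Valued.v (R := v.adicCompletion F)).restrict (wf σ x) < γ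
    rw [Valuation.restrict_lt_iff_lt_embedding]
    refine lt_of_le_of_lt ?_ hn
    have e2 : Valued.v (wf σ x) = vs σ x.ofVal := rfl
    rw [e2, e, vs, map_mul, map_mul, map_pow, map_pow]
    calc Valued.v (σ π) ^ n * Valued.v (σ (x.ofVal / π ^ n)) ≤ exp (-1 : ℤ) ^ n * 1 :=
          mul_le_mul' (pow_le_pow_left₀ zero_le hπ2 n) h4
      _ = exp (-(n : ℤ)) := by
        rw [mul_one, ← exp_nsmul]
        congr 1
        simp
  exact continuous_of_continuousAt_zero (wf σ).toAddMonoidHom key

end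

theorem embf : Pool.Agent.Helper82.PT.S_EMBF := by
  intro F M _ _ _ _ _ v σ
  have hc := wf_cont σ
  refine ⟨pl σ, (UniformSpace.Completion.extensionHom (wf σ) hc).comp
    (HeightOneSpectrum.adicCompletion.equiv M (pl σ)).toRingHom, mem_pI_iff σ, fun x => ?_,
    lt_iff σ⟩
  exact UniformSpace.Completion.extensionHom_coe (wf σ) hc (WithVal.toVal _ x)

end Pool.Agent.Helper82.PT.Embf
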