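import Pool.Agent.Helper82.PT.Cnt
import Pool.Agent.Helper82.PT.Famw
import Pool.Agent.Helper82.PT.Embf

/-!
# Project PT (helper82): the theorem for elliptic curves

After `N61/PF/Fin1.lean` (helper61).
-/

set_option autoImplicit false
set_option linter.all false

open Polynomial IsDedekindDomain NumberField
open scoped Classical

namespace Pool.Agent.Helper82.PT

open Pool.Agent.N783.PF
open Pool.Agent.N874.PP (sW)
open Pool.Agent.TH115.GD (Pt)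
open Pool.Agent.N874.QM (SelC ShaC SelM Gen SplitMod)
open Pool.Agent.N61.PF (eq_pol fF_eq crv_finite crv_upper ht_lower crv_of_ht exists_B disc_ne pol)

/-- The discriminant of an irreducible cubic polynomial over a finite field. -/
theorem disc_ne_fin {k : Type} [Field k] [Finite k] (h2 : (2 : k) ≠ 0) {a b : k}
    (h : Irreducible (X ^ 3 + C a * X + C b : k[X])) : 4 * a ^ 3 + 27 * b ^ 2 ≠ 0 := by
  intro h0
  have hnr : ∀ x : k, x ^ 3 + a * x + b ≠ 0 := by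
    intro x hx
    have hdeg : (X ^ 3 + C a * X + C b : k[X]).natDegree = 3 := by compute_degree!
    have hroot : (X ^ 3 + C a * X + C b : k[X]).IsRoot x := by
      simp [IsRoot]
      exact hx
    have h1 := natDegree_eq_of_degree_eq_some (degree_eq_one_of_irreducible_of_root h hroot)
    rw [hdeg] at h1
    norm_num at h1
  by_cases h3 : (3 : k) = 0
  · have ha : a = 0 := by
      have h5 : 4 * a ^ 3 = 0 := by linear_combination h0 - 9 * b ^ 2 * h3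
      have h6 : a ^ 3 = 0 := by
        rcases mul_eq_zero.mp h5 with h | h
        · exfalso
          apply h2
          have : (2 : k) * 2 = 0 := by linear_combination h
          rcases mul_eq_zero.mp this with h | h <;> exact h
        · exact h
      exact pow_eq_zero_iff (by norm_num) |>.mp h6
    have hinj : Function.Injective (fun x : k => x ^ 3) := by
      intro x y hxy
      have h7 : x ^ 3 = y ^ 3 := hxy
      have h8 : (x - y) ^ 3 = 0 := by linear_combination h7 + (-x ^ 2 * y + x * y ^ 2) * h3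
      exact sub_eq_zero.1 (pow_eq_zero_iff (by norm_num) |>.mp h8)
    obtain ⟨c, hc⟩ := (Finite.injective_iff_surjective.1 hinj) b
    have hc' : c ^ 3 = b := hc
    apply hnr (-c)
    rw [ha]
    linear_combination -hc'
  · by_cases ha : a = 0
    · subst ha
      have hb : b = 0 := by
        have : 27 * b ^ 2 = 0 := by linear_combination h0
        have h4 : b ^ 2 = 0 := by
          rcases mul_eq_zero.mp this with h | h
          · exfalso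
            have h5 : (3 : k) ^ 3 = 0 := by linear_combination h
            exact h3 (pow_eq_zero_iff (by norm_num) |>.mp h5)
          · exact h
        exact pow_eq_zero_iff (by norm_num) |>.mp h4
      exact hnr 0 (by rw [hb]; ring)
    · apply hnr (-(3 * b) / (2 * a))
      field_simp
      linear_combination (-b) * h0

/-- Over the extension `M`: trivial 2-Selmer group, no 2-part in the Tate-Shafarevich group, finitely
many points; good reduction at the odd primes which divide `δ`. -/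
structure GoodP (F : Type) [Field F] [NumberField F] (M : Type) [Field M] [NumberField M]
    [Algebra F M] (δ : ℕ) (p : 𝓞 F × 𝓞 F) : Prop where
  sel : SelC (sW (algebraMap F M (p.1 : F)) (algebraMap F M (p.2 : F)))
  sha : ShaC (sW (algebraMap F M (p.1 : F)) (algebraMap F M (p.2 : F)))
  fin : Finite (Pt (sW (algebraMap F M (p.1 : F)) (algebraMap F M (p.2 : F))) M)
  odd : Odd (Nat.card (Pt (sW (algebraMap F M (p.1 : F)) (algebraMap F M (p.2 : F))) M))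
  red : ∀ q : ℕ, q.Prime → q ∣ δ → ∀ 𝔭 : Ideal (𝓞 F), 𝔭.IsPrime → (q : 𝓞 F) ∈ 𝔭 →
    (2 : 𝓞 F) ∉ 𝔭 → 4 * p.1 ^ 3 + 27 * p.2 ^ 2 ∉ 𝔭
  str : ∃ (γ : M) (m : ℤ[X]) (a b : 𝓞 F) (D : ℕ), Gen ℚ γ m δ ∧
    p = (a * (D : 𝓞 F) ^ 2, b * (D : 𝓞 F) ^ 3) ∧
    (∀ 𝔭 : Ideal (𝓞 F), 𝔭.IsPrime → 𝔭 ≠ ⊥ → 4 * a ^ 3 + 27 * b ^ 2 ∉ 𝔭 ^ 2) ∧ D ≠ 0 ∧
    (∀ q : ℕ, q.Prime → q ∣ D → SplitMod q m ∧ ¬ q ∣ δ) ∧
    ∀ q : ℕ, q.Prime → q ∣ δ → ∀ 𝔭 : Ideal (𝓞 F), 𝔭.IsPrime → (q : 𝓞 F) ∈ 𝔭 →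
      Irreducible (X ^ 3 + C (Ideal.Quotient.mk 𝔭 a) * X + C (Ideal.Quotient.mk 𝔭 b) :
        (𝓞 F ⧸ 𝔭)[X])

theorem dsc_cubic {F : Type} [Field F] [NumberField F] (a b : 𝓞 F) :
    dsc 1 (X ^ 3 + C a * X + C b : (𝓞 F)[X]) = 4 * a ^ 3 + 27 * b ^ 2 := by
  set f : (𝓞 F)[X] := X ^ 3 + C a * X + C b with hf
  have hdeg : f.degree = 3 := by
    rw [hf]
    compute_degree!
  have hnat : f.natDegree = 3 := natDegree_eq_of_degree_eq_some hdeg
  have hmon : f.Monic := by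
    rw [hf]
    monicity!
  have h1 := resultant_deriv (f := f) (by rw [hdeg]; norm_num)
  rw [hnat] at h1
  have h2 : dsc 1 f = f.resultant f.derivative 3 (3 - 1) := rfl
  rw [h2, h1, hmon.leadingCoeff, discr_of_degree_eq_three hdeg]
  have c0 : f.coeff 0 = b := by rw [hf]; simp
  have c1 : f.coeff 1 = a := by rw [hf]; simp
  have c2 : f.coeff 2 = 0 := by rw [hf]; simp [coeff_X, coeff_C]
  have c3 : f.coeff 3 = 1 := by rw [hf]; simp [coeff_X, coeff_C]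
  rw [c0, c1, c2, c3]
  norm_num
  ring

/-- The structure of the polynomials. -/
theorem cubic_of_scale {F : Type} [Field F] [NumberField F] {f f₀ : (𝓞 F)[X]} {D B : ℕ}
    (h : Ht 1 B f) (hf : f = f₀.scaleRoots ((D : ℕ) : 𝓞 F)) (hm : f₀.Monic)
    (hd : f₀.natDegree = 2 * 1 + 1) (hD : D ≠ 0) :
    ∃ a b : 𝓞 F, f₀ = X ^ 3 + C a * X + C b ∧ f.coeff 1 = a * (D : 𝓞 F) ^ 2 ∧
      f.coeff 0 = b * (D : 𝓞 F) ^ 3 := by
  have hd' : f₀.natDegree = 3 := hd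
  have hD' : ((D : ℕ) : 𝓞 F) ≠ 0 := by exact_mod_cast hD
  have h2 : f₀.coeff 2 = 0 := by
    have h1 : f.coeff 2 = 0 := h.tr
    rw [hf, coeff_scaleRoots, hd'] at h1
    exact (mul_eq_zero.1 h1).resolve_right (pow_ne_zero _ hD')
  have h3 : f₀.coeff 3 = 1 := by
    rw [← hd']
    exact hm.coeff_natDegree
  refine ⟨f₀.coeff 1, f₀.coeff 0, ?_, ?_, ?_⟩
  · have hn : (X ^ 3 + C (f₀.coeff 1) * X + C (f₀.coeff 0) : (𝓞 F)[X]).natDegree = 3 := by
      compute_degree!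
    refine Polynomial.ext fun n => ?_
    rcases lt_or_ge n 4 with hn4 | hn4
    · interval_cases n
      · simp
      · simp
      · rw [h2]
        simp [coeff_X, coeff_C]
      · rw [h3]
        simp [coeff_X, coeff_C]
    · rw [coeff_eq_zero_of_natDegree_lt (by omega), coeff_eq_zero_of_natDegree_lt (by omega)]
  · rw [hf, coeff_scaleRoots, hd']
  · rw [hf, coeff_scaleRoots, hd']

theorem good_of {F : Type} [Field F] [NumberField F] {M : Type} [Field M] [NumberField M]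
    [Algebra F M] {δ B : ℕ} {f : (𝓞 F)[X]} (h : Ht 1 B f) (hg : GoodM F M 1 δ f) :
    GoodP F M δ (f.coeff 1, f.coeff 0) := by
  have e : (fF f).map (algebraMap F M) = X ^ 3 + C (algebraMap F M ((f.coeff 1 : 𝓞 F) : F)) * X +
      C (algebraMap F M ((f.coeff 0 : 𝓞 F) : F)) := by
    rw [fF_eq h]
    simp
  have hirr := hg.irr
  have hsel := hg.sel
  rw [e] at hirr hsel
  have hd := disc_ne hirr
  have hs := selc M _ _ hd hirr hsel
  obtain ⟨hdiv, hsha⟩ := Pool.Agent.N713.QM.gfc M _ _ hd hs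
  obtain ⟨hf, ho⟩ := Pool.Agent.N459.QM.finc M _ _ hd hdiv
  have hstr : ∃ (γ : M) (m : ℤ[X]) (a b : 𝓞 F) (D : ℕ), Gen ℚ γ m δ ∧
      (f.coeff 1, f.coeff 0) = (a * (D : 𝓞 F) ^ 2, b * (D : 𝓞 F) ^ 3) ∧
      (∀ 𝔭 : Ideal (𝓞 F), 𝔭.IsPrime → 𝔭 ≠ ⊥ → 4 * a ^ 3 + 27 * b ^ 2 ∉ 𝔭 ^ 2) ∧ D ≠ 0 ∧
      (∀ q : ℕ, q.Prime → q ∣ D → SplitMod q m ∧ ¬ q ∣ δ) ∧
      ∀ q : ℕ, q.Prime → q ∣ δ → ∀ 𝔭 : Ideal (𝓞 F), 𝔭.IsPrime → (q : 𝓞 F) ∈ 𝔭 →
        Irreducible (X ^ 3 + C (Ideal.Quotient.mk 𝔭 a) * X + C (Ideal.Quotient.mk 𝔭 b) :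
          (𝓞 F ⧸ 𝔭)[X]) := by
    obtain ⟨γ, m, f₀, D, hG, hf₀, hm, hd₀, hsq, hD, hDq, hirr₀⟩ := hg.str
    obtain ⟨a, b, e0, e1, e2⟩ := cubic_of_scale h hf₀ hm hd₀ hD
    refine ⟨γ, m, a, b, D, hG, by rw [e1, e2], ?_, hD, hDq, ?_⟩
    · intro 𝔭 hp h0
      have h1 := hsq 𝔭 hp h0
      rwa [e0, dsc_cubic] at h1
    · intro q hq hqδ 𝔭 hp hqp
      have h1 := hirr₀ q hq hqδ 𝔭 hp hqp
      rw [e0] at h1
      simpa [rd] using h1
  refine ⟨hs, hsha, hf, ho, ?_, hstr⟩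
  intro q hq hqδ 𝔭 hp hqp h2p hmem
  have h𝔭0 : 𝔭 ≠ ⊥ := by
    rintro rfl
    rw [Ideal.mem_bot] at hqp
    exact hq.ne_zero (by exact_mod_cast hqp)
  haveI : 𝔭.IsMaximal := hp.isMaximal h𝔭0
  letI : Field (𝓞 F ⧸ 𝔭) := Ideal.Quotient.field 𝔭
  haveI : Finite (𝓞 F ⧸ 𝔭) := 𝔭.finiteQuotientOfFreeOfNeBot h𝔭0
  have h1 := hg.red q hq hqδ 𝔭 hp hqp
  have e2 : rd 𝔭 f = X ^ 3 + C (Ideal.Quotient.mk 𝔭 (f.coeff 1)) * X +
      C (Ideal.Quotient.mk 𝔭 (f.coeff 0)) := by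
    conv_lhs => rw [eq_pol h]
    unfold pol
    simp [rd]
  rw [e2] at h1
  have h2 : (2 : 𝓞 F ⧸ 𝔭) ≠ 0 := by
    intro h3
    apply h2p
    rw [← Ideal.Quotient.eq_zero_iff_mem, map_ofNat]
    exact h3
  apply disc_ne_fin h2 h1
  have h4 := Ideal.Quotient.eq_zero_iff_mem.2 hmem
  simp only [map_add, map_mul, map_pow, map_ofNat] at h4
  exact h4

theorem irr_down {F : Type} [Field F] [NumberField F] {M : Type} [Field M] [NumberField M]
    [Algebra F M] {f : (𝓞 F)[X]} (hm : f.Monic) (h : Irreducible ((fF f).map (algebraMap F M))) :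
    Irreducible (fF f) := by
  have hmF : (fF f).Monic := hm.map _
  exact Polynomial.Monic.irreducible_of_irreducible_map (algebraMap F M) (fF f) hmF h

/-- A positive proportion of all elliptic curves over `F` is good over `M`. -/
theorem finM (F : Type) [Field F] [NumberField F] (M : Type) [Field M] [NumberField M]
    [Algebra F M] [IsGalois F M]
    (h2M : ∀ v : HeightOneSpectrum (𝓞 F), (2 : 𝓞 F) ∈ v.asIdeal →
      Nonempty (M →ₐ[F] v.adicCompletion F))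
    (hrM : ∀ σ : F →+* ℝ, ∃ ρ : M →+* ℝ, ρ.comp (algebraMap F M) = σ)
    (n : ℕ) (hn : Module.finrank F M = 2 ^ n) {γ : M} {μ : ℤ[X]} {δ : ℕ} (hγ : Gen ℚ γ μ δ) :
    ∃ c : ℝ, 0 < c ∧ ∃ Y₀ : ℝ,
    ∀ Y : ℝ, {p : 𝓞 F × 𝓞 F | Crv Y p}.Finite ∧ (Y₀ ≤ Y → 0 < {p : 𝓞 F × 𝓞 F | Crv Y p}.ncard ∧
      c * ({p : 𝓞 F × 𝓞 F | Crv Y p}.ncard : ℝ) ≤
        ({p : 𝓞 F × 𝓞 F | Crv Y p ∧ GoodP F M δ p}.ncard : ℝ)) := by
  have h0 := Pool.Agent.N490.PF.pts
  obtain ⟨-, C, hC, hlow, hup⟩ := h0 F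
  obtain ⟨c, hc, B₀, hmain⟩ := mainM Embf.embf F (g := 1) le_rfl famw M h2M hrM n hn hγ
  set d := Module.finrank ℚ F with hd
  set B₁ : ℕ := max B₀ 1 with hB₁
  refine ⟨c / (C ^ 2 * (C ^ 2 * 2 ^ (6 * d + 2))), by positivity, 27 * (B₁ : ℝ) ^ 6, ?_⟩
  intro Y
  have hfin := crv_finite (F := F) h0 Y
  refine ⟨hfin, ?_⟩
  intro hY
  have hB₁1 : 1 ≤ B₁ := le_max_right _ _
  have hB₁r : (1 : ℝ) ≤ B₁ := by exact_mod_cast hB₁1
  have hY27 : 27 ≤ Y := by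
    have : (1 : ℝ) ≤ (B₁ : ℝ) ^ 6 := one_le_pow₀ hB₁r
    linarith
  obtain ⟨B, hBB, hBY, hYB⟩ := exists_B B₁ Y hB₁1 hY
  have hB1 : 1 ≤ B := hB₁1.trans hBB
  obtain ⟨hfinH, hprop⟩ := hmain B ((le_max_left _ _).trans hBB)
  constructor
  · rw [Set.ncard_pos hfin]
    refine ⟨(1, 1), ⟨?_, ?_, ?_⟩⟩
    · norm_num
    · intro 𝔭 hp _ hcon
      apply hp.ne_top
      rw [Ideal.eq_top_iff_one]
      exact Ideal.pow_le_self (by norm_num) hcon.1
    · intro σ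
      constructor
      · simp; linarith
      · simp; linarith
  · have hu := crv_upper hC hup hB1 hYB
    have hl := ht_lower hC hlow hB1 hfinH
    rw [← hd] at hu hl
    -- the good polynomials give good curves
    have h5 : ({f : (𝓞 F)[X] | Ht 1 B f ∧ GoodM F M 1 δ f}.ncard : ℝ) ≤
        ({p : 𝓞 F × 𝓞 F | Crv Y p ∧ GoodP F M δ p}.ncard : ℝ) := by
      have h6 := Set.ncard_le_ncard_of_injOn (fun f : (𝓞 F)[X] => (f.coeff 1, f.coeff 0))
        (s := {f : (𝓞 F)[X] | Ht 1 B f ∧ GoodM F M 1 δ f})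
        (t := {p : 𝓞 F × 𝓞 F | Crv Y p ∧ GoodP F M δ p})
        (fun f hf => ⟨crv_of_ht hf.1 (irr_down hf.1.mon hf.2.irr) hf.2.min hBY,
          good_of hf.1 hf.2⟩)
        (by
          intro f hf f' hf' h
          have e := Prod.mk.injEq .. ▸ h
          rw [eq_pol hf.1, eq_pol hf'.1, e.1, e.2])
        (hfin.subset fun p hp => hp.1)
      exact_mod_cast h6
    have hBd : 0 < (B : ℝ) ^ (5 * d) := by
      have : (0 : ℝ) < B := by exact_mod_cast hB1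
      positivity
    have h7 : ({p : 𝓞 F × 𝓞 F | Crv Y p}.ncard : ℝ) ≤
        (C ^ 2 * 2 ^ (6 * d + 2)) * (C ^ 2 * ({f : (𝓞 F)[X] | Ht 1 B f}.ncard : ℝ)) :=
      hu.trans (mul_le_mul_of_nonneg_left hl (by positivity))
    calc c / (C ^ 2 * (C ^ 2 * 2 ^ (6 * d + 2))) * ({p : 𝓞 F × 𝓞 F | Crv Y p}.ncard : ℝ)
        ≤ c / (C ^ 2 * (C ^ 2 * 2 ^ (6 * d + 2))) *
          ((C ^ 2 * 2 ^ (6 * d + 2)) * (C ^ 2 * ({f : (𝓞 F)[X] | Ht 1 B f}.ncard : ℝ))) :=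
          mul_le_mul_of_nonneg_left h7 (by positivity)
      _ = c * ({f : (𝓞 F)[X] | Ht 1 B f}.ncard : ℝ) := by
          field_simp
      _ ≤ _ := hprop.trans h5

end Pool.Agent.Helper82.PT
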