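import Pool.Agent.Helper82.PT.Rn2
import Pool.Agent.Helper82.RC.Main
import Pool.Graph.R_pool_sql_team_seeded_63374d34.N352.PP.Loc

/-!
# Project PT (helper82): the cyclic case, local facts
-/

set_option autoImplicit false
set_option linter.all false

open IsDedekindDomain NumberField Polynomial
open scoped Classical Pointwise

namespace Pool.Agent.Helper82.PT.Cy

open Pool.Agent.Helper82.PT.Rn

/-- The discriminant of an irreducible cubic polynomial over a finite field is a square. -/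
theorem disc_sq {k : Type} [Field k] [Finite k] (h2 : (2 : k) ≠ 0) {a b : k}
    (hirr : Irreducible (X ^ 3 + C a * X + C b : k[X])) :
    IsSquare (-(4 * a ^ 3 + 27 * b ^ 2)) := by
  haveI := Fintype.ofFinite k
  have hrc : ringChar k ≠ 2 := by
    intro h3
    have h4 : ((ringChar k : ℕ) : k) = 0 := ringChar.Nat.cast_ringChar
    rw [h3] at h4
    exact h2 (by exact_mod_cast h4)
  set f : k[X] := X ^ 3 + C a * X + C b with hf
  have hdeg : f.natDegree = 3 := by
    rw [hf]
    compute_degree!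
  have hf0 : f ≠ 0 := hirr.ne_zero
  have hfact : Fact (Irreducible f) := ⟨hirr⟩
  have hfr : Module.finrank k (AdjoinRoot f) = 3 := by
    rw [(AdjoinRoot.powerBasis hf0).finrank, AdjoinRoot.powerBasis_dim, hdeg]
  have hfd : Module.Finite k (AdjoinRoot f) := (AdjoinRoot.powerBasis hf0).finite
  have hfin : Finite (AdjoinRoot f) := Module.finite_of_finite k
  let F : AdjoinRoot f →ₐ[k] AdjoinRoot f :=
    FiniteField.frobeniusAlgHom k (AdjoinRoot f)
  have hFp : ∀ x, F x = x ^ Fintype.card k := fun x => rfl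
  have hF : orderOf F = 3 := (FiniteField.orderOf_frobeniusAlgHom k (AdjoinRoot f)).trans hfr
  have hF3 : ∀ x, F (F (F x)) = x := by
    intro x
    have h := pow_orderOf_eq_one F
    rw [hF] at h
    exact DFunLike.congr_fun h x
  have hFinj : Function.Injective F := F.toRingHom.injective
  obtain ⟨θ, hθ, hne⟩ : ∃ θ : AdjoinRoot f,
      θ ^ 3 + algebraMap k (AdjoinRoot f) a * θ + algebraMap k (AdjoinRoot f) b = 0 ∧
      F θ ≠ θ := by
    refine ⟨AdjoinRoot.root f, ?_, ?_⟩
    · have h : aeval (AdjoinRoot.root f) f = 0 := by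
        rw [AdjoinRoot.aeval_eq, AdjoinRoot.mk_self]
      have hev : ∀ r : AdjoinRoot f, aeval r (X ^ 3 + C a * X + C b) =
          r ^ 3 + algebraMap k (AdjoinRoot f) a * r +
            algebraMap k (AdjoinRoot f) b := by
        intro r
        simp only [map_add, map_mul, map_pow, aeval_X, aeval_C]
      exact (hev _).symm.trans h
    · intro h
      have h1 : F = 1 := AdjoinRoot.algHom_ext h
      rw [h1, orderOf_one] at hF
      omega
  generalize hA : algebraMap k (AdjoinRoot f) a = A at hθ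
  generalize hB : algebraMap k (AdjoinRoot f) b = B at hθ
  have hFA : F A = A := by rw [← hA, F.commutes]
  have hFB : F B = B := by rw [← hB, F.commutes]
  have hr : ∀ x, x ^ 3 + A * x + B = 0 → F x ^ 3 + A * F x + B = 0 := by
    intro x hx
    have h := congrArg F hx
    rwa [map_add, map_add, map_mul, map_pow, hFA, hFB, map_zero] at h
  have h1 := hr θ hθ
  have h2' := hr _ h1
  have n01 : θ - F θ ≠ 0 := sub_ne_zero.2 (Ne.symm hne)
  have n12 : F θ - F (F θ) ≠ 0 := sub_ne_zero.2 fun h => hne (hFinj h).symm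
  have n20 : F (F θ) - θ ≠ 0 := by
    refine sub_ne_zero.2 fun h => hne ?_
    have h3 := congrArg F h
    rw [hF3] at h3
    exact h3.symm
  generalize hx : F θ = x at h1 h2' n01 n12 n20
  generalize hy : F x = y at h2' n12 n20
  have hz : F y = θ := by rw [← hy, ← hx, hF3]
  have e1 : θ ^ 2 + θ * x + x ^ 2 + A = 0 := by
    refine (mul_eq_zero.1 ?_).resolve_left n01
    linear_combination hθ - h1
  have e2 : x ^ 2 + x * y + y ^ 2 + A = 0 := by
    refine (mul_eq_zero.1 ?_).resolve_left n12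
    linear_combination h1 - h2'
  have e3 : θ + x + y = 0 := by
    refine (mul_eq_zero.1 ?_).resolve_left n20
    linear_combination e2 - e1
  have hA' : A = -(θ ^ 2 + θ * x + x ^ 2) := by linear_combination e1
  have hB' : B = -θ ^ 3 - A * θ := by linear_combination hθ
  have hy' : y = -θ - x := by linear_combination e3
  set δ := (θ - x) * (x - y) * (y - θ) with hδ
  have hδ0 : δ ≠ 0 := mul_ne_zero (mul_ne_zero n01 n12) n20
  have hδF : δ ^ Fintype.card k = δ := by
    rw [← hFp, hδ, map_mul, map_mul, map_sub, map_sub, map_sub, hx, hy, hz]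
    ring
  have hδ2 : δ ^ 2 = -4 * A ^ 3 - 27 * B ^ 2 := by
    rw [hδ, hB', hA', hy']
    ring
  have hD : algebraMap k (AdjoinRoot f) (-(4 * a ^ 3 + 27 * b ^ 2)) = δ ^ 2 := by
    rw [hδ2, ← hA, ← hB]
    simp only [map_sub, map_mul, map_neg, map_pow, map_ofNat, map_add]
    ring
  have hD0 : (-(4 * a ^ 3 + 27 * b ^ 2)) ≠ 0 := by
    intro h
    rw [h, map_zero] at hD
    exact pow_ne_zero 2 hδ0 hD.symm
  have hodd : Fintype.card k % 2 = 1 := FiniteField.odd_card_of_char_ne_two hrc
  have hpow : δ ^ (Fintype.card k - 1) = 1 := by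
    have h3 : δ ^ (Fintype.card k - 1) * δ = 1 * δ := by
      rw [← pow_succ, Nat.sub_add_cancel Fintype.card_pos, hδF, one_mul]
    exact mul_right_cancel₀ hδ0 h3
  rw [FiniteField.isSquare_iff hrc hD0]
  apply (algebraMap k (AdjoinRoot f)).injective
  rw [map_pow, hD, map_one, ← pow_mul, show 2 * (Fintype.card k / 2) = Fintype.card k - 1 by omega,
    hpow]

section

variable {F : Type} [Field F] [NumberField F]

/-- Local squares at the odd primes. -/
theorem sq_of_res {w : HeightOneSpectrum (𝓞 F)} (h2 : (2 : 𝓞 F) ∉ w.asIdeal) {e : 𝓞 F}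
    (he : e ∉ w.asIdeal) (h : IsSquare (Ideal.Quotient.mk w.asIdeal e)) :
    IsSquare (algebraMap F (w.adicCompletion F) (e : F)) := by
  obtain ⟨z, hz⟩ := h
  obtain ⟨x, rfl⟩ := Ideal.Quotient.mk_surjective z
  have hmem : e - x ^ 2 ∈ w.asIdeal := by
    rw [← Ideal.Quotient.eq_zero_iff_mem, map_sub, map_pow, hz]
    ring
  have hx : x ∉ w.asIdeal := by
    intro hx
    apply he
    have e1 : e = (e - x ^ 2) + x * x := by ring
    rw [e1]
    exact Ideal.add_mem _ hmem (Ideal.mul_mem_left _ _ hx)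
  have hv : ∀ y : 𝓞 F, y ∉ w.asIdeal → w.valuation F (y : F) = 1 := fun y hy =>
    w.valuation_eq_one_iff_notMem.2 hy
  have hxv := hv x hx
  have hx0 : (x : F) ≠ 0 := by
    intro h0
    rw [h0, map_zero] at hxv
    exact zero_ne_one hxv
  have h2v : w.valuation F (2 : F) = 1 := by
    have h3 := hv 2 h2
    have e2 : ((2 : 𝓞 F) : F) = 2 := map_ofNat (algebraMap (𝓞 F) F) 2
    rwa [e2] at h3
  have hlt : w.valuation F ((e : F) / (x : F) ^ 2 - 1) < 1 := by
    have e1 : (e : F) / (x : F) ^ 2 - 1 = ((e - x ^ 2 : 𝓞 F) : F) / (x : F) ^ 2 := by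
      push_cast
      field_simp
    rw [e1, map_div₀, map_pow, hxv, one_pow, div_one]
    exact (w.valuation_lt_one_iff_mem _).2 hmem
  obtain ⟨z, hz, -⟩ := Pool.Agent.N352.PP.sqrt_one (v := w) h2v
    (algebraMap F (w.adicCompletion F) ((e : F) / (x : F) ^ 2)) (by
      rw [← map_one (algebraMap F (w.adicCompletion F)), ← map_sub,
        Pool.Agent.N352.PP.vv_coe]
      exact hlt)
  refine ⟨z * algebraMap F (w.adicCompletion F) (x : F), ?_⟩
  have e3 : (e : F) = (e : F) / (x : F) ^ 2 * (x : F) ^ 2 := by field_simp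
  rw [e3, map_mul, ← hz, map_pow]
  ring

/-- The primes which do not divide the discriminant are unramified. -/
theorem unr {q : ℕ} (hq : q.Prime) (h : ¬ (q : ℤ) ∣ NumberField.discr F)
    (𝔓 : HeightOneSpectrum (𝓞 F)) : (q : 𝓞 F) ∉ 𝔓.asIdeal ^ 2 := by
  intro hmem
  have hqp : Prime (q : ℤ) := Nat.prime_iff_prime_int.1 hq
  have hqP : (q : 𝓞 F) ∈ 𝔓.asIdeal := Ideal.pow_le_self two_ne_zero hmem
  have hqP' : ((q : ℤ) : 𝓞 F) ∈ 𝔓.asIdeal := by
    rw [Int.cast_natCast]
    exact hqP
  haveI := 𝔓.isPrime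
  have h1 := (NumberField.not_dvd_discr_iff_forall_mem F (𝓞 F) hqp).1 h 𝔓.asIdeal 𝔓.isPrime hqP'
  haveI hPl : 𝔓.asIdeal.LiesOver (Ideal.span {(q : ℤ)}) :=
    (Ideal.liesOver_span_iff 𝔓.isPrime.ne_top hqp).mpr hqP'
  have hle : Ideal.map (algebraMap ℤ (𝓞 F)) (Ideal.span {(q : ℤ)}) ≤ 𝔓.asIdeal := by
    rw [Ideal.map_span, Set.image_singleton, Ideal.span_singleton_le_iff_mem]
    simpa using hqP
  have hmaxq : (Ideal.span {(q : ℤ)}).IsMaximal :=
    PrincipalIdealRing.isMaximal_of_irreducible hqp.irreducible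
  let := Localization.AtPrime.algebraOfLiesOver (Ideal.span {(q : ℤ)}) 𝔓.asIdeal
  have h2 := ((Algebra.isUnramifiedAt_iff_map_eq ℤ (Ideal.span {(q : ℤ)}) 𝔓.asIdeal).1 h1).2
  have he : Ideal.ramificationIdx' (Ideal.span {(q : ℤ)}) 𝔓.asIdeal = 1 :=
    (Ideal.IsDedekindDomain.ramificationIdx'_eq_one_iff 𝔓.ne_bot hle).2 h2
  refine (Ideal.ramificationIdx'_ne_one_iff hle).2 ?_ he
  rw [Ideal.map_span, Set.image_singleton, Ideal.span_singleton_le_iff_mem]
  simpa using hmem

end

end Pool.Agent.Helper82.PT.Cy
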