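import Pool.Agent.Helper82.PT.Top

/-!
# Project PT (helper82): the 2-Selmer group over the extension

After `N874/QM/Top2.lean`, `Abs.lean` (helper874).
-/

set_option autoImplicit false
set_option linter.all false

open Polynomial IsDedekindDomain NumberField
open Pool.Agent.N783.PF
open Pool.Agent.N783.PQ (LocIm)
open Pool.Agent.N874.PP (Ev Sq1 U0)
open Pool.Agent.N874.PM (Lies ev_down sq_down ev_sq ev_mul top_up)
open Pool.Agent.N874.JM (LocF)
open Pool.Agent.N874.QM (Gen SplitMod SelM ov_val val_le val_le_int val_eq_of ov_down below_unique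
  ov_mul ov_prod ov_delta locIm_congr locIm_sq locIm_map surj_top not_ov_delta')
open Pool.Agent.N891.PQ (exists_below not_ev_exp locIm_one sq_two)
open Pool.Agent.N78.PF (val_theta val_der rd_eq sp_le eq_of_ov fF_scale val_one)
open scoped Classical IntermediateField

namespace Pool.Agent.Helper82.PT

/-- A square factor of the twist can be removed. -/
theorem scale_locIm {E : Type} [Field E] [CharZero E] {g : ℕ} {f h : E[X]} (hm : f.Monic)
    (hd : f.natDegree = 2 * g + 1) {D : ℕ} (hD0 : D ≠ 0) (δ : E) (hδ : δ ^ 2 = (D : E))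
    (H : LocIm E (f.scaleRoots (D : E)) h) : LocIm E f (h.comp (C (D : E) * X)) := by
  have hδ0 : δ ≠ 0 := by
    intro h0
    rw [h0, zero_pow two_ne_zero] at hδ
    exact hD0 (by exact_mod_cast hδ.symm)
  have h1 := Pool.Agent.N457.PQ.sqt E g f h δ hm hd hδ0
  rw [hδ] at h1
  exact h1 H

section arct

variable {F M Ω : Type} [Field F] [NumberField F] [Field M] [NumberField M] [Field Ω]
  [NumberField Ω] [Algebra F M] [Algebra M Ω] [Algebra F Ω] [IsScalarTower F M Ω]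

theorem arc_top (hEMB : S_EMBF) {g : ℕ} {f : (𝓞 F)[X]} {θ : Ω} (hm : f.Monic)
    (hd : f.natDegree = 2 * g + 1) {D : ℕ} (hD : D % 8 = 1) {h : M[X]}
    (hloc : ∀ w : HeightOneSpectrum (𝓞 M), LocF (w.adicCompletion M)
      ((fF (f.scaleRoots (D : 𝓞 F))).map (algebraMap F M)) h)
    (hr : ∀ ρ : M →+* ℝ, LocIm ℝ (((fF (f.scaleRoots (D : 𝓞 F))).map (algebraMap F M)).map ρ)
      (h.map ρ)) :
    Arc F M f θ (aeval ((D : Ω) * θ) h) := by
  have hD0 : D ≠ 0 := by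
    rintro rfl
    simp at hD
  have hmF : (fF f).Monic := hm.map _
  have hcomp : ∀ (E : Type) [Field E] (σ : M →+* E),
      (h.comp (C (D : M) * X)).map σ = (h.map σ).comp (C (D : E) * X) := by
    intro E _ σ
    rw [Polynomial.map_comp, Polynomial.map_mul, map_C, map_X, map_natCast]
  have hov : ∀ (E : Type) [Field E] (σ : M →+* E),
      ((fF (f.scaleRoots (D : 𝓞 F))).map (algebraMap F M)).map σ =
        ((fF f).map (σ.comp (algebraMap F M))).scaleRoots (D : E) := by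
    intro E _ σ
    rw [fF_scale hm, Polynomial.map_map, map_scaleRoots, map_natCast]
    rw [hmF.leadingCoeff, map_one]
    exact one_ne_zero
  have hmon : ∀ (E : Type) [Field E] (σ : F →+* E), ((fF f).map σ).Monic := fun E _ σ => hmF.map _
  have hdeg : ∀ (E : Type) [Field E] (σ : F →+* E), ((fF f).map σ).natDegree = 2 * g + 1 := by
    intro E _ σ
    rw [hmF.natDegree_map, hm.natDegree_map, hd]
  refine ⟨h.comp (C (D : M) * X), ?_, fun v hv σ => ?_, fun ρ => ?_⟩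
  · rw [aeval_comp]
    congr 1
    rw [map_mul, aeval_C, aeval_X, map_natCast]
  · obtain ⟨w, j, hO, hj, -⟩ := hEMB F M v σ
    have h1 : LocIm (w.adicCompletion M)
        (((fF (f.scaleRoots (D : 𝓞 F))).map (algebraMap F M)).map
          (algebraMap M (w.adicCompletion M)))
        (h.map (algebraMap M (w.adicCompletion M))) := hloc w
    have h2 := locIm_map j h1
    have e : j.comp (algebraMap M (w.adicCompletion M)) = (σ : M →+* v.adicCompletion F) :=
      RingHom.ext hj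
    rw [Polynomial.map_map (algebraMap M (w.adicCompletion M)) j
      ((fF (f.scaleRoots (D : 𝓞 F))).map (algebraMap F M)),
      Polynomial.map_map (algebraMap M (w.adicCompletion M)) j h, e, hov] at h2
    have e2 : (σ : M →+* v.adicCompletion F).comp (algebraMap F M) =
        algebraMap F (v.adicCompletion F) := σ.comp_algebraMap
    rw [e2] at h2
    rw [hcomp]
    haveI : Fact (Nat.Prime 2) := ⟨Nat.prime_two⟩
    obtain ⟨δ, hδ⟩ := sq_two D hD
    obtain ⟨ι, hι, -, -⟩ := Pool.Agent.N498.PQ.cpl F 2 v (by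
      change ((2 : ℕ) : 𝓞 F) ∈ v.asIdeal
      exact_mod_cast hv)
    haveI : CharZero (v.adicCompletion F) :=
      charZero_of_injective_algebraMap (algebraMap F (v.adicCompletion F)).injective
    exact scale_locIm (hmon _ _) (hdeg _ _) hD0 (ι δ) (by rw [← map_pow, hδ, map_natCast]) h2
  · have h2 := hr ρ
    rw [hov] at h2
    rw [hcomp]
    exact scale_locIm (hmon _ _) (hdeg _ _) hD0 (Real.sqrt D) (Real.sq_sqrt (Nat.cast_nonneg D)) h2

end arct

section abs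

variable {F L M Ω : Type} [Field F] [NumberField F] [Field L] [NumberField L] [Field M]
  [NumberField M] [Field Ω] [NumberField Ω] [Algebra F L] [Algebra F M] [Algebra L Ω]
  [Algebra M Ω] [Algebra F Ω] [IsScalarTower F L Ω] [IsScalarTower F M Ω] [IsGalois F M]

theorem dp_mod {S J : Finset ℕ} (hS : ∀ q ∈ S, q % 8 = 1) (hJ : J ⊆ S) : (Dp J) % 8 = 1 := by
  have : ∀ J' : Finset ℕ, J' ⊆ S → (∏ q ∈ J', q) % 8 = 1 := by
    intro J'
    induction J' using Finset.induction_on with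
    | empty => intro _; simp
    | insert a t ha ih =>
      intro hsub
      rw [Finset.prod_insert ha, Nat.mul_mod, ih ((Finset.subset_insert _ _).trans hsub),
        hS a (hsub (Finset.mem_insert_self _ _))]
  exact this J hJ

theorem selM_abs (hEMB : S_EMBF) {g W : ℕ} {f : (𝓞 F)[X]} {θ : L} {S J T : Finset ℕ}
    {𝔮 : ℕ → Ideal (𝓞 F)} {r P : ℕ → (𝓞 F)[X]} (hg : 1 ≤ g) (hc : IsGen g f θ) (hsq : SqF g f)
    (hS : GoodS g W S 𝔮 r P) (hcon : ∀ q ∈ S, Cg (sp F q) f (P q)) {γ : M} {m : ℤ[X]} {δ : ℕ}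
    (hG : Gen ℚ γ m δ) (hsp : ∀ q ∈ S, SplitMod q m)
    (hT : ∀ p ∈ T, p.Prime) (h2T : 2 ∈ T)
    (hTi : ∀ p ∈ T, ∀ 𝔭 : Ideal (𝓞 F), 𝔭.IsPrime → (p : 𝓞 F) ∈ 𝔭 → Irreducible (rd 𝔭 f))
    (hδ : ∀ p : ℕ, p.Prime → p ∣ δ → p ∈ T) (hdis : Disjoint S T) (hJ : J ⊆ S)
    (hθ : M⟮algebraMap L Ω θ⟯ = ⊤)
    (hmin : minpoly M (algebraMap L Ω θ) = (fF f).map (algebraMap F M))
    (h2 : ∀ v : HeightOneSpectrum (𝓞 F), (2 : 𝓞 F) ∈ v.asIdeal →
      Nonempty (M →ₐ[F] v.adicCompletion F))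
    (hr0 : ∀ σ : F →+* ℝ, ∃ ρ : M →+* ℝ, ρ.comp (algebraMap F M) = σ)
    {n : ℕ} (hM : Module.finrank F M = 2 ^ n) (hΩ : Module.finrank M Ω = 2 * g + 1)
    (hsel : ∀ h : F[X], aeval θ h ≠ 0 → IsSquare (Algebra.norm F (aeval θ h)) →
      (∀ 𝔓 : HeightOneSpectrum (𝓞 L), (∀ q ∈ J, Ov (𝔮 q) 𝔓 → 𝔓.valuation L θ ≠ 1) →
        Ev 𝔓 (aeval θ h)) →
      (∀ q ∈ J, ∀ 𝔓 : HeightOneSpectrum (𝓞 L), Ov (𝔮 q) 𝔓 → 𝔓.valuation L θ = 1 →
        U0 𝔓 ((q : L) * θ) (aeval θ h)) →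
      (∀ w : HeightOneSpectrum (𝓞 F), (2 : 𝓞 F) ∈ w.asIdeal →
        LocF (w.adicCompletion F) (fF f) h) →
      (∀ σ : F →+* ℝ, LocIm ℝ ((fF f).map σ) (h.map σ)) → IsSquare (aeval θ h))
    (h : M[X]) (hne : aeval (((Dp J : ℕ) : Ω) * algebraMap L Ω θ) h ≠ 0)
    (hN : IsSquare (Algebra.norm M (aeval (((Dp J : ℕ) : Ω) * algebraMap L Ω θ) h)))
    (hloc : ∀ w : HeightOneSpectrum (𝓞 M), LocF (w.adicCompletion M)
      ((fF (f.scaleRoots ((Dp J : ℕ) : 𝓞 F))).map (algebraMap F M)) h)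
    (hr : ∀ ρ : M →+* ℝ, LocIm ℝ
      (((fF (f.scaleRoots ((Dp J : ℕ) : 𝓞 F))).map (algebraMap F M)).map ρ) (h.map ρ)) :
    IsSquare (aeval (((Dp J : ℕ) : Ω) * algebraMap L Ω θ) h) := by
  have hS' : ∀ q ∈ S, q.Prime := fun q hq => gs_prime hS hq
  have hD8 : (Dp J) % 8 = 1 := dp_mod (fun q hq => gs_mod hS hq) hJ
  have hG' : Gen L (algebraMap M Ω γ) m δ := by
    refine ⟨?_, hG.monic, ?_, hG.ne, hG.comb⟩
    · have hGF : F⟮γ⟯ = ⊤ := by
        rw [eq_top_iff]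
        intro x _
        have hx : x ∈ (ℚ⟮γ⟯ : IntermediateField ℚ M) := by
          rw [hG.top]
          trivial
        have hle : (ℚ⟮γ⟯ : IntermediateField ℚ M) ≤
            (F⟮γ⟯ : IntermediateField F M).restrictScalars ℚ := by
          rw [IntermediateField.adjoin_simple_le_iff]
          exact IntermediateField.mem_adjoin_simple_self F γ
        exact hle hx
      exact top_up (K := F) hGF hθ
    · rw [aeval_algebraMap_apply, hG.root, map_zero]
  have hcnd := cnd_top hg hc hsq hS hcon hG hG' hsp hT h2T hδ hdis hJ hloc hne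
  have harc := arc_top (θ := algebraMap L Ω θ) hEMB hc.mon hc.deg hD8 hloc hr
  have hgen : ∀ y : Ω, ∃ a : M[X], aeval (algebraMap L Ω θ) a = y := by
    intro y
    have h1 := IntermediateField.adjoin_simple_toSubalgebra_of_isAlgebraic
      (Algebra.IsAlgebraic.isAlgebraic (R := M) (algebraMap L Ω θ))
    rw [hθ, IntermediateField.top_toSubalgebra, Algebra.adjoin_singleton_eq_range_aeval] at h1
    have h2 : y ∈ (aeval (R := M) (algebraMap L Ω θ)).range := by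
      rw [← h1]
      exact Algebra.mem_top
    exact h2
  have hgenL : ∀ y : L, ∃ a : F[X], aeval θ a = y := by
    intro y
    obtain ⟨c, hx⟩ := hc.gen y
    refine ⟨∑ i, C (c i) * X ^ (i : ℕ), ?_⟩
    rw [map_sum, hx]
    refine Finset.sum_congr rfl fun i _ => ?_
    rw [map_mul, map_pow, aeval_X, aeval_C]
  have hndelta : ∀ q ∈ S, ∀ (E : Type) [Field E] [NumberField E] (𝔓 : HeightOneSpectrum (𝓞 E)),
      NOv q 𝔓 → ¬ NOv δ 𝔓 := by
    intro q hq E _ _ 𝔓 h1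
    exact not_ov_delta' hG.ne hδ hS' hT hdis hq h1
  refine Pool.Agent.N301.JM.tow' n F L M Ω two_ne_zero hM
    (by rw [hc.rank]; exact odd_two_mul_add_one g)
    (by rw [hΩ, hc.rank])
    (fun x => Cnd 𝔮 J T (algebraMap L Ω θ) (algebraMap L Ω (aeval θ (derivative (fF f)))) x ∧
      Arc F M f (algebraMap L Ω θ) x) (fun x hx => ⟨cnd_sq hx, arc_sq hgen x⟩)
    (fun x y hx hy h h' => ⟨cnd_mul (fun q hq => ⟨hS' q (hJ hq), ?_, gs_mem hS (hJ hq)⟩)
      (fun q hq 𝔓 h1 h3 => ?_) hx hy h.1 h'.1, arc_mul h.2 h'.2⟩)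
    (fun σ x h => ⟨cnd_sig rfl rfl σ h.1, arc_sig rfl σ h.2⟩)
    (fun x hx hC hN => ?_) _ hne ⟨hcnd, harc⟩ hN
  · have := gs_mod hS (hJ hq)
    omega
  · have h4 := (q_top hg hc hsq hS hcon hG' (hJ hq) 𝔓 h1
      (hndelta q (hJ hq) Ω 𝔓 (nov_of_ov h1 (gs_mem hS (hJ hq)))) h3).1
    apply not_ev_exp
    rw [map_mul, h4, h3, mul_one]
  · obtain ⟨b1, b2⟩ := base_sq (T := T) (δ := δ) hg hc hsq hS hcon hJ hT hTi
      (Pool.Agent.N222.QM.UR.ur L Ω _ m δ hG').2
      (fun q hq => Pool.Agent.N835.QM.spd L Ω _ m δ hG' q (hS' q (hJ hq)) (hsp q (hJ hq)))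
      (fun 𝔓 h => by
        obtain ⟨p, hp, hpd, hp'⟩ := ov_delta hG.ne h
        exact ⟨p, hδ p hp hpd, hp'⟩)
      (fun q hq 𝔓 h => hndelta q (hJ hq) L 𝔓 h) hx hN hC.1
    obtain ⟨h₀, hh₀, c1, c2⟩ := arc_down hc hmin h2 hr0 hC.2
    rw [← hh₀] at hx hN b1 b2 ⊢
    exact hsel h₀ hx hN b1 b2 c1 c2

end abs

end Pool.Agent.Helper82.PT
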