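import Pool.Agent.Helper82.PT.Cnd

/-!
# Project PT (helper82): from the conditions over the extension to the conditions over `F`
-/

set_option autoImplicit false
set_option linter.all false

open Polynomial IsDedekindDomain NumberField
open Pool.Agent.N783.PF
open Pool.Agent.N783.PQ (LocIm)
open Pool.Agent.N874.PP (Ev Sq1 U0)
open Pool.Agent.N874.PM (Lies ev_down sq_down ev_sq ev_mul)
open Pool.Agent.N874.JM (LocF)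
open Pool.Agent.N874.QM (Gen SplitMod SelM ov_val val_le val_le_int val_eq_of ov_down below_unique
  ov_mul ov_prod ov_delta locIm_congr locIm_sq locIm_map)
open Pool.Agent.N891.PQ (exists_below not_ev_exp locIm_one)
open Pool.Agent.N78.PF (val_theta val_der rd_eq sp_le eq_of_ov fF_scale)
open scoped Classical IntermediateField

namespace Pool.Agent.Helper82.PT

section data

variable {F : Type} [Field F] [NumberField F] {g W : ℕ} {S : Finset ℕ} {𝔮 : ℕ → Ideal (𝓞 F)}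
  {r P : ℕ → (𝓞 F)[X]}

theorem gs_prime (hS : GoodS g W S 𝔮 r P) {q : ℕ} (hq : q ∈ S) : q.Prime := (hS q hq).1

theorem gs_mod (hS : GoodS g W S 𝔮 r P) {q : ℕ} (hq : q ∈ S) : q % 8 = 1 := (hS q hq).2.2.2.1

theorem gs_isPrime (hS : GoodS g W S 𝔮 r P) {q : ℕ} (hq : q ∈ S) : (𝔮 q).IsPrime :=
  (hS q hq).2.2.2.2.2.1

theorem gs_mem (hS : GoodS g W S 𝔮 r P) {q : ℕ} (hq : q ∈ S) : (q : 𝓞 F) ∈ 𝔮 q :=
  (hS q hq).2.2.2.2.2.2.1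

theorem gs_ne (hS : GoodS g W S 𝔮 r P) {q : ℕ} (hq : q ∈ S) : 𝔮 q ≠ ⊥ := by
  intro h0
  have := gs_mem hS hq
  rw [h0, Ideal.mem_bot] at this
  exact (gs_prime hS hq).ne_zero (by exact_mod_cast this)

theorem gs_cg (hS : GoodS g W S 𝔮 r P) {q : ℕ} (hq : q ∈ S) {f : (𝓞 F)[X]}
    (hc : Cg (sp F q) f (P q)) : Cg (𝔮 q) f (X * r q) := by
  intro j
  obtain ⟨-, -, -, -, -, -, a2, -, -, -, -, -, -, a3, -⟩ := hS q hq
  have b1 := sp_le (F := F) a2 (hc j)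
  have b2 := a3 j
  have := Ideal.add_mem _ b1 b2
  simpa using this

end data

section base

variable {F L Ω : Type} [Field F] [NumberField F] [Field L] [NumberField L] [Field Ω]
  [NumberField Ω] [Algebra F L] [Algebra L Ω] [Algebra F Ω] [IsScalarTower F L Ω]

theorem base_sq {g W : ℕ} {f : (𝓞 F)[X]} {θ : L} {S J T : Finset ℕ} {𝔮 : ℕ → Ideal (𝓞 F)}
    {r P : ℕ → (𝓞 F)[X]} {δ : ℕ} (hg : 1 ≤ g) (hc : IsGen g f θ) (hsq : SqF g f)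
    (hS : GoodS g W S 𝔮 r P) (hcon : ∀ q ∈ S, Cg (sp F q) f (P q)) (hJ : J ⊆ S)
    (hTm : ∀ p ∈ T, p.Prime)
    (hTi : ∀ p ∈ T, ∀ 𝔭 : Ideal (𝓞 F), 𝔭.IsPrime → (p : 𝓞 F) ∈ 𝔭 → Irreducible (rd 𝔭 f))
    (hUR : ∀ 𝔓 : HeightOneSpectrum (𝓞 L), ¬ NOv δ 𝔓 → ∃ 𝔓' : HeightOneSpectrum (𝓞 Ω),
      ∀ x : L, 𝔓'.valuation Ω (algebraMap L Ω x) = 𝔓.valuation L x)
    (hSP : ∀ q ∈ J, ∀ 𝔓' : HeightOneSpectrum (𝓞 Ω), NOv q 𝔓' → ¬ NOv δ 𝔓' → ∀ s : Ω, s ≠ 0 →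
      ∃ s₀ : L, 𝔓'.valuation Ω (s - algebraMap L Ω s₀) < 𝔓'.valuation Ω s)
    (hδ : ∀ 𝔓 : HeightOneSpectrum (𝓞 L), NOv δ 𝔓 → ∃ p ∈ T, NOv p 𝔓)
    (hJδ : ∀ q ∈ J, ∀ 𝔓 : HeightOneSpectrum (𝓞 L), NOv q 𝔓 → ¬ NOv δ 𝔓)
    {x : L} (hx : x ≠ 0) (hN : IsSquare (Algebra.norm F x))
    (hC : Cnd 𝔮 J T (algebraMap L Ω θ) (algebraMap L Ω (aeval θ (derivative (fF f))))
      (algebraMap L Ω x)) :
    (∀ 𝔓 : HeightOneSpectrum (𝓞 L), (∀ q ∈ J, Ov (𝔮 q) 𝔓 → 𝔓.valuation L θ ≠ 1) → Ev 𝔓 x) ∧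
      (∀ q ∈ J, ∀ 𝔓 : HeightOneSpectrum (𝓞 L), Ov (𝔮 q) 𝔓 → 𝔓.valuation L θ = 1 →
        U0 𝔓 ((q : L) * θ) x) := by
  have key : ∀ 𝔓 : HeightOneSpectrum (𝓞 L), (∀ p ∈ T, ¬ NOv p 𝔓) → (∀ q ∈ J, ¬ NOv q 𝔓) →
      𝔓.valuation L (aeval θ (derivative (fF f))) = 1 → Ev 𝔓 x := by
    intro 𝔓 h1 h2 h3
    obtain ⟨𝔓', hv⟩ := hUR 𝔓 fun h => by
      obtain ⟨p, hp, hp'⟩ := hδ 𝔓 h
      exact h1 p hp hp'
    rw [← ev_down hv]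
    exact hC.ev 𝔓' (fun p hpT h => h1 p hpT ((ov_down hv p).1 h))
      (fun q hq h => h2 q hq ((ov_down hv q).1 h)) (by rw [hv]; exact h3)
  refine ⟨fun 𝔓 h𝔓 => ?_, fun q hq 𝔓 h1 h2 => ?_⟩
  · obtain ⟨w, w1, w2, w3⟩ := Pool.Agent.N459.PF.lie F L 𝔓
    by_cases hP : ∃ p ∈ T, NOv p 𝔓
    · obtain ⟨p, hpT, hp𝔓⟩ := hP
      exact Pool.Agent.N426.PF.pin int g F L f θ hc hsq w.asIdeal w.isPrime w.ne_bot
        (hTi p hpT w.asIdeal w.isPrime ((mem_of_nov w2).2 hp𝔓)) x hx hN 𝔓 w1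
    push_neg at hP
    by_cases hQ : ∃ q ∈ J, NOv q 𝔓
    · obtain ⟨q, hq, hq𝔓⟩ := hQ
      have hqS := hJ hq
      have hqw : (q : 𝓞 F) ∈ w.asIdeal := (mem_of_nov w2).2 hq𝔓
      by_cases cw : w.asIdeal = 𝔮 q
      · have o1 : Ov (𝔮 q) 𝔓 := by
          rw [← cw]
          exact w1
        have v1 : 𝔓.valuation L θ < 1 := lt_of_le_of_ne (val_theta hc 𝔓) (h𝔓 q hq o1)
        exact Pool.Agent.N426.PF.parq int exq g W F L f θ S 𝔮 r P hg hc hsq hS q hqS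
          (gs_cg hS hqS (hcon q hqS)) x hx hN 𝔓 o1 v1
      · have e1 := rd_eq (sp_le hqw) (hcon q hqS)
        obtain ⟨-, -, -, -, -, -, -, -, -, -, -, -, -, -, a1⟩ := hS q hqS
        exact Pool.Agent.N426.PF.pin int g F L f θ hc hsq w.asIdeal w.isPrime w.ne_bot
          (by rw [e1]; exact a1 _ w.isPrime hqw cw) x hx hN 𝔓 w1
    push_neg at hQ
    by_cases h1 : 𝔓.valuation L (aeval θ (derivative (fF f))) = 1
    · exact key 𝔓 hP hQ h1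
    · have v1 : 𝔓.valuation L (aeval θ (derivative (fF f))) < 1 :=
        lt_of_le_of_ne (val_der hc 𝔓) h1
      obtain ⟨⟨c, hc'⟩, hother⟩ := Pool.Agent.N459.PF.ram int g F L f θ hc hsq w.asIdeal w.isPrime
        w.ne_bot 𝔓 w1 v1
      refine Pool.Agent.N426.PF.par int g F L f θ hc hsq w.asIdeal w.isPrime w.ne_bot 𝔓 c w1 hc'
        x hx hN fun 𝔓' o' n' => ?_
      obtain ⟨w', u1, u2, u3⟩ := Pool.Agent.N459.PF.lie F L 𝔓'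
      have ew : w = w' := by
        ext1
        exact eq_of_ov w.isPrime w.ne_bot o' u2
      refine key 𝔓' (fun p hp h => ?_) (fun q hq h => ?_) (hother 𝔓' o' n')
      · exact hP p hp ((mem_of_nov w2).1 (by rw [ew]; exact (mem_of_nov u2).2 h))
      · exact hQ q hq ((mem_of_nov w2).1 (by rw [ew]; exact (mem_of_nov u2).2 h))
  · have hqN : NOv q 𝔓 := nov_of_ov h1 (gs_mem hS (hJ hq))
    obtain ⟨𝔓', hv⟩ := hUR 𝔓 (hJδ q hq 𝔓 hqN)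
    have hq' : NOv q 𝔓' := (ov_down hv q).2 hqN
    have hd := hSP q hq 𝔓' hq' (fun h => hJδ q hq 𝔓 hqN ((ov_down hv δ).1 h))
    have h3 := hC.u0 q hq 𝔓' ((ovF_down hv _).2 h1) (by rw [hv]; exact h2)
    refine ⟨fun h4 => sq_down hv hd (h3.1 ((ev_down hv x).2 h4)), fun h4 => ?_⟩
    have h5 := h3.2 fun h6 => h4 ((ev_down hv x).1 h6)
    have e : algebraMap L Ω x * ((q : Ω) * algebraMap L Ω θ) =
        algebraMap L Ω (x * ((q : L) * θ)) := by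
      rw [map_mul, map_mul, map_natCast]
    rw [e] at h5
    exact sq_down hv hd h5

/-- The primes over `𝔮 q` at which `θ` is a unit. -/
theorem q_top {g W : ℕ} {f : (𝓞 F)[X]} {θ : L} {S : Finset ℕ} {𝔮 : ℕ → Ideal (𝓞 F)}
    {r P : ℕ → (𝓞 F)[X]} (hg : 1 ≤ g) (hc : IsGen g f θ) (hsq : SqF g f)
    (hS : GoodS g W S 𝔮 r P) (hcon : ∀ q ∈ S, Cg (sp F q) f (P q)) {γ : Ω} {m : ℤ[X]} {δ : ℕ}
    (hG : Gen L γ m δ) {q : ℕ} (hq : q ∈ S) (𝔓 : HeightOneSpectrum (𝓞 Ω)) (h1 : Ov (𝔮 q) 𝔓)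
    (hδ : ¬ NOv δ 𝔓) (h2 : 𝔓.valuation Ω (algebraMap L Ω θ) = 1) :
    𝔓.valuation Ω (q : Ω) = WithZero.exp (-1 : ℤ) ∧
    (∀ c : 𝓞 F, c ∉ 𝔮 q → Sq1 𝔓 (algebraMap F Ω (c : F))) := by
  obtain ⟨𝔭, hv⟩ := (Pool.Agent.N222.QM.UR.ur L Ω γ m δ hG).1 𝔓 hδ
  have h1' : Ov (𝔮 q) 𝔭 := (ovF_down hv _).1 h1
  have h2' : 𝔭.valuation L θ = 1 := by rw [← hv]; exact h2
  obtain ⟨𝔓₁, 𝔓₂, a1, a2, a3, a4, a5, a6, a7⟩ :=
    exq g W F L f θ S 𝔮 r P hg hc hsq hS q hq (gs_cg hS hq (hcon q hq))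
  have h3 := (csq g W F L f θ S 𝔮 r P hg hc hsq hS q hq (gs_cg hS hq (hcon q hq)) 𝔭 h1' h2').1
  refine ⟨?_, fun c hcq => ?_⟩
  · rw [← map_natCast (algebraMap L Ω) q, hv]
    rcases a7 𝔭 h1' with rfl | rfl
    · exact absurd h2' a3.ne
    · exact a6
  · obtain ⟨z, hz⟩ := h3 c hcq
    refine ⟨algebraMap L Ω z, ?_⟩
    rw [IsScalarTower.algebraMap_apply F L Ω, ← map_pow, ← map_sub, hv, hv]
    exact hz

end base

end Pool.Agent.Helper82.PT
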