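import Pool.Agent.Helper82.PT.Def
import Pool.Graph.R_pool_sql_team_seeded_63374d34.N874.QM.Top2
import Pool.Graph.R_pool_sql_team_seeded_63374d34.N783.PF.Final
import Pool.Graph.R_pool_sql_team_seeded_63374d34.N874.QM.Final

/-!
# Project PT (helper82): the conditions over the extension

After `N874/QM/Cnd.lean` (helper874).
-/

set_option autoImplicit false
set_option linter.all false

open Polynomial IsDedekindDomain NumberField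
open Pool.Agent.N783.PF
open Pool.Agent.N783.PQ (LocIm)
open Pool.Agent.N874.PP (Ev Sq1 U0)
open Pool.Agent.N874.PM (Lies ev_down sq_down ev_sq ev_mul)
open Pool.Agent.N874.JM (LocF)
open Pool.Agent.N874.QM (Gen SplitMod SelM ov_val val_le val_le_int val_eq_of ov_down below_unique
  ov_mul ov_prod ov_delta locIm_congr locIm_sq locIm_map)
open Pool.Agent.N891.PQ (exists_below not_ev_exp locIm_one)
open Pool.Agent.N78.PF (val_theta val_der rd_eq sp_le eq_of_ov fF_scale)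
open scoped Classical IntermediateField

namespace Pool.Agent.Helper82.PT

/-- The natural number `p` is in the prime. -/
abbrev NOv {L : Type} [Field L] [NumberField L] (p : ℕ) (𝔓 : HeightOneSpectrum (𝓞 L)) : Prop :=
  Pool.Agent.N783.PQ.Ov p 𝔓

section prel

variable {F L : Type} [Field F] [NumberField F] [Field L] [NumberField L] [Algebra F L]

theorem ovF_val {𝔭 : Ideal (𝓞 F)} {𝔓 : HeightOneSpectrum (𝓞 L)} :
    Ov 𝔭 𝔓 ↔ ∀ a ∈ 𝔭, 𝔓.valuation L (algebraMap F L (a : F)) < 1 := by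
  have e : ∀ a : 𝓞 F, algebraMap F L (a : F) = algebraMap (𝓞 L) L (algebraMap (𝓞 F) (𝓞 L) a) :=
    fun a => rfl
  constructor
  · intro h a ha
    rw [e, HeightOneSpectrum.valuation_lt_one_iff_mem]
    exact h a ha
  · intro h a ha
    have := h a ha
    rw [e, HeightOneSpectrum.valuation_lt_one_iff_mem] at this
    exact this

theorem nov_of_ov {𝔭 : Ideal (𝓞 F)} {𝔓 : HeightOneSpectrum (𝓞 L)} (h : Ov 𝔭 𝔓) {q : ℕ}
    (hq : (q : 𝓞 F) ∈ 𝔭) : NOv q 𝔓 := by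
  have := h _ hq
  rw [map_natCast] at this
  exact this

theorem mem_of_nov {w : HeightOneSpectrum (𝓞 F)} {𝔓 : HeightOneSpectrum (𝓞 L)}
    (hiff : ∀ a : 𝓞 F, a ∈ w.asIdeal ↔ algebraMap (𝓞 F) (𝓞 L) a ∈ 𝔓.asIdeal) {q : ℕ} :
    (q : 𝓞 F) ∈ w.asIdeal ↔ NOv q 𝔓 := by
  rw [hiff, map_natCast]
  rfl

variable {Ω : Type} [Field Ω] [NumberField Ω] [Algebra L Ω] [Algebra F Ω] [IsScalarTower F L Ω]

theorem ovF_down {𝔓 : HeightOneSpectrum (𝓞 L)} {𝔓' : HeightOneSpectrum (𝓞 Ω)}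
    (hv : ∀ x : L, 𝔓'.valuation Ω (algebraMap L Ω x) = 𝔓.valuation L x) (𝔭 : Ideal (𝓞 F)) :
    Ov 𝔭 𝔓' ↔ Ov 𝔭 𝔓 := by
  rw [ovF_val, ovF_val]
  refine forall₂_congr fun a _ => ?_
  rw [IsScalarTower.algebraMap_apply F L Ω, hv]

end prel

section cond

variable {F Ω : Type} [Field F] [NumberField F] [Field Ω] [NumberField Ω] [Algebra F Ω]

/-- The conditions at the odd primes. -/
structure Cnd (𝔮 : ℕ → Ideal (𝓞 F)) (J T : Finset ℕ) (θ η x : Ω) : Prop where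
  ev : ∀ 𝔓 : HeightOneSpectrum (𝓞 Ω), (∀ p ∈ T, ¬ NOv p 𝔓) → (∀ q ∈ J, ¬ NOv q 𝔓) →
    𝔓.valuation Ω η = 1 → Ev 𝔓 x
  u0 : ∀ q ∈ J, ∀ 𝔓 : HeightOneSpectrum (𝓞 Ω), Ov (𝔮 q) 𝔓 → 𝔓.valuation Ω θ = 1 →
    U0 𝔓 ((q : Ω) * θ) x

variable {𝔮 : ℕ → Ideal (𝓞 F)} {J T : Finset ℕ} {θ η : Ω}

theorem cnd_sq {x : Ω} (hx : x ≠ 0) : Cnd 𝔮 J T θ η (x ^ 2) where
  ev 𝔓 _ _ _ := ev_sq 𝔓 x
  u0 q _ 𝔓 _ _ := by
    refine ⟨fun _ => ⟨x, ?_⟩, fun h => absurd (ev_sq 𝔓 x) h⟩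
    rw [sub_self, map_zero, zero_lt_iff]
    exact (Valuation.ne_zero_iff _).2 (pow_ne_zero _ hx)

theorem cnd_mul (hJ : ∀ q ∈ J, q.Prime ∧ q ≠ 2 ∧ (q : 𝓞 F) ∈ 𝔮 q)
    (hϖ : ∀ q ∈ J, ∀ 𝔓 : HeightOneSpectrum (𝓞 Ω), Ov (𝔮 q) 𝔓 → 𝔓.valuation Ω θ = 1 →
      ¬ Ev 𝔓 ((q : Ω) * θ)) {x y : Ω} (hx : x ≠ 0) (hy : y ≠ 0)
    (h : Cnd 𝔮 J T θ η x) (h' : Cnd 𝔮 J T θ η y) : Cnd 𝔮 J T θ η (x * y) where
  ev 𝔓 h1 h2 h3 := ev_mul (h.ev 𝔓 h1 h2 h3) (h'.ev 𝔓 h1 h2 h3)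
  u0 q hq 𝔓 h1 h3 := by
    have h4 := hϖ q hq 𝔓 h1 h3
    have h5 : (q : Ω) * θ ≠ 0 := by
      intro h0
      apply h4
      rw [h0]
      exact ⟨0, by simp⟩
    exact ((Pool.Agent.N457.PQ.cls Ω q 𝔓 _ (hJ q hq).1 (hJ q hq).2.1
      (nov_of_ov h1 (hJ q hq).2.2) h5 h4 x y hx hy).2).2
      ⟨fun _ => h'.u0 q hq 𝔓 h1 h3, fun _ => h.u0 q hq 𝔓 h1 h3⟩

theorem cnd_sig {L : Type} [Field L] [NumberField L] [Algebra L Ω] [Algebra F L]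
    [IsScalarTower F L Ω]
    {θ₀ η₀ : L} (hθ : θ = algebraMap L Ω θ₀) (hη : η = algebraMap L Ω η₀)
    (σ : Ω ≃ₐ[L] Ω) {x : Ω} (h : Cnd 𝔮 J T θ η x) : Cnd 𝔮 J T θ η (σ x) := by
  have hf : ∀ y : L, σ (algebraMap L Ω y) = algebraMap L Ω y := fun y => σ.commutes y
  have key := Pool.Agent.N756.QM.sig Ω (σ.restrictScalars ℚ)
  have hev : ∀ (𝔓 𝔓' : HeightOneSpectrum (𝓞 Ω)),
      (∀ y : Ω, 𝔓'.valuation Ω y = 𝔓.valuation Ω (σ y)) →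
      ∀ y : Ω, Ev 𝔓' y ↔ Ev 𝔓 (σ y) := by
    intro 𝔓 𝔓' hv y
    constructor
    · rintro ⟨z, hz⟩
      exact ⟨σ z, by rw [← hv, ← hv, hz]⟩
    · rintro ⟨z, hz⟩
      refine ⟨σ.symm z, ?_⟩
      rw [hv, hv, σ.apply_symm_apply, hz]
  have hsq : ∀ (𝔓 𝔓' : HeightOneSpectrum (𝓞 Ω)),
      (∀ y : Ω, 𝔓'.valuation Ω y = 𝔓.valuation Ω (σ y)) →
      ∀ y : Ω, Sq1 𝔓' y → Sq1 𝔓 (σ y) := by
    rintro 𝔓 𝔓' hv y ⟨z, hz⟩
    refine ⟨σ z, ?_⟩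
    rw [hv, hv, map_sub, map_pow] at hz
    exact hz
  have hov : ∀ (𝔓 𝔓' : HeightOneSpectrum (𝓞 Ω)),
      (∀ y : Ω, 𝔓'.valuation Ω y = 𝔓.valuation Ω (σ y)) →
      ∀ 𝔭 : Ideal (𝓞 F), Ov 𝔭 𝔓 → Ov 𝔭 𝔓' := by
    intro 𝔓 𝔓' hv 𝔭 h1
    rw [ovF_val] at h1 ⊢
    intro a ha
    rw [hv, IsScalarTower.algebraMap_apply F L Ω, hf, ← IsScalarTower.algebraMap_apply F L Ω]
    exact h1 a ha
  refine ⟨fun 𝔓 h1 h2 h3 => ?_, fun q hq 𝔓 h1 h2 => ?_⟩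
  · obtain ⟨𝔓', hv, hO⟩ := key 𝔓
    have hv' : ∀ y : Ω, 𝔓'.valuation Ω y = 𝔓.valuation Ω (σ y) := hv
    exact (hev 𝔓 𝔓' hv' x).1 (h.ev 𝔓' (fun p hp hc => h1 p hp ((hO p).1 hc))
      (fun q hq hc => h2 q hq ((hO q).1 hc)) (by rw [hv', hη, hf, ← hη]; exact h3))
  · obtain ⟨𝔓', hv, hO⟩ := key 𝔓
    have hv' : ∀ y : Ω, 𝔓'.valuation Ω y = 𝔓.valuation Ω (σ y) := hv
    have h3 := h.u0 q hq 𝔓' (hov 𝔓 𝔓' hv' _ h1) (by rw [hv', hθ, hf, ← hθ]; exact h2)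
    refine ⟨fun h4 => hsq 𝔓 𝔓' hv' x (h3.1 ((hev 𝔓 𝔓' hv' x).2 h4)), fun h4 => ?_⟩
    have h5 := hsq 𝔓 𝔓' hv' _ (h3.2 fun h6 => h4 ((hev 𝔓 𝔓' hv' x).1 h6))
    rw [map_mul, map_mul, map_natCast, hθ, hf, ← hθ] at h5
    exact h5

end cond

/-! ### The conditions at `2` and at infinity -/

section arc

variable {F M Ω : Type} [Field F] [NumberField F] [Field M] [NumberField M] [Field Ω]
  [NumberField Ω] [Algebra F M] [Algebra M Ω] [Algebra F Ω] [IsScalarTower F M Ω]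

/-- The conditions at `2` and at infinity. -/
def Arc (F M : Type) {Ω : Type} [Field F] [NumberField F] [Field M] [Field Ω] [Algebra F M]
    [Algebra M Ω] (f : (𝓞 F)[X]) (θ x : Ω) : Prop :=
  ∃ h : M[X], aeval θ h = x ∧
    (∀ v : HeightOneSpectrum (𝓞 F), (2 : 𝓞 F) ∈ v.asIdeal → ∀ σ : M →ₐ[F] v.adicCompletion F,
      LocIm (v.adicCompletion F) ((fF f).map (algebraMap F (v.adicCompletion F)))
        (h.map (σ : M →+* v.adicCompletion F))) ∧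
    ∀ ρ : M →+* ℝ, LocIm ℝ ((fF f).map (ρ.comp (algebraMap F M))) (h.map ρ)

variable {f : (𝓞 F)[X]} {θ : Ω}

theorem arc_sq (hgen : ∀ y : Ω, ∃ h : M[X], aeval θ h = y) (x : Ω) : Arc F M f θ (x ^ 2) := by
  obtain ⟨h, rfl⟩ := hgen x
  refine ⟨h ^ 2, by rw [map_pow], fun v hv σ => ?_, fun ρ => ?_⟩
  · rw [Polynomial.map_pow]
    exact locIm_sq _ _
  · rw [Polynomial.map_pow]
    exact locIm_sq _ _

theorem arc_mul {x y : Ω} (h : Arc F M f θ x) (h' : Arc F M f θ y) : Arc F M f θ (x * y) := by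
  obtain ⟨a, rfl, a1, a2⟩ := h
  obtain ⟨b, rfl, b1, b2⟩ := h'
  refine ⟨a * b, by rw [map_mul], fun v hv σ => ?_, fun ρ => ?_⟩
  · rw [Polynomial.map_mul]
    exact Pool.Agent.N891.PQ.LocIm.mul (a1 v hv σ) (b1 v hv σ)
  · rw [Polynomial.map_mul]
    exact Pool.Agent.N891.PQ.LocIm.mul (a2 ρ) (b2 ρ)

theorem arc_sig [IsGalois F M] {L : Type} [Field L] [NumberField L] [Algebra L Ω] [Algebra F L]
    [IsScalarTower F L Ω] {θ₀ : L}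
    (hθ : θ = algebraMap L Ω θ₀) (σ : Ω ≃ₐ[L] Ω) {x : Ω} (h : Arc F M f θ x) :
    Arc F M f θ (σ x) := by
  obtain ⟨a, rfl, a1, a2⟩ := h
  set τ : M ≃ₐ[F] M := (σ.restrictScalars F).restrictNormal M with hτ
  have hτ' : ∀ y : M, algebraMap M Ω (τ y) = σ (algebraMap M Ω y) := fun y =>
    AlgEquiv.restrictNormal_commutes (σ.restrictScalars F) M y
  have hσθ : σ θ = θ := by rw [hθ, σ.commutes]
  refine ⟨a.map (τ : M →+* M), ?_, fun v hv ρ => ?_, fun ρ => ?_⟩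
  · rw [aeval_def, eval₂_map, aeval_def]
    have e : (algebraMap M Ω).comp (τ : M →+* M) = (σ : Ω →+* Ω).comp (algebraMap M Ω) :=
      RingHom.ext fun y => hτ' y
    have h1 := hom_eval₂ a (algebraMap M Ω) (σ : Ω →+* Ω) θ
    rw [e]
    have h2 : (σ : Ω →+* Ω) θ = θ := hσθ
    rw [h2] at h1
    exact h1.symm
  · rw [Polynomial.map_map (τ : M →+* M) _ a]
    exact a1 v hv (ρ.comp (τ : M →ₐ[F] M))
  · rw [Polynomial.map_map (τ : M →+* M) _ a]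
    have h3 := a2 (ρ.comp (τ : M →+* M))
    have e : (ρ.comp (τ : M →+* M)).comp (algebraMap F M) = ρ.comp (algebraMap F M) := by
      ext y
      show ρ (τ (algebraMap F M y)) = ρ (algebraMap F M y)
      rw [τ.commutes]
    rw [e] at h3
    exact h3

end arc

section base

variable {F L M Ω : Type} [Field F] [NumberField F] [Field L] [NumberField L] [Field M]
  [NumberField M] [Field Ω] [NumberField Ω] [Algebra F L] [Algebra F M] [Algebra L Ω]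
  [Algebra M Ω] [Algebra F Ω] [IsScalarTower F L Ω] [IsScalarTower F M Ω]

/-- From the conditions over the extension to the local conditions over `F`. -/
theorem arc_down {f : (𝓞 F)[X]} {θ x : L} {g : ℕ} (hc : IsGen g f θ)
    (hmin : minpoly M (algebraMap L Ω θ) = (fF f).map (algebraMap F M))
    (h2 : ∀ v : HeightOneSpectrum (𝓞 F), (2 : 𝓞 F) ∈ v.asIdeal →
      Nonempty (M →ₐ[F] v.adicCompletion F))
    (hr : ∀ σ : F →+* ℝ, ∃ ρ : M →+* ℝ, ρ.comp (algebraMap F M) = σ)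
    (h : Arc F M f (algebraMap L Ω θ) (algebraMap L Ω x)) :
    ∃ h₀ : F[X], aeval θ h₀ = x ∧
      (∀ v : HeightOneSpectrum (𝓞 F), (2 : 𝓞 F) ∈ v.asIdeal →
        LocF (v.adicCompletion F) (fF f) h₀) ∧
      ∀ σ : F →+* ℝ, LocIm ℝ ((fF f).map σ) (h₀.map σ) := by
  obtain ⟨a, ha, a1, a2⟩ := h
  obtain ⟨c, hx⟩ := hc.gen x
  obtain ⟨h₀, hh₀⟩ : ∃ h₀ : F[X], h₀ = ∑ i, C (c i) * X ^ (i : ℕ) := ⟨_, rfl⟩
  have h1 : aeval θ h₀ = x := by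
    rw [hh₀, map_sum, hx]
    refine Finset.sum_congr rfl fun i _ => ?_
    rw [map_mul, map_pow, aeval_X, aeval_C]
  have h3 : (fF f).map (algebraMap F M) ∣ a - h₀.map (algebraMap F M) := by
    rw [← hmin]
    apply minpoly.dvd
    rw [map_sub, ha, aeval_map_algebraMap, aeval_algebraMap_apply, h1, sub_self]
  have key : ∀ (E : Type) [Field E] (ρ : M →+* E),
      LocIm E ((fF f).map (ρ.comp (algebraMap F M))) (a.map ρ) →
      LocIm E ((fF f).map (ρ.comp (algebraMap F M))) (h₀.map (ρ.comp (algebraMap F M))) := by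
    intro E _ ρ H
    refine locIm_congr ?_ H
    have h4 := Polynomial.map_dvd ρ h3
    rw [Polynomial.map_sub, Polynomial.map_map (algebraMap F M) ρ (fF f),
      Polynomial.map_map (algebraMap F M) ρ h₀] at h4
    exact h4
  refine ⟨h₀, h1, fun v hv => ?_, fun σ => ?_⟩
  · obtain ⟨τ⟩ := h2 v hv
    have e : (τ : M →+* v.adicCompletion F).comp (algebraMap F M) =
        algebraMap F (v.adicCompletion F) := τ.comp_algebraMap
    have h5 := key (v.adicCompletion F) (τ : M →+* v.adicCompletion F) (by rw [e]; exact a1 v hv τ)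
    rw [e] at h5
    exact h5
  · obtain ⟨ρ, rfl⟩ := hr σ
    exact key ℝ ρ (a2 ρ)

end base

end Pool.Agent.Helper82.PT
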