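import Pool.Agent.Helper82.PT.Def
import Pool.Graph.R_pool_sql_team_seeded_63374d34.N710.PF.Exs
import Pool.Graph.R_pool_sql_team_seeded_63374d34.N891.QM.Spl

/-!
# Project PT (helper82): the sets of primes
-/

set_option autoImplicit false
set_option linter.all false

open Polynomial IsDedekindDomain NumberField
open Pool.Agent.N783.PF
open Pool.Agent.N874.QM (Gen SplitMod SelM)
open scoped Classical

namespace Pool.Agent.Helper82.PT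

theorem exsm : S_EXSM := by
  intro F _ _ g W m hg hm r
  obtain ⟨S, hS1, hS2⟩ := ((Pool.Agent.N891.QM.infinite_split m hm).sdiff
    (Set.finite_Iic (W + (2 * g + 1) + (discr F).natAbs))).exists_subset_card_eq r
  have hlt : ∀ q ∈ S, W + (2 * g + 1) + (discr F).natAbs < q := by
    intro q hq
    obtain ⟨-, h4⟩ := hS1 hq
    rw [Set.mem_Iic] at h4
    omega
  have hdata : ∀ q : ℕ, ∃ (𝔮 : Ideal (𝓞 F)) (h A : (𝓞 F)[X]), q ∈ S →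
    (∀ 𝔭 : Ideal (𝓞 F), 𝔭.IsPrime → (q : 𝓞 F) ∉ 𝔭 ^ 2) ∧
    𝔮.IsPrime ∧ (q : 𝓞 F) ∈ 𝔮 ∧
    h.Monic ∧ h.natDegree = 2 * g ∧ Irreducible (rd 𝔮 h) ∧
    A.Monic ∧ A.natDegree = 2 * g + 1 ∧ A.coeff (2 * g) = 0 ∧
    Cg 𝔮 A (X * h) ∧
    ∀ 𝔭 : Ideal (𝓞 F), 𝔭.IsPrime → (q : 𝓞 F) ∈ 𝔭 → 𝔭 ≠ 𝔮 → Irreducible (rd 𝔭 A) := by
    intro q
    by_cases hq : q ∈ S
    · obtain ⟨⟨h1, h2, h3⟩, -⟩ := hS1 hq
      have h4 := hlt q hq
      obtain ⟨𝔮, h, A, hh⟩ := Pool.Agent.N710.PF.exists_data F g q hg h1 (by omega) (by omega)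
      exact ⟨𝔮, h, A, fun _ => hh⟩
    · exact ⟨⊥, 0, 0, fun h => absurd h hq⟩
  choose 𝔮 h A hh using hdata
  refine ⟨S, 𝔮, h, A, fun q hq => ?_, hS2, fun q hq => ?_⟩
  · obtain ⟨⟨h1, h2, h3⟩, -⟩ := hS1 hq
    have h4 := hlt q hq
    exact ⟨h1, by omega, by omega, h2, hh q hq⟩
  · obtain ⟨⟨h1, h2, h3⟩, -⟩ := hS1 hq
    haveI : Fact q.Prime := ⟨h1⟩
    exact Pool.Agent.N891.QM.splitMod_of_splits q m hm h3

end Pool.Agent.Helper82.PT
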