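import Pool.Agent.Helper82.PT.Cy1

/-!
# Project PT (helper82): the cyclic case, the quadratic subextension
-/

set_option autoImplicit false
set_option linter.all false

open IsDedekindDomain NumberField Polynomial
open scoped Classical Pointwise

namespace Pool.Agent.Helper82.PT.Cy

open Pool.Agent.Helper82.PT.Rn
open Pool.Agent.N922.PX (IntegralAt GoodReduction SplitMultiplicative)
open Pool.Agent.N874.QM (Gen SplitMod)
open Pool.Agent.N878.PX (val_unit_of_mul)

section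

variable {F : Type} {M : Type} [Field F] [NumberField F] [Field M] [NumberField M] [Algebra F M]

/-- A generator of a cyclic group of even order has the eigenvalue `-1`. -/
theorem eigen (σ : M ≃ₐ[F] M) (hev : Even (orderOf σ)) (h0 : 0 < orderOf σ) :
    ∃ s : M, s ≠ 0 ∧ σ s = -s := by
  set N := orderOf σ with hN
  have hinj : Function.Injective (fun i : Fin N => ((σ ^ (i : ℕ) : M ≃ₐ[F] M) : M →ₐ[F] M)) := by
    intro i j hij
    have h1 : (σ ^ (i : ℕ) : M ≃ₐ[F] M) = σ ^ (j : ℕ) := by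
      ext x
      exact DFunLike.congr_fun hij x
    exact Fin.ext (pow_injOn_Iio_orderOf (Set.mem_Iio.2 i.2) (Set.mem_Iio.2 j.2) h1)
  have hli := (linearIndependent_toLinearMap F M M).comp _ hinj
  obtain ⟨x, hx⟩ : ∃ x : M, ∑ i ∈ Finset.range N, (-1 : M) ^ i * (σ ^ i) x ≠ 0 := by
    by_contra hcon
    push Not at hcon
    rw [Fintype.linearIndependent_iff] at hli
    have h1 := hli (fun i => (-1 : M) ^ (i : ℕ)) (by
      ext x
      have h2 := hcon x
      rw [← Fin.sum_univ_eq_sum_range (fun i => (-1 : M) ^ i * (σ ^ i) x)] at h2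
      rw [LinearMap.sum_apply]
      exact h2) ⟨0, h0⟩
    simp at h1
  refine ⟨_, hx, ?_⟩
  set f : ℕ → M := fun i => (-1 : M) ^ i * (σ ^ i) x with hf
  have hσ : ∀ i, σ (f i) = -f (i + 1) := by
    intro i
    simp only [hf]
    rw [map_mul, map_pow, map_neg, map_one, pow_succ' (-1 : M), pow_succ' σ]
    have : (σ * σ ^ i) x = σ ((σ ^ i) x) := rfl
    rw [this]
    ring
  have hN0 : f N = f 0 := by
    simp only [hf]
    rw [hev.neg_one_pow, hN, pow_orderOf_eq_one, pow_zero, pow_zero]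
  rw [map_sum, Finset.sum_congr rfl fun i _ => hσ i, Finset.sum_neg_distrib]
  congr 1
  have h1 := Finset.sum_range_succ f N
  have h2 := Finset.sum_range_succ' f N
  rw [h1, hN0] at h2
  exact (add_right_cancel h2).symm

/-- The quadratic subextension. -/
theorem exists_s [IsGalois F M] {n : ℕ} (hn : Module.finrank F M = 2 ^ n) (h1n : 1 ≤ n)
    (hc : IsCyclic (M ≃ₐ[F] M)) :
    ∃ (σ : M ≃ₐ[F] M) (s : 𝓞 M) (d : 𝓞 F), (∀ τ : M ≃ₐ[F] M, ∃ k : ℕ, τ = σ ^ k) ∧
      orderOf σ = 2 ^ n ∧ s ≠ 0 ∧ algebraMap (𝓞 F) (𝓞 M) d = s ^ 2 ∧ σ (s : M) = -(s : M) := by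
  haveI : FiniteDimensional F M := Module.Finite.of_restrictScalars_finite ℚ F M
  obtain ⟨σ, hσ⟩ := hc.exists_generator
  have hcard : Nat.card (M ≃ₐ[F] M) = 2 ^ n := by rw [IsGalois.card_aut_eq_finrank, hn]
  have hord : orderOf σ = 2 ^ n := by rw [orderOf_eq_card_of_forall_mem_zpowers hσ, hcard]
  have hev : Even (orderOf σ) := by
    rw [hord]
    exact (Nat.even_pow' (by omega)).2 even_two
  obtain ⟨s₀, hs₀, hσs₀⟩ := eigen σ hev (by rw [hord]; positivity)
  have hgen : ∀ τ : M ≃ₐ[F] M, ∃ k : ℕ, τ = σ ^ k := by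
    intro τ
    obtain ⟨k, -, hk⟩ := (mem_powers_iff_mem_range_orderOf (x := σ) (y := τ)).1
      ((mem_powers_iff_mem_zpowers).2 (hσ τ)) |> Finset.mem_image.1
    exact ⟨k, hk.symm⟩
  obtain ⟨c, hc0, z, hz⟩ : ∃ c : ℤ, c ≠ 0 ∧ ∃ z : 𝓞 M, (z : M) = c * s₀ := by
    have h1 : IsAlgebraic ℤ s₀ := by
      have h2 : IsAlgebraic ℚ s₀ := Algebra.IsAlgebraic.isAlgebraic s₀
      exact (IsFractionRing.isAlgebraic_iff ℤ ℚ M).2 h2
    obtain ⟨N, hN, hNa⟩ := h1.exists_integral_multiple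
    refine ⟨N, hN, ⟨⟨N • s₀, hNa⟩, ?_⟩⟩
    show N • s₀ = (N : M) * s₀
    rw [zsmul_eq_mul]
  have hcM : (c : M) ≠ 0 := by exact_mod_cast hc0
  have hσz : σ (z : M) = -(z : M) := by
    rw [hz, map_mul, hσs₀, map_intCast]
    ring
  have hz0 : z ≠ 0 := by
    intro h
    rw [h] at hz
    have h1 : (c : M) * s₀ = 0 := by
      rw [← hz]
      exact map_zero _
    exact mul_ne_zero hcM hs₀ h1
  have hpow : ∀ k : ℕ, (σ ^ k) (z : M) = (-1) ^ k * (z : M) := by
    intro k
    induction k with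
    | zero => simp
    | succ k ih =>
      rw [pow_succ' σ]
      have e : (σ * σ ^ k) (z : M) = σ ((σ ^ k) (z : M)) := rfl
      rw [e, ih, map_mul, map_pow, map_neg, map_one, hσz]
      ring
  have hfix : ∀ τ : M ≃ₐ[F] M, τ ((z : M) ^ 2) = (z : M) ^ 2 := by
    intro τ
    obtain ⟨k, rfl⟩ := hgen τ
    rw [map_pow, hpow, mul_pow, ← pow_mul, mul_comm k 2, pow_mul, neg_one_sq, one_pow, one_mul]
  obtain ⟨d₀, hd₀⟩ := (IsGalois.mem_range_algebraMap_iff_fixed (F := F) ((z : M) ^ 2)).2 hfix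
  have hint : IsIntegral ℤ d₀ := by
    rw [← isIntegral_algebraMap_iff (algebraMap F M).injective (B := M), hd₀]
    exact (RingOfIntegers.isIntegral_coe z).pow 2
  refine ⟨σ, z, ⟨d₀, hint⟩, hgen, hord, hz0, ?_, hσz⟩
  apply RingOfIntegers.ext
  show algebraMap F M d₀ = ((z ^ 2 : 𝓞 M) : M)
  rw [hd₀]
  push_cast
  rfl

/-- At a stable prime `d` is not a square. -/
theorem not_sq_of_fixed {σ : M ≃ₐ[F] M} {s : 𝓞 M} {d : 𝓞 F}
    (hd : algebraMap (𝓞 F) (𝓞 M) d = s ^ 2) (hσ : σ (s : M) = -(s : M))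
    {v : HeightOneSpectrum (𝓞 M)} (hfix : FixedF F v) (h2 : (2 : 𝓞 F) ∉ (blw F v).asIdeal)
    (hdv : d ∉ (blw F v).asIdeal) : ¬ IsSquare (Ideal.Quotient.mk (blw F v).asIdeal d) := by
  rintro ⟨z, hz⟩
  obtain ⟨x, rfl⟩ := Ideal.Quotient.mk_surjective z
  have hmem : d - x ^ 2 ∈ (blw F v).asIdeal := by
    rw [← Ideal.Quotient.eq_zero_iff_mem, map_sub, map_pow, hz]
    ring
  set y := algebraMap (𝓞 F) (𝓞 M) x with hy
  have h1 : (s - y) * (s + y) ∈ v.asIdeal := by
    rw [mem_blw, map_sub, map_pow, hd] at hmem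
    have e : (s - y) * (s + y) = s ^ 2 - y ^ 2 := by ring
    rw [e]
    exact hmem
  have h2v : (2 : 𝓞 M) ∉ v.asIdeal := by
    intro h
    apply h2
    rw [mem_blw, map_ofNat]
    exact h
  have hσy : σ (y : M) = (y : M) := by
    have e : (y : M) = algebraMap F M (x : F) := rfl
    rw [e, σ.commutes]
  have key : ∀ t : 𝓞 M, (t : M) = (s : M) - (y : M) ∨ (t : M) = (s : M) + (y : M) →
      t ∈ v.asIdeal → False := by
    intro t ht htv
    have hv : v.valuation M (t : M) < 1 := (v.valuation_lt_one_iff_mem t).2 htv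
    have hv' : v.valuation M (σ (t : M)) < 1 := by rw [hfix]; exact hv
    have hyv : y ∈ v.asIdeal := by
      have h3 : 2 * y ∈ v.asIdeal := by
        refine (v.valuation_lt_one_iff_mem (K := M) (2 * y)).1 ?_
        have e2 : ((2 * y : 𝓞 M) : M) = 2 * (y : M) := by
          have e3 := map_mul (algebraMap (𝓞 M) M) 2 y
          rw [map_ofNat] at e3
          exact e3
        refine lt_of_eq_of_lt (congrArg _ e2) ?_
        rcases ht with ht | ht
        · have e : 2 * (y : M) = -(σ (t : M) + (t : M)) := by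
            rw [ht, map_sub, hσ, hσy]
            ring
          rw [e, Valuation.map_neg]
          exact Valuation.map_add_lt _ hv' hv
        · have e : 2 * (y : M) = σ (t : M) + (t : M) := by
            rw [ht, map_add, hσ, hσy]
            ring
          rw [e]
          exact Valuation.map_add_lt _ hv' hv
      exact (v.isPrime.mem_or_mem h3).resolve_left h2v
    have hxw : x ∈ (blw F v).asIdeal := (mem_blw v x).2 hyv
    apply hdv
    have e : d = (d - x ^ 2) + x * x := by ring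
    rw [e]
    exact Ideal.add_mem _ hmem (Ideal.mul_mem_left _ _ hxw)
  rcases v.isPrime.mem_or_mem h1 with h3 | h3
  · exact key (s - y) (Or.inl (by push_cast; rfl)) h3
  · exact key (s + y) (Or.inr (by push_cast; rfl)) h3

/-- If `d` is not a square modulo `w`, the primes over `w` are stable. -/
theorem fixed_of_not_sq [IsGalois F M] {n : ℕ} {σ : M ≃ₐ[F] M} {s : 𝓞 M} {d : 𝓞 F}
    (hgen : ∀ τ : M ≃ₐ[F] M, ∃ k : ℕ, τ = σ ^ k) (hord : orderOf σ = 2 ^ n)
    (hd : algebraMap (𝓞 F) (𝓞 M) d = s ^ 2) (hσ : σ (s : M) = -(s : M))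
    {v : HeightOneSpectrum (𝓞 M)}
    (hns : ¬ IsSquare (Ideal.Quotient.mk (blw F v).asIdeal d)) : FixedF F v := by
  haveI : FiniteDimensional F M := Module.Finite.of_restrictScalars_finite ℚ F M
  haveI hmax : v.asIdeal.IsMaximal := v.isMaximal
  letI : Field (𝓞 M ⧸ v.asIdeal) := Ideal.Quotient.field v.asIdeal
  haveI : Finite (𝓞 M ⧸ v.asIdeal) := v.asIdeal.finiteQuotientOfFreeOfNeBot v.ne_bot
  letI bmax : (blw F v).asIdeal.IsMaximal := (blw F v).isMaximal
  letI : Field (𝓞 F ⧸ (blw F v).asIdeal) := Ideal.Quotient.field _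
  haveI : Finite (𝓞 F ⧸ (blw F v).asIdeal) :=
    (blw F v).asIdeal.finiteQuotientOfFreeOfNeBot (blw F v).ne_bot
  haveI l1 : v.asIdeal.LiesOver (blw F v).asIdeal := ⟨rfl⟩
  -- the stabilizer
  have hmem_iff : ∀ τ : M ≃ₐ[F] M, τ ∈ MulAction.stabilizer (M ≃ₐ[F] M) v.asIdeal →
      ∀ x : M, v.valuation M (τ x) = v.valuation M x := by
    intro τ hτ
    obtain ⟨w, hw, -⟩ := Pool.Agent.N415.PQ.sig M (𝓞 M) τ.toRingEquiv v
    have e : w = v := by
      apply HeightOneSpectrum.ext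
      ext x
      rw [← HeightOneSpectrum.valuation_lt_one_iff_mem (K := M) w x, hw]
      have e2 : τ.toRingEquiv ((x : 𝓞 M) : M) = ((τ • x : 𝓞 M) : M) := rfl
      rw [e2, HeightOneSpectrum.valuation_lt_one_iff_mem]
      rw [MulAction.mem_stabilizer_iff] at hτ
      conv_lhs => rw [← hτ, Ideal.smul_mem_pointwise_smul_iff]
    rw [e] at hw
    exact fun x => (hw x).symm
  have hpow : ∀ k : ℕ, (σ ^ k) (s : M) = (-1) ^ k * (s : M) := by
    intro k
    induction k with
    | zero => simp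
    | succ k ih =>
      rw [pow_succ' σ]
      have e : (σ * σ ^ k) (s : M) = σ ((σ ^ k) (s : M)) := rfl
      rw [e, ih, map_mul, map_pow, map_neg, map_one, hσ]
      ring
  by_cases hall : ∀ τ ∈ MulAction.stabilizer (M ≃ₐ[F] M) v.asIdeal, τ (s : M) = (s : M)
  · exfalso
    apply hns
    -- the class of `s` is in the residue field of `F`
    have hsurj := Ideal.Quotient.stabilizerHom_surjective (M ≃ₐ[F] M) (blw F v).asIdeal v.asIdeal
    have hfixs : ∀ φ : (𝓞 M ⧸ v.asIdeal) ≃ₐ[𝓞 F ⧸ (blw F v).asIdeal] (𝓞 M ⧸ v.asIdeal),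
        φ (Ideal.Quotient.mk v.asIdeal s) = Ideal.Quotient.mk v.asIdeal s := by
      intro φ
      obtain ⟨τ, rfl⟩ := hsurj φ
      have e1 : Ideal.Quotient.stabilizerHom v.asIdeal (blw F v).asIdeal (M ≃ₐ[F] M) τ
          (Ideal.Quotient.mk v.asIdeal s) = Ideal.Quotient.mk v.asIdeal ((τ : M ≃ₐ[F] M) • s) := rfl
      rw [e1]
      congr 1
      apply RingOfIntegers.ext
      exact hall τ.1 τ.2
    obtain ⟨z, hz⟩ := (IsGalois.mem_range_algebraMap_iff_fixed
      (F := 𝓞 F ⧸ (blw F v).asIdeal) (Ideal.Quotient.mk v.asIdeal s)).2 hfixs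
    obtain ⟨x, rfl⟩ := Ideal.Quotient.mk_surjective z
    have h1 : algebraMap (𝓞 F) (𝓞 M) x - s ∈ v.asIdeal := by
      rw [← Ideal.Quotient.eq_zero_iff_mem, map_sub, sub_eq_zero]
      exact hz
    refine ⟨Ideal.Quotient.mk _ x, ?_⟩
    rw [← map_mul, ← sub_eq_zero, ← map_sub, Ideal.Quotient.eq_zero_iff_mem, mem_blw, map_sub,
      map_mul, hd]
    have e : s ^ 2 - algebraMap (𝓞 F) (𝓞 M) x * algebraMap (𝓞 F) (𝓞 M) x =
        -(s + algebraMap (𝓞 F) (𝓞 M) x) * (algebraMap (𝓞 F) (𝓞 M) x - s) := by ring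
    rw [e]
    exact Ideal.mul_mem_left _ _ h1
  · push Not at hall
    obtain ⟨τ, hτ, hτs⟩ := hall
    obtain ⟨k, hk⟩ := hgen τ
    have hodd : Odd k := by
      by_contra h
      rw [Nat.not_odd_iff_even] at h
      apply hτs
      rw [hk, hpow, h.neg_one_pow, one_mul]
    -- `τ` generates
    have hco : Nat.Coprime (orderOf σ) k := by
      rw [hord]
      exact (Nat.Coprime.pow_left n ((Nat.coprime_two_left).2 hodd))
    intro ρ x
    obtain ⟨j, hj⟩ := hgen ρ
    have h3 : ρ ∈ Subgroup.zpowers τ := by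
      have h4 : σ ∈ Subgroup.zpowers τ := by
        rw [hk]
        have h5 := (Nat.Coprime.symm hco)
        obtain ⟨m, hm⟩ := exists_pow_eq_self_of_coprime h5
        rw [Subgroup.mem_zpowers_iff]
        exact ⟨m, by rw [zpow_natCast]; exact hm⟩
      rw [hj]
      exact Subgroup.pow_mem _ h4 _
    have h5 : Subgroup.zpowers τ ≤ MulAction.stabilizer (M ≃ₐ[F] M) v.asIdeal :=
      Subgroup.zpowers_le.2 hτ
    exact hmem_iff ρ (h5 h3) x

end

end Pool.Agent.Helper82.PT.Cy
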