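import Pool.Agent.Helper82.PT.Rn2

/-!
# Project PT (helper82): the root number over a non-cyclic Galois 2-extension is `1`
-/

set_option autoImplicit false
set_option linter.all false

open IsDedekindDomain NumberField Polynomial
open scoped Classical Pointwise

namespace Pool.Agent.Helper82.PT.Rn

open Pool.Agent.N922.PX (IntegralAt GoodReduction SplitMultiplicative rootNumber)
open Pool.Agent.N874.QM (Gen)

section

variable {F : Type} {M : Type} [Field F] [NumberField F] [Field M] [NumberField M] [Algebra F M]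

theorem exists_prime_mem {v : HeightOneSpectrum (𝓞 M)} (δ : ℕ) (h0 : δ ≠ 0)
    (h : (δ : 𝓞 M) ∈ v.asIdeal) : ∃ q : ℕ, q.Prime ∧ q ∣ δ ∧ (q : 𝓞 M) ∈ v.asIdeal := by
  haveI := v.isPrime
  induction δ using Nat.strong_induction_on with
  | _ δ ih =>
    have h1 : δ ≠ 1 := by
      rintro rfl
      rw [Nat.cast_one] at h
      exact v.isPrime.ne_top ((Ideal.eq_top_iff_one _).2 h)
    have hq := Nat.minFac_prime h1
    obtain ⟨k, hk⟩ := Nat.minFac_dvd δ
    have hk0 : k ≠ 0 := by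
      rintro rfl
      rw [mul_zero] at hk
      exact h0 hk
    have hkl : k < δ := by
      rw [hk]
      have := hq.two_le
      have h3 : 1 ≤ k := Nat.one_le_iff_ne_zero.2 hk0
      nlinarith
    have h2 : ((δ.minFac : ℕ) : 𝓞 M) * (k : 𝓞 M) ∈ v.asIdeal := by
      rw [← Nat.cast_mul, ← hk]
      exact h
    rcases v.isPrime.mem_or_mem h2 with h3 | h3
    · exact ⟨_, hq, Nat.minFac_dvd δ, h3⟩
    · obtain ⟨q, hq', hqk, hqv⟩ := ih k hkl hk0 h3
      refine ⟨q, hq', hqk.trans ?_, hqv⟩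
      exact Dvd.intro_left _ hk.symm

theorem two_le [IsGalois F M] {n : ℕ} (hn : Module.finrank F M = 2 ^ n)
    (hnc : ¬ IsCyclic (M ≃ₐ[F] M)) : 2 ≤ n := by
  haveI : FiniteDimensional F M := Module.Finite.of_restrictScalars_finite ℚ F M
  have hcard : Nat.card (M ≃ₐ[F] M) = 2 ^ n := by
    rw [IsGalois.card_aut_eq_finrank, hn]
  by_contra hlt
  apply hnc
  have h1 : n = 0 ∨ n = 1 := by omega
  rcases h1 with rfl | rfl
  · haveI : Subsingleton (M ≃ₐ[F] M) := (Nat.card_eq_one_iff_unique.1 hcard).1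
    exact isCyclic_of_subsingleton
  · haveI : Fact (Nat.Prime 2) := ⟨Nat.prime_two⟩
    exact isCyclic_of_prime_card (p := 2) hcard

/-- The root number is `1`. -/
theorem root_one [IsGalois F M]
    (h2M : ∀ v : HeightOneSpectrum (𝓞 F), (2 : 𝓞 F) ∈ v.asIdeal →
      Nonempty (M →ₐ[F] v.adicCompletion F))
    {n : ℕ} (hn : Module.finrank F M = 2 ^ n) (hnc : ¬ IsCyclic (M ≃ₐ[F] M))
    {γ : M} {μ : ℤ[X]} {δ : ℕ} (hγ : Gen ℚ γ μ δ) {p : 𝓞 F × 𝓞 F}
    (hp : 4 * p.1 ^ 3 + 27 * p.2 ^ 2 ≠ 0)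
    (hred : ∀ q : ℕ, q.Prime → q ∣ δ → ∀ 𝔭 : Ideal (𝓞 F), 𝔭.IsPrime → (q : 𝓞 F) ∈ 𝔭 →
      (2 : 𝓞 F) ∉ 𝔭 → 4 * p.1 ^ 3 + 27 * p.2 ^ 2 ∉ 𝔭)
    {w : HeightOneSpectrum (𝓞 M) → ℤ}
    (hw : LocF F M (⟨0, 0, 0, (p.1 : F), (p.2 : F)⟩ : WeierstrassCurve F) w) :
    {v | w v ≠ 1}.Finite ∧ rootNumber M w = 1 := by
  have h20 : (2 * (4 * p.1 ^ 3 + 27 * p.2 ^ 2) : 𝓞 F) ≠ 0 := mul_ne_zero two_ne_zero hp
  have hf : {v | w v ≠ 1}.Finite := by
    refine (finite_ne (M := M) _ h20).subset fun v hv h => hv ?_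
    exact hw.good v (good_red p v h)
  refine ⟨hf, ?_⟩
  have h2 := two_le hn hnc
  have hnt : Nontrivial (M ≃ₐ[F] M) := by
    rw [← not_subsingleton_iff_nontrivial]
    intro h
    exact hnc isCyclic_of_subsingleton
  have hno : ∀ v, FixedF F v → w v = 1 := by
    intro v hfix
    by_cases hv2 : (2 : 𝓞 F) ∈ (blw F v).asIdeal
    · obtain ⟨σ⟩ := h2M _ hv2
      exact absurd hfix (not_fixed_of_emb σ rfl hnt)
    · by_cases hvδ : (δ : 𝓞 M) ∈ v.asIdeal
      · obtain ⟨q, hq, hqδ, hqv⟩ := exists_prime_mem δ hγ.ne hvδ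
        have hqF : (q : 𝓞 F) ∈ (blw F v).asIdeal := by
          rw [mem_blw, map_natCast]
          exact hqv
        have h3 := hred q hq hqδ _ (blw F v).isPrime hqF hv2
        apply hw.good v
        apply good_red p v
        refine le_antisymm (val_le _ v) (not_lt.1 fun hlt => ?_)
        rw [val_lt_iff, ← mem_blw] at hlt
        rcases (blw F v).isPrime.mem_or_mem hlt with h | h
        · exact hv2 h
        · exact h3 h
      · exact absurd (cyclic_of_fixed hγ hvδ hfix) hnc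
  have h3 := prod_one hn hw.sign hf hw.conj hno
  have h4 := inf_even (F := F) (M := M) hn h2
  unfold Pool.Agent.N922.PX.rootNumber
  rw [h3, h4.neg_one_pow, one_mul]

end

end Pool.Agent.Helper82.PT.Rn
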