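import Pool.Agent.Helper82.PT.Cy2
import Pool.Agent.Helper82.PT.Rn3

/-!
# Project PT (helper82): the cyclic case, reduction types
-/

set_option autoImplicit false
set_option linter.all false

open IsDedekindDomain NumberField Polynomial
open scoped Classical Pointwise

namespace Pool.Agent.Helper82.PT.Cy

open Pool.Agent.Helper82.PT.Rn
open Pool.Agent.N922.PX (IntegralAt GoodReduction SplitMultiplicative)
open Pool.Agent.N874.QM (Gen SplitMod)
open Pool.Agent.N878.PX (val_unit_of_mul)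

section

variable {F : Type} {M : Type} [Field F] [NumberField F] [Field M] [NumberField M] [Algebra F M]

/-- An automorphism which is trivial modulo a prime not over a divisor of `δ` is trivial. -/
theorem eq_one_of {γ : M} {μ : ℤ[X]} {δ : ℕ} (hγ : Gen ℚ γ μ δ)
    {v : HeightOneSpectrum (𝓞 M)} (hδ : (δ : 𝓞 M) ∉ v.asIdeal) (σ : M ≃ₐ[F] M)
    (h : v.valuation M (σ γ - γ) < 1) : σ = 1 := by
  have hint : IsIntegral ℤ γ := ⟨μ, hγ.monic, hγ.root⟩
  obtain ⟨γ', hγ'⟩ : ∃ γ' : 𝓞 M, (γ' : M) = γ := ⟨⟨γ, hint⟩, rfl⟩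
  have hr : aeval γ' μ = 0 := by
    have h1 : ((aeval γ' μ : 𝓞 M) : M) = aeval γ μ := by
      rw [← hγ']
      exact (Polynomial.aeval_algebraMap_apply M γ' μ).symm
    rw [hγ.root] at h1
    exact_mod_cast h1
  have hmem : σ • γ' - γ' ∈ v.asIdeal := by
    refine (v.valuation_lt_one_iff_mem (K := M) (σ • γ' - γ')).1 ?_
    have e : ((σ • γ' - γ' : 𝓞 M) : M) = σ γ - γ := by
      rw [← hγ']
      push_cast
      rfl
    exact lt_of_eq_of_lt (congrArg _ e) h
  have hr2 : aeval (σ • γ') μ = 0 := by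
    have h1 : ((aeval (σ • γ') μ : 𝓞 M) : M) = aeval (σ γ) μ := by
      rw [← hγ']
      exact (Polynomial.aeval_algebraMap_apply M (σ • γ') μ).symm
    have h2 : aeval (σ γ) μ = σ (aeval γ μ) := by
      have := Polynomial.aeval_algHom_apply ((σ : M →ₐ[F] M).restrictScalars ℤ) γ μ
      exact this
    rw [h2, hγ.root, map_zero] at h1
    exact_mod_cast h1
  have heq : σ • γ' = γ' := by
    by_contra hne
    apply hδ
    obtain ⟨u, w, huw⟩ := hγ.comb
    set μ' : (𝓞 M)[X] := μ.map (algebraMap ℤ (𝓞 M)) with hμ'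
    have r1 : μ'.IsRoot γ' := by
      rw [IsRoot.def, hμ', eval_map_algebraMap]
      exact hr
    obtain ⟨k, hk⟩ := dvd_iff_isRoot.2 r1
    have r2 : k.IsRoot (σ • γ') := by
      have h1 : eval (σ • γ') μ' = 0 := by
        rw [hμ', eval_map_algebraMap]
        exact hr2
      rw [hk, eval_mul, eval_sub, eval_X, eval_C] at h1
      exact (mul_eq_zero.1 h1).resolve_left (sub_ne_zero.2 hne)
    obtain ⟨h, hh⟩ := dvd_iff_isRoot.2 r2
    have hd : aeval γ' (derivative μ) = (γ' - σ • γ') * eval γ' h := by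
      have h1 : aeval γ' (derivative μ) = eval γ' (derivative μ') := by
        rw [hμ', derivative_map, eval_map_algebraMap]
      rw [h1, hk, hh]
      simp
    have hc : (δ : 𝓞 M) = aeval γ' w * ((γ' - σ • γ') * eval γ' h) := by
      have h1 := congrArg (aeval γ') huw
      rw [map_add, map_mul, map_mul, hr, mul_zero, zero_add, hd] at h1
      rw [← h1]
      simp
    rw [hc]
    refine Ideal.mul_mem_left _ _ (Ideal.mul_mem_right _ _ ?_)
    rw [← neg_sub]
    exact Submodule.neg_mem _ hmem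
  have hσγ : σ γ = γ := by
    have := congrArg (fun y : 𝓞 M => (y : M)) heq
    rw [← hγ']
    exact this
  ext x
  have hx : x ∈ IntermediateField.adjoin ℚ ({γ} : Set M) := by
    rw [hγ.top]
    exact IntermediateField.mem_top
  have hle : IntermediateField.adjoin ℚ ({γ} : Set M) ≤
      IntermediateField.fixedField (Subgroup.zpowers ((σ : M ≃ₐ[F] M).restrictScalars ℚ)) := by
    rw [IntermediateField.adjoin_le_iff]
    intro y hy
    rw [Set.mem_singleton_iff] at hy
    subst hy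
    rw [SetLike.mem_coe, IntermediateField.mem_fixedField_iff]
    intro f hf
    have hs : ((σ : M ≃ₐ[F] M).restrictScalars ℚ) ∈
        MulAction.stabilizer (M ≃ₐ[ℚ] M) y := by
      rw [MulAction.mem_stabilizer_iff]
      exact hσγ
    have h2 : Subgroup.zpowers ((σ : M ≃ₐ[F] M).restrictScalars ℚ) ≤
        MulAction.stabilizer (M ≃ₐ[ℚ] M) y := Subgroup.zpowers_le.2 hs
    exact h2 hf
  have h8 := (IntermediateField.mem_fixedField_iff _ _).1 (hle hx)
    ((σ : M ≃ₐ[F] M).restrictScalars ℚ) (Subgroup.mem_zpowers _)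
  exact h8

/-- A prime over `q`, where `μ` splits modulo `q`, is not stable. -/
theorem eq_one_of_split {γ : M} {μ : ℤ[X]} {δ : ℕ} (hγ : Gen ℚ γ μ δ)
    {v : HeightOneSpectrum (𝓞 M)} (hδ : (δ : 𝓞 M) ∉ v.asIdeal) {q : ℕ} (hq : SplitMod q μ)
    (hqv : (q : 𝓞 M) ∈ v.asIdeal) (σ : M ≃ₐ[F] M)
    (hfix : ∀ x : M, v.valuation M (σ x) = v.valuation M x) : σ = 1 := by
  apply eq_one_of hγ hδ
  have hint : IsIntegral ℤ γ := ⟨μ, hγ.monic, hγ.root⟩
  obtain ⟨γ', hγ'⟩ : ∃ γ' : 𝓞 M, (γ' : M) = γ := ⟨⟨γ, hint⟩, rfl⟩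
  have hr : aeval γ' μ = 0 := by
    have h1 : ((aeval γ' μ : 𝓞 M) : M) = aeval γ μ := by
      rw [← hγ']
      exact (Polynomial.aeval_algebraMap_apply M γ' μ).symm
    rw [hγ.root] at h1
    exact_mod_cast h1
  obtain ⟨l, h, hμ⟩ := hq
  have h1 : (l.map fun c : ℤ => (γ' - (c : 𝓞 M))).prod ∈ v.asIdeal := by
    have h2 := hr
    rw [hμ, map_add, map_mul, map_multiset_prod, Multiset.map_map] at h2
    have e1 : (Multiset.map (⇑(aeval γ') ∘ fun c : ℤ => (X : ℤ[X]) - C c) l) =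
        l.map fun c : ℤ => (γ' - (c : 𝓞 M)) := by
      refine Multiset.map_congr rfl fun c _ => ?_
      simp
    rw [e1] at h2
    have e2 : aeval γ' (C (q : ℤ)) = (q : 𝓞 M) := by simp
    rw [e2] at h2
    have e3 : (l.map fun c : ℤ => (γ' - (c : 𝓞 M))).prod = -((q : 𝓞 M) * aeval γ' h) := by
      linear_combination h2
    rw [e3]
    exact Submodule.neg_mem _ (Ideal.mul_mem_right _ _ hqv)
  have h3 : ∃ c : ℤ, γ' - (c : 𝓞 M) ∈ v.asIdeal := by
    obtain ⟨y, hy, hyv⟩ := (Ideal.IsPrime.multiset_prod_mem_iff_exists_mem v.isPrime _).1 h1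
    obtain ⟨c, -, rfl⟩ := Multiset.mem_map.1 hy
    exact ⟨c, hyv⟩
  obtain ⟨c, hc⟩ := h3
  have h4 : v.valuation M (γ - (c : M)) < 1 := by
    have h5 := (v.valuation_lt_one_iff_mem (K := M) (γ' - (c : 𝓞 M))).2 hc
    have e : ((γ' - (c : 𝓞 M) : 𝓞 M) : M) = γ - (c : M) := by
      rw [← hγ']
      push_cast
      rfl
    exact lt_of_eq_of_lt (congrArg _ e).symm h5
  have h6 : v.valuation M (σ γ - (c : M)) < 1 := by
    have e : σ γ - (c : M) = σ (γ - (c : M)) := by rw [map_sub, map_intCast]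
    rw [e, hfix]
    exact h4
  have e : σ γ - γ = (σ γ - (c : M)) - (γ - (c : M)) := by ring
  rw [e]
  exact Valuation.map_sub_lt _ h6 h4

/-- Split multiplicative reduction. -/
theorem split_mult (A B : 𝓞 F) {v : HeightOneSpectrum (𝓞 M)}
    (h2 : v.valuation M (algebraMap F M ((2 : 𝓞 F) : F)) = 1)
    (h3 : v.valuation M (algebraMap F M ((3 : 𝓞 F) : F)) = 1)
    (hA : v.valuation M (algebraMap F M (A : F)) = 1)
    (hD : v.valuation M (algebraMap F M ((4 * A ^ 3 + 27 * B ^ 2 : 𝓞 F) : F)) < 1)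
    (hsq : ∀ c : 𝓞 F, ∃ β : M, v.valuation M β ≤ 1 ∧
      v.valuation M (β ^ 2 - algebraMap F M (c : F)) < 1) :
    SplitMultiplicative v ((⟨0, 0, 0, (A : F), (B : F)⟩ : WeierstrassCurve F).baseChange M) := by
  rw [bc_eq]
  obtain ⟨a, ha⟩ : ∃ a : M, a = algebraMap F M (A : F) := ⟨_, rfl⟩
  obtain ⟨b, hb⟩ : ∃ b : M, b = algebraMap F M (B : F) := ⟨_, rfl⟩
  have e2 : algebraMap F M ((2 : 𝓞 F) : F) = 2 := by
    show algebraMap F M (algebraMap (𝓞 F) F 2) = 2
    rw [map_ofNat, map_ofNat]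
  have e3 : algebraMap F M ((3 : 𝓞 F) : F) = 3 := by
    show algebraMap F M (algebraMap (𝓞 F) F 3) = 3
    rw [map_ofNat, map_ofNat]
  have e4 : algebraMap F M ((4 * A ^ 3 + 27 * B ^ 2 : 𝓞 F) : F) = 4 * a ^ 3 + 27 * b ^ 2 := by
    rw [ha, hb]
    show algebraMap F M (algebraMap (𝓞 F) F (4 * A ^ 3 + 27 * B ^ 2)) =
      4 * (algebraMap F M (algebraMap (𝓞 F) F A)) ^ 3 +
        27 * (algebraMap F M (algebraMap (𝓞 F) F B)) ^ 2
    simp only [map_add, map_mul, map_pow, map_ofNat]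
  have hle : v.valuation M b ≤ 1 := by rw [hb]; exact val_le B v
  rw [e2] at h2
  rw [e3] at h3
  rw [e4] at hD
  rw [← ha] at hA
  have hsq' : ∃ β : M, v.valuation M β ≤ 1 ∧ v.valuation M (β ^ 2 - (-(2 * a * b))) < 1 := by
    obtain ⟨β, hβ1, hβ2⟩ := hsq (-(2 * A * B))
    refine ⟨β, hβ1, ?_⟩
    have e : algebraMap F M ((-(2 * A * B) : 𝓞 F) : F) = -(2 * a * b) := by
      rw [ha, hb]
      show algebraMap F M (algebraMap (𝓞 F) F (-(2 * A * B))) =
        -(2 * (algebraMap F M (algebraMap (𝓞 F) F A)) * (algebraMap F M (algebraMap (𝓞 F) F B)))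
      simp only [map_neg, map_mul, map_ofNat]
    rwa [e] at hβ2
  rw [← ha, ← hb]
  have hn : ∀ c : ℤ, v.valuation M (c : M) ≤ 1 := fun c => Pool.Agent.N878.PX.val_int v c
  have h0A : a ≠ 0 := by
    intro h0
    rw [h0, map_zero] at hA
    exact zero_ne_one hA
  have uB : v.valuation M b = 1 := by
    by_contra hB
    have hB1 : v.valuation M b < 1 := lt_of_le_of_ne hle hB
    have e1 : (2 : M) ^ 2 * a ^ 3 = (4 * a ^ 3 + 27 * b ^ 2) - (27 * b) * b := by ring
    have h1 : v.valuation M ((2 : M) ^ 2 * a ^ 3) = 1 := by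
      rw [map_mul, map_pow, map_pow, h2, hA, one_pow, one_pow, one_mul]
    rw [e1] at h1
    have h5 : v.valuation M ((27 * b) * b) < 1 := by
      rw [map_mul]
      refine lt_of_le_of_lt (mul_le_of_le_one_left' ?_) hB1
      rw [map_mul]
      have h27 : v.valuation M (27 : M) ≤ 1 := by exact_mod_cast hn 27
      exact mul_le_one' h27 hle
    exact absurd h1 (ne_of_lt (lt_of_le_of_lt (Valuation.map_sub _ _ _) (max_lt hD h5)))
  obtain ⟨e, he⟩ : ∃ e : M, e = -(3 * b) / (2 * a) := ⟨_, rfl⟩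
  have ue : v.valuation M e = 1 := by
    rw [he, map_div₀, Valuation.map_neg, map_mul, map_mul, h2, h3, hA, uB]
    simp
  obtain ⟨D, hD2⟩ : ∃ D : M, D = 4 * a ^ 3 + 27 * b ^ 2 := ⟨_, rfl⟩
  rw [← hD2] at hD
  have E1 : ((⟨1, e, 0, 0⟩ : WeierstrassCurve.VariableChange M) •
      (⟨0, 0, 0, a, b⟩ : WeierstrassCurve M)) =
      ⟨0, 3 * e, 0, D / (2 * a) ^ 2, -(b * D) / (2 * a) ^ 3⟩ := by
    ext
    · simp [WeierstrassCurve.variableChange_a₁]
    · simp [WeierstrassCurve.variableChange_a₂]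
    · simp [WeierstrassCurve.variableChange_a₃]
    · simp only [WeierstrassCurve.variableChange_a₄]
      rw [hD2, he]
      simp only [inv_one, Units.val_one, one_pow, one_mul, mul_zero, sub_zero, add_zero]
      field_simp
      ring
    · simp only [WeierstrassCurve.variableChange_a₆]
      rw [hD2, he]
      simp only [inv_one, Units.val_one, one_pow, one_mul, mul_zero, sub_zero, add_zero]
      field_simp
      ring
  have v4 : v.valuation M (D / (2 * a) ^ 2) < 1 := by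
    rw [map_div₀, map_pow, map_mul, h2, hA]
    simpa using hD
  have v6 : v.valuation M (-(b * D) / (2 * a) ^ 3) < 1 := by
    rw [map_div₀, map_pow, map_mul, h2, hA, Valuation.map_neg, map_mul, uB]
    simpa using hD
  have v2 : v.valuation M (3 * e) = 1 := by rw [map_mul, h3, ue, one_mul]
  refine ⟨⟨1, e, 0, 0⟩, ?_⟩
  rw [E1]
  refine ⟨⟨by simp, v2.le, by simp, v4.le, v6.le⟩, by simp, v4, v6, ?_, ?_⟩
  · have : (⟨0, 3 * e, 0, D / (2 * a) ^ 2, -(b * D) / (2 * a) ^ 3⟩ : WeierstrassCurve M).b₂ =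
        2 ^ 2 * (3 * e) := by
      simp only [WeierstrassCurve.b₂]
      ring
    rw [this, map_mul, map_pow, h2, v2, one_pow, one_mul]
  · obtain ⟨β, hβ1, hβ2⟩ := hsq'
    refine ⟨β * (3 / (2 * a)), ?_, ?_⟩
    · rw [map_mul, map_div₀, map_mul, h3, h2, hA]
      simpa using hβ1
    · have e5 : (β * (3 / (2 * a))) ^ 2 + 0 * (β * (3 / (2 * a))) - 3 * e =
          (β ^ 2 - (-(2 * a * b))) * (3 / (2 * a)) ^ 2 := by
        rw [he]
        field_simp
        ring
      simp only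
      rw [e5, map_mul, map_pow, map_div₀, map_mul, h3, h2, hA]
      simpa using hβ2

/-- squares and non-squares -/
theorem sq_alt {R k : Type} [CommRing R] [Field k] [Finite k] (ψ : R →+* k)
    (hψ : Function.Surjective ψ) (d : R) (hd : ¬ IsSquare (ψ d)) (c : R) :
    ψ c = 0 ∨ (∃ x, ψ (x ^ 2 - c) = 0) ∨ ∃ x, ψ (x ^ 2 - c * d) = 0 := by
  letI := Fintype.ofFinite k
  have hd0 : ψ d ≠ 0 := fun h => hd (by rw [h]; exact IsSquare.zero)
  by_cases hc0 : ψ c = 0
  · exact Or.inl hc0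
  right
  by_cases hcs : IsSquare (ψ c)
  · left
    obtain ⟨z, hz⟩ := hcs
    obtain ⟨x, rfl⟩ := hψ z
    exact ⟨x, by rw [map_sub, map_pow, hz]; ring⟩
  · right
    have q1 := (quadraticChar_dichotomy hc0).resolve_left
      (fun h => hcs ((quadraticChar_one_iff_isSquare hc0).1 h))
    have q2 := (quadraticChar_dichotomy hd0).resolve_left
      (fun h => hd ((quadraticChar_one_iff_isSquare hd0).1 h))
    have hcd : ψ c * ψ d ≠ 0 := mul_ne_zero hc0 hd0
    have hq : IsSquare (ψ c * ψ d) := by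
      rw [← quadraticChar_one_iff_isSquare hcd, map_mul, q1, q2]
      norm_num
    obtain ⟨z, hz⟩ := hq
    obtain ⟨x, rfl⟩ := hψ z
    exact ⟨x, by rw [map_sub, map_pow, map_mul, hz]; ring⟩

/-- The elements of `F` are squares modulo `v`. -/
theorem sq_mod {s : 𝓞 M} {d : 𝓞 F}
    (hd : algebraMap (𝓞 F) (𝓞 M) d = s ^ 2)
    {v : HeightOneSpectrum (𝓞 M)}
    (hns : ¬ IsSquare (Ideal.Quotient.mk (blw F v).asIdeal d)) (c : 𝓞 F) :
    ∃ β : M, v.valuation M β ≤ 1 ∧ v.valuation M (β ^ 2 - algebraMap F M (c : F)) < 1 := by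
  letI bmax : (blw F v).asIdeal.IsMaximal := (blw F v).isMaximal
  letI : Field (𝓞 F ⧸ (blw F v).asIdeal) := Ideal.Quotient.field _
  haveI : Finite (𝓞 F ⧸ (blw F v).asIdeal) :=
    (blw F v).asIdeal.finiteQuotientOfFreeOfNeBot (blw F v).ne_bot
  have hz : ∀ x : 𝓞 F, Ideal.Quotient.mk (blw F v).asIdeal x = 0 ↔ x ∈ (blw F v).asIdeal :=
    fun x => Ideal.Quotient.eq_zero_iff_mem
  have hdv : d ∉ (blw F v).asIdeal := fun h => hns (by rw [(hz d).2 h]; exact IsSquare.zero)
  have halt := sq_alt (Ideal.Quotient.mk (blw F v).asIdeal) Ideal.Quotient.mk_surjective d hns c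
  rcases halt with h | ⟨x, hx⟩ | ⟨x, hx⟩
  · refine ⟨0, by rw [map_zero]; exact zero_le', ?_⟩
    rw [zero_pow two_ne_zero, zero_sub, Valuation.map_neg, val_lt_iff, ← mem_blw]
    exact (hz c).1 h
  · refine ⟨algebraMap F M (x : F), val_le x v, ?_⟩
    have e : (algebraMap F M (x : F)) ^ 2 - algebraMap F M (c : F) =
        algebraMap F M ((x ^ 2 - c : 𝓞 F) : F) := by
      show (algebraMap F M (algebraMap (𝓞 F) F x)) ^ 2 - algebraMap F M (algebraMap (𝓞 F) F c) =
        algebraMap F M (algebraMap (𝓞 F) F (x ^ 2 - c))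
      simp only [map_sub, map_pow]
    rw [e, val_lt_iff, ← mem_blw]
    exact (hz _).1 hx
  · have hsv : v.valuation M (s : M) = 1 := by
      rw [v.valuation_eq_one_iff_notMem]
      intro h
      apply hdv
      rw [mem_blw, hd, sq]
      exact Ideal.mul_mem_left _ _ h
    have hs0 : (s : M) ≠ 0 := by
      intro h
      rw [h, map_zero] at hsv
      exact zero_ne_one hsv
    have hds : algebraMap F M (d : F) = (s : M) ^ 2 := by
      have h1 := congrArg (fun y : 𝓞 M => (y : M)) hd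
      have e : ((s ^ 2 : 𝓞 M) : M) = (s : M) ^ 2 := by push_cast; rfl
      exact h1.trans e
    refine ⟨algebraMap F M (x : F) / (s : M), ?_, ?_⟩
    · rw [map_div₀, hsv, div_one]
      exact val_le x v
    · have e : (algebraMap F M (x : F) / (s : M)) ^ 2 - algebraMap F M (c : F) =
          algebraMap F M ((x ^ 2 - c * d : 𝓞 F) : F) / (s : M) ^ 2 := by
        have e2 : algebraMap F M ((x ^ 2 - c * d : 𝓞 F) : F) =
            (algebraMap F M (x : F)) ^ 2 - algebraMap F M (c : F) * algebraMap F M (d : F) := by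
          show algebraMap F M (algebraMap (𝓞 F) F (x ^ 2 - c * d)) =
            (algebraMap F M (algebraMap (𝓞 F) F x)) ^ 2 -
              algebraMap F M (algebraMap (𝓞 F) F c) * algebraMap F M (algebraMap (𝓞 F) F d)
          simp only [map_sub, map_pow, map_mul]
        rw [e2, hds]
        field_simp
      rw [e, map_div₀, map_pow, hsv, one_pow, div_one, val_lt_iff, ← mem_blw]
      exact (hz _).1 hx

end

end Pool.Agent.Helper82.PT.Cy
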