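import Pool.Agent.Helper82.PT.Cy3

/-!
# Project PT (helper82): the root number over a cyclic extension of degree `2 ^ n` is `1`
-/

set_option autoImplicit false
set_option linter.all false

open IsDedekindDomain NumberField Polynomial
open scoped Classical Pointwise

namespace Pool.Agent.Helper82.PT.Cy

open Pool.Agent.Helper82.PT.Rn
open Pool.Agent.N922.PX (IntegralAt GoodReduction SplitMultiplicative rootNumber)
open Pool.Agent.N874.QM (Gen SplitMod)
open Pool.Agent.N385.PX (val_inj)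

section

variable {F : Type} {M : Type} [Field F] [NumberField F] [Field M] [NumberField M] [Algebra F M]

/-- The infinite places are unramified. -/
theorem inf_unr [IsGalois F M] (hr : ∀ σ : F →+* ℝ, ∃ ρ : M →+* ℝ, ρ.comp (algebraMap F M) = σ)
    (w : InfinitePlace M) : InfinitePlace.IsUnramified F w := by
  haveI : FiniteDimensional F M := Module.Finite.of_restrictScalars_finite ℚ F M
  rw [InfinitePlace.isUnramified_iff]
  by_cases hc : InfinitePlace.IsReal (w.comap (algebraMap F M))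
  · left
    obtain ⟨ρ, hρ⟩ := hr (InfinitePlace.embedding_of_isReal hc)
    set φ : M →+* ℂ := (algebraMap ℝ ℂ).comp ρ with hφ
    have hreal : InfinitePlace.IsReal (InfinitePlace.mk φ) := by
      rw [InfinitePlace.isReal_mk_iff, ComplexEmbedding.isReal_iff]
      ext x
      simp [hφ]
    have hcomp : (InfinitePlace.mk φ).comap (algebraMap F M) = w.comap (algebraMap F M) := by
      rw [InfinitePlace.comap_mk, ← InfinitePlace.mk_embedding (w.comap (algebraMap F M))]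
      congr 1
      ext x
      have h1 : φ.comp (algebraMap F M) x = ((ρ.comp (algebraMap F M)) x : ℂ) := rfl
      rw [h1, hρ]
      exact InfinitePlace.embedding_of_isReal_apply hc x
    obtain ⟨g, hg⟩ := InfinitePlace.exists_smul_eq_of_comap_eq hcomp
    rw [← hg, InfinitePlace.isReal_smul_iff]
    exact hreal
  · right
    rwa [InfinitePlace.not_isReal_iff_isComplex] at hc

/-- The number of infinite places is even. -/
theorem inf_even' [IsGalois F M] {n : ℕ} (hn : Module.finrank F M = 2 ^ n) (h1n : 1 ≤ n)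
    (hr : ∀ σ : F →+* ℝ, ∃ ρ : M →+* ℝ, ρ.comp (algebraMap F M) = σ) :
    Even (Nat.card (InfinitePlace M)) := by
  haveI : FiniteDimensional F M := Module.Finite.of_restrictScalars_finite ℚ F M
  have hcard : Nat.card (M ≃ₐ[F] M) = 2 ^ n := by
    rw [IsGalois.card_aut_eq_finrank, hn]
  have hp : IsPGroup 2 (M ≃ₐ[F] M) := IsPGroup.of_card hcard
  haveI : Fact (Nat.Prime 2) := ⟨Nat.prime_two⟩
  have hmod := hp.card_modEq_card_fixedPoints (InfinitePlace M)
  have hempty : IsEmpty (MulAction.fixedPoints (M ≃ₐ[F] M) (InfinitePlace M)) := by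
    refine ⟨fun w => ?_⟩
    have h3 : MulAction.stabilizer (M ≃ₐ[F] M) (w : InfinitePlace M) = ⊤ := by
      rw [eq_top_iff]
      intro g _
      rw [MulAction.mem_stabilizer_iff]
      exact w.2 g
    have h4 := InfinitePlace.isUnramified_iff_card_stabilizer_eq_one.1 (inf_unr hr (w : InfinitePlace M))
    rw [h3] at h4
    have h5 : Nat.card (⊤ : Subgroup (M ≃ₐ[F] M)) = 2 ^ n := by
      rw [Subgroup.card_top, hcard]
    rw [h5] at h4
    have h6 : 2 ^ 1 ≤ 2 ^ n := Nat.pow_le_pow_right (by norm_num) h1n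
    omega
  have h0 : Nat.card (MulAction.fixedPoints (M ≃ₐ[F] M) (InfinitePlace M)) = 0 :=
    Nat.card_of_isEmpty
  rw [h0] at hmod
  exact even_iff_two_dvd.2 ((Nat.modEq_zero_iff_dvd).1 hmod)

/-- The product of the local root numbers. -/
theorem prod_even [IsGalois F M] {n : ℕ} (hn : Module.finrank F M = 2 ^ n)
    {w : HeightOneSpectrum (𝓞 M) → ℤ} (hs : ∀ v, w v = 1 ∨ w v = -1) (hf : {v | w v ≠ 1}.Finite)
    (hc : ∀ (σ : M ≃ₐ[F] M) (v v' : HeightOneSpectrum (𝓞 M)),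
      (∀ x : M, v'.valuation M x = v.valuation M (σ x)) → w v' = w v)
    (hno : Even (Nat.card {v : HeightOneSpectrum (𝓞 M) // FixedF F v ∧ w v = -1})) :
    ∏ᶠ v, w v = 1 := by
  have hN : {v | w v = -1} = {v | w v ≠ 1} := by
    ext v
    simp only [Set.mem_setOf_eq]
    rcases hs v with h | h <;> rw [h] <;> decide
  have hfin : {v | w v = -1}.Finite := by rw [hN]; exact hf
  have hwa : ∀ (σ : M ≃ₐ[F] M) (v : HeightOneSpectrum (𝓞 M)), w (act σ v) = w v := fun σ v =>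
    hc σ⁻¹ v (act σ v) (act_spec σ v)
  let N : Type := {v : HeightOneSpectrum (𝓞 M) // w v = -1}
  haveI : Finite N := hfin.to_subtype
  haveI : FiniteDimensional F M := Module.Finite.of_restrictScalars_finite ℚ F M
  letI ma : MulAction (M ≃ₐ[F] M) N :=
    { smul := fun σ v => ⟨act σ v.1, (hwa σ v.1).trans v.2⟩
      one_smul := fun v => Subtype.ext (act_one v.1)
      mul_smul := fun σ τ v => Subtype.ext (act_mul σ τ v.1) }
  have hG : IsPGroup 2 (M ≃ₐ[F] M) := by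
    apply IsPGroup.of_card (n := n)
    rw [← hn]
    exact IsGalois.card_aut_eq_finrank F M
  haveI : Fact (Nat.Prime 2) := ⟨Nat.prime_two⟩
  have hmod := hG.card_modEq_card_fixedPoints (α := N)
  have hfp : Nat.card (MulAction.fixedPoints (M ≃ₐ[F] M) N) =
      Nat.card {v : HeightOneSpectrum (𝓞 M) // FixedF F v ∧ w v = -1} := by
    refine Nat.card_congr
      { toFun := fun v => ⟨v.1.1, ?_, v.1.2⟩
        invFun := fun v => ⟨⟨v.1, v.2.2⟩, ?_⟩
        left_inv := fun v => rfl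
        right_inv := fun v => rfl }
    · intro σ x
      have h1 : σ⁻¹ • v.1 = v.1 := v.2 σ⁻¹
      have h2 : act σ⁻¹ v.1.1 = v.1.1 := congrArg Subtype.val h1
      have h3 := act_spec σ⁻¹ v.1.1 x
      rw [h2, inv_inv] at h3
      exact h3.symm
    · intro σ
      apply Subtype.ext
      show act σ v.1 = v.1
      exact val_inj fun x => by rw [act_spec, v.2.1]
  rw [hfp] at hmod
  have hcard : Nat.card N = {v | w v = -1}.ncard := Nat.card_coe_set_eq _
  rw [hcard] at hmod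
  have hprod : ∏ᶠ v, w v = (-1) ^ ({v | w v = -1}.ncard) := by
    rw [finprod_eq_prod_of_mulSupport_subset (s := hfin.toFinset) w ?_, Set.ncard_eq_toFinset_card _ hfin,
      Finset.prod_congr rfl (g := fun _ => (-1 : ℤ)) ?_, Finset.prod_const]
    · intro v hv
      exact hfin.mem_toFinset.1 hv
    · intro v hv
      rw [Set.Finite.coe_toFinset, hN]
      exact hv
  rw [hprod]
  have h2 : Even ({v | w v = -1}.ncard) := by
    rw [Nat.even_iff] at hno ⊢
    have h3 : {v | w v = -1}.ncard % 2 =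
      Nat.card {v : HeightOneSpectrum (𝓞 M) // FixedF F v ∧ w v = -1} % 2 := hmod
    omega
  exact h2.neg_one_pow

theorem exists_blw (w₀ : HeightOneSpectrum (𝓞 F)) :
    ∃ v : HeightOneSpectrum (𝓞 M), blw F v = w₀ := by
  haveI := w₀.isMaximal
  haveI : FaithfulSMul (𝓞 F) (𝓞 M) := by
    rw [faithfulSMul_iff_algebraMap_injective]
    exact RingOfIntegers.algebraMap.injective F M
  obtain ⟨Q, hQ, hQo⟩ := Ideal.exists_maximal_ideal_liesOver_of_isIntegral (S := 𝓞 M) w₀.asIdeal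
  have hQb : Q ≠ ⊥ := by
    rintro rfl
    have h1 := hQo.over
    have h2 : w₀.asIdeal = ⊥ := by
      rw [h1]
      exact Ideal.under_bot (𝓞 F) (𝓞 M)
    exact w₀.ne_bot h2
  refine ⟨⟨Q, hQ.isPrime, hQb⟩, ?_⟩
  apply HeightOneSpectrum.ext
  exact hQo.over.symm

/-- The root number is `1`. -/
theorem root_one_cyc [IsGalois F M]
    (h2M : ∀ v : HeightOneSpectrum (𝓞 F), (2 : 𝓞 F) ∈ v.asIdeal →
      Nonempty (M →ₐ[F] v.adicCompletion F))
    (hr : ∀ σ : F →+* ℝ, ∃ ρ : M →+* ℝ, ρ.comp (algebraMap F M) = σ)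
    {n : ℕ} (hn : Module.finrank F M = 2 ^ n) (h1n : 1 ≤ n)
    {σ : M ≃ₐ[F] M} {s : 𝓞 M} {d : 𝓞 F}
    (hgen : ∀ τ : M ≃ₐ[F] M, ∃ k : ℕ, τ = σ ^ k) (hord : orderOf σ = 2 ^ n) (hs0 : s ≠ 0)
    (hd : algebraMap (𝓞 F) (𝓞 M) d = s ^ 2) (hσ : σ (s : M) = -(s : M))
    {δ : ℕ} (hδ2 : 2 ∣ δ) (hδ3 : 3 ∣ δ)
    (hδF : ∀ q : ℕ, q.Prime → (q : ℤ) ∣ NumberField.discr F → q ∣ δ)
    (hδd : ∀ w₀ : HeightOneSpectrum (𝓞 F), d ∈ w₀.asIdeal → (δ : 𝓞 F) ∈ w₀.asIdeal)
    {p : 𝓞 F × 𝓞 F} (hp : 4 * p.1 ^ 3 + 27 * p.2 ^ 2 ≠ 0) (hg : GoodP F M δ p)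
    {w : HeightOneSpectrum (𝓞 M) → ℤ}
    (hw : LocF F M (⟨0, 0, 0, (p.1 : F), (p.2 : F)⟩ : WeierstrassCurve F) w) :
    {v | w v ≠ 1}.Finite ∧ rootNumber M w = 1 := by
  have h20 : (2 * (4 * p.1 ^ 3 + 27 * p.2 ^ 2) : 𝓞 F) ≠ 0 := mul_ne_zero two_ne_zero hp
  have hf : {v | w v ≠ 1}.Finite := by
    refine (finite_ne (M := M) _ h20).subset fun v hv h => hv ?_
    exact hw.good v (good_red p v h)
  refine ⟨hf, ?_⟩
  obtain ⟨γ, m, a, b, D, hG, hpe, hsq, hD0, hDq, hirr⟩ := hg.str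
  have hδ0 : δ ≠ 0 := hG.ne
  have hpN : 4 * p.1 ^ 3 + 27 * p.2 ^ 2 = (D : 𝓞 F) ^ 6 * (4 * a ^ 3 + 27 * b ^ 2) := by
    rw [hpe]
    ring
  obtain ⟨N, hN⟩ : ∃ N : 𝓞 F, N = 4 * a ^ 3 + 27 * b ^ 2 := ⟨_, rfl⟩
  rw [← hN] at hpN
  have hN0 : N ≠ 0 := by
    rintro rfl
    rw [mul_zero] at hpN
    exact hp hpN
  have hnt : Nontrivial (M ≃ₐ[F] M) := by
    refine ⟨σ, 1, fun h => ?_⟩
    rw [h, orderOf_one] at hord
    have h6 : 2 ^ 1 ≤ 2 ^ n := Nat.pow_le_pow_right (by norm_num) h1n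
    omega
  -- primes over `δ`
  have hprF : ∀ w₀ : HeightOneSpectrum (𝓞 F), (δ : 𝓞 F) ∈ w₀.asIdeal →
      ∃ q : ℕ, q.Prime ∧ q ∣ δ ∧ (q : 𝓞 F) ∈ w₀.asIdeal := fun w₀ h =>
    exists_prime_mem δ hδ0 h
  have hdvd : ∀ (w₀ : HeightOneSpectrum (𝓞 F)) (q : ℕ), q ∣ δ → (q : 𝓞 F) ∈ w₀.asIdeal →
      (δ : 𝓞 F) ∈ w₀.asIdeal := by
    rintro w₀ q ⟨c, hc⟩ h
    rw [hc, Nat.cast_mul]
    exact w₀.asIdeal.mul_mem_right _ h
  have hodd : ∀ w₀ : HeightOneSpectrum (𝓞 F), (δ : 𝓞 F) ∉ w₀.asIdeal →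
      (2 : 𝓞 F) ∉ w₀.asIdeal ∧ (3 : 𝓞 F) ∉ w₀.asIdeal := by
    intro w₀ h
    constructor
    · intro h2
      exact h (hdvd w₀ 2 hδ2 (by exact_mod_cast h2))
    · intro h3
      exact h (hdvd w₀ 3 hδ3 (by exact_mod_cast h3))
  have hNδ : ∀ w₀ : HeightOneSpectrum (𝓞 F), (δ : 𝓞 F) ∈ w₀.asIdeal → (2 : 𝓞 F) ∉ w₀.asIdeal →
      N ∉ w₀.asIdeal ∧ IsSquare (Ideal.Quotient.mk w₀.asIdeal (-N)) := by
    intro w₀ h h2
    obtain ⟨q, hq, hqδ, hqw⟩ := hprF w₀ h
    have h1 := hirr q hq hqδ w₀.asIdeal w₀.isPrime hqw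
    haveI := w₀.isMaximal
    letI : Field (𝓞 F ⧸ w₀.asIdeal) := Ideal.Quotient.field _
    haveI : Finite (𝓞 F ⧸ w₀.asIdeal) := w₀.asIdeal.finiteQuotientOfFreeOfNeBot w₀.ne_bot
    have h2' : (2 : 𝓞 F ⧸ w₀.asIdeal) ≠ 0 := by
      intro h3
      apply h2
      rw [← Ideal.Quotient.eq_zero_iff_mem, map_ofNat]
      exact h3
    have k1 := disc_ne_fin h2' h1
    have k2 := disc_sq h2' h1
    constructor
    · intro hmem
      apply k1
      have h4 := Ideal.Quotient.eq_zero_iff_mem.2 hmem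
      rw [hN] at h4
      simp only [map_add, map_mul, map_pow, map_ofNat] at h4
      exact h4
    · rw [hN]
      simp only [map_neg, map_add, map_mul, map_pow, map_ofNat]
      exact k2
  have hDδ : ∀ w₀ : HeightOneSpectrum (𝓞 F), (D : 𝓞 F) ∈ w₀.asIdeal →
      (δ : 𝓞 F) ∉ w₀.asIdeal ∧ ∃ q : ℕ, SplitMod q m ∧ (q : 𝓞 F) ∈ w₀.asIdeal := by
    intro w₀ h
    obtain ⟨q, hq, hqD, hqw⟩ := exists_prime_mem D hD0 h
    refine ⟨fun h' => ?_, q, (hDq q hq hqD).1, hqw⟩
    obtain ⟨q', hq', hqδ', hqw'⟩ := hprF w₀ h'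
    have e := Pool.Agent.N783.PF.R2.pr_eq hq hq' hqw hqw'
    exact (hDq q hq hqD).2 (e ▸ hqδ')
  -- a stable prime is not over `D`
  have hDfix : ∀ v : HeightOneSpectrum (𝓞 M), FixedF F v → (D : 𝓞 F) ∉ (blw F v).asIdeal := by
    intro v hfix h
    obtain ⟨h1, q, hq, hqw⟩ := hDδ _ h
    have hδv : (δ : 𝓞 M) ∉ v.asIdeal := by
      intro h2
      apply h1
      rw [mem_blw, map_natCast]
      exact h2
    have hqv : (q : 𝓞 M) ∈ v.asIdeal := by
      rw [mem_blw, map_natCast] at hqw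
      exact hqw
    obtain ⟨τ, hτ⟩ := exists_ne (1 : M ≃ₐ[F] M)
    exact hτ (eq_one_of_split hG hδv hq hqv τ (hfix τ))
  -- good reduction
  have hgood : ∀ v : HeightOneSpectrum (𝓞 M), (2 : 𝓞 F) ∉ (blw F v).asIdeal →
      (D : 𝓞 F) ∉ (blw F v).asIdeal → N ∉ (blw F v).asIdeal → w v = 1 := by
    intro v h2 hD hNv
    apply hw.good v
    apply good_red p v
    refine le_antisymm (val_le _ v) (not_lt.1 fun hlt => ?_)
    rw [val_lt_iff, ← mem_blw, hpN] at hlt
    rcases (blw F v).isPrime.mem_or_mem hlt with h | h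
    · exact h2 h
    · rcases (blw F v).isPrime.mem_or_mem h with h | h
      · exact hD ((blw F v).isPrime.mem_of_pow_mem _ h)
      · exact hNv h
  have hd0 : d ≠ 0 := by
    rintro rfl
    rw [map_zero] at hd
    exact hs0 (pow_eq_zero_iff two_ne_zero |>.1 hd.symm)
  have hds : algebraMap F M (d : F) = (s : M) ^ 2 := by
    have h1 := congrArg (fun y : 𝓞 M => (y : M)) hd
    have e : ((s ^ 2 : 𝓞 M) : M) = (s : M) ^ 2 := by push_cast; rfl
    exact h1.trans e
  have hsM : (s : M) ≠ 0 := by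
    rwa [Ne, RingOfIntegers.coe_eq_zero_iff]
  have hrec := Pool.Agent.Helper82.RC.reciprocity d (-N) hd0 (neg_ne_zero.2 hN0) δ hδ0 hδ2
    (by
      intro τ
      obtain ⟨ρ, hρ⟩ := hr τ
      have e : τ (d : F) = (ρ (s : M)) ^ 2 := by
        rw [← hρ, RingHom.comp_apply, hds, map_pow]
      rw [e]
      have h1 : ρ (s : M) ≠ 0 := by
        rw [Ne, map_eq_zero]
        exact hsM
      positivity)
    (by
      intro w₀ hw₀
      by_cases h2 : (2 : 𝓞 F) ∈ w₀.asIdeal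
      · left
        obtain ⟨j⟩ := h2M w₀ h2
        refine ⟨j (s : M), ?_⟩
        have e : algebraMap F (w₀.adicCompletion F) (d : F) = j (algebraMap F M (d : F)) :=
          (j.commutes _).symm
        rw [e, hds, map_pow, sq]
      · right
        obtain ⟨h3, h4⟩ := hNδ w₀ hw₀ h2
        refine sq_of_res h2 ?_ h4
        rw [neg_mem_iff]
        exact h3)
    (by
      intro q hq hqδ
      exact unr hq fun h => hqδ (hδF q hq h))
    (fun w₀ h h' => h (hδd w₀ h'))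
    (by
      intro w₀ _ h
      rw [neg_mem_iff, hN] at h
      exact hsq w₀.asIdeal w₀.isPrime w₀.ne_bot h)
  have hcount : Nat.card {v : HeightOneSpectrum (𝓞 M) // FixedF F v ∧ w v = -1} =
      Nat.card {w₀ : HeightOneSpectrum (𝓞 F) // (δ : 𝓞 F) ∉ w₀.asIdeal ∧ -N ∈ w₀.asIdeal ∧
        ¬ IsSquare (Ideal.Quotient.mk w₀.asIdeal d)} := by
    have hwd : ∀ v : HeightOneSpectrum (𝓞 M), FixedF F v → w v = -1 →
        (δ : 𝓞 F) ∉ (blw F v).asIdeal ∧ -N ∈ (blw F v).asIdeal ∧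
        ¬ IsSquare (Ideal.Quotient.mk (blw F v).asIdeal d) := by
      intro v hfix hwv
      have h2 : (2 : 𝓞 F) ∉ (blw F v).asIdeal := by
        intro h
        obtain ⟨j⟩ := h2M _ h
        exact not_fixed_of_emb j rfl hnt hfix
      have hD := hDfix v hfix
      have hne : w v ≠ 1 := by
        rw [hwv]
        norm_num
      have hδv : (δ : 𝓞 F) ∉ (blw F v).asIdeal := fun h =>
        hne (hgood v h2 hD (hNδ _ h h2).1)
      refine ⟨hδv, ?_, ?_⟩
      · rw [neg_mem_iff]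
        by_contra h
        exact hne (hgood v h2 hD h)
      · exact not_sq_of_fixed hd hσ hfix h2 (fun h => hδv (hδd _ h))
    refine Nat.card_congr (Equiv.ofBijective (fun v :
      {v : HeightOneSpectrum (𝓞 M) // FixedF F v ∧ w v = -1} =>
      (⟨blw F v.1, hwd v.1 v.2.1 v.2.2⟩ : {w₀ : HeightOneSpectrum (𝓞 F) //
        (δ : 𝓞 F) ∉ w₀.asIdeal ∧ -N ∈ w₀.asIdeal ∧
        ¬ IsSquare (Ideal.Quotient.mk w₀.asIdeal d)})) ⟨?_, ?_⟩)
    · rintro ⟨v, hv⟩ ⟨v', hv'⟩ h
      have h1 : blw F v = blw F v' := congrArg Subtype.val h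
      apply Subtype.ext
      exact (fixed_eq hv.1 h1).symm
    · rintro ⟨w₀, hδw, hNw, hns⟩
      obtain ⟨v, hv⟩ := exists_blw (M := M) w₀
      subst hv
      have hfix : FixedF F v := fixed_of_not_sq hgen hord hd hσ hns
      have hD := hDfix v hfix
      obtain ⟨h2, h3⟩ := hodd _ hδw
      rw [neg_mem_iff] at hNw
      have ha : a ∉ (blw F v).asIdeal := by
        intro ha
        have h27 : 27 * b ^ 2 ∈ (blw F v).asIdeal := by
          have e : 27 * b ^ 2 = N - 4 * a ^ 2 * a := by rw [hN]; ring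
          rw [e]
          exact Ideal.sub_mem _ hNw (Ideal.mul_mem_left _ _ ha)
        have hb : b ∈ (blw F v).asIdeal := by
          rcases (blw F v).isPrime.mem_or_mem h27 with h | h
          · exfalso
            apply h3
            have e : (27 : 𝓞 F) = 3 ^ 3 := by norm_num
            rw [e] at h
            exact (blw F v).isPrime.mem_of_pow_mem _ h
          · exact (blw F v).isPrime.mem_of_pow_mem _ h
        refine hsq _ (blw F v).isPrime (blw F v).ne_bot ?_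
        rw [sq]
        have e : 4 * a ^ 3 + 27 * b ^ 2 = a * (4 * a ^ 2) + b * (27 * b) := by ring
        rw [e]
        refine Ideal.add_mem _ (Ideal.mul_mem_mul ha ?_) (Ideal.mul_mem_mul hb ?_)
        · have e : 4 * a ^ 2 = 4 * a * a := by ring
          rw [e]
          exact Ideal.mul_mem_left _ _ ha
        · exact Ideal.mul_mem_left _ _ hb
      have hval : ∀ y : 𝓞 F, y ∉ (blw F v).asIdeal →
          v.valuation M (algebraMap F M (y : F)) = 1 := by
        intro y hy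
        refine le_antisymm (val_le _ v) (not_lt.1 fun hlt => ?_)
        rw [val_lt_iff, ← mem_blw] at hlt
        exact hy hlt
      have hwv : w v = -1 := by
        apply hw.split v
        refine split_mult p.1 p.2 (hval 2 h2) (hval 3 h3) (hval p.1 ?_) ?_ (sq_mod hd hns)
        · rw [hpe]
          intro h
          rcases (blw F v).isPrime.mem_or_mem h with h | h
          · exact ha h
          · exact hD ((blw F v).isPrime.mem_of_pow_mem _ h)
        · rw [val_lt_iff, ← mem_blw, hpN]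
          exact Ideal.mul_mem_left _ _ hNw
      exact ⟨⟨v, hfix, hwv⟩, rfl⟩
  rw [← hcount] at hrec
  have h3 := prod_even hn hw.sign hf hw.conj hrec
  have h4 := inf_even' (F := F) (M := M) hn h1n hr
  unfold Pool.Agent.N922.PX.rootNumber
  rw [h3, h4.neg_one_pow, one_mul]

end

end Pool.Agent.Helper82.PT.Cy
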