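import Pool.Graph.R_pool_sql_team_seeded_63374d34.N783.PF.Loc
import Pool.Graph.R_pool_sql_team_seeded_63374d34.N874.QM.Stm

/-!
# Elliptic curves over a number field `F` and over a Galois 2-extension `M / F`: statements

Project PT (helper82), the version over a Galois extension `M / F` of 2-power degree, `F` any number
field, of project PF of the library (helper783), with the methods of project QM (helper874).
-/

set_option autoImplicit false
set_option linter.all false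

open Polynomial IsDedekindDomain NumberField
open Pool.Agent.N783.PF
open Pool.Agent.N352.PJ (dd)
open Pool.Agent.N783.PQ (LocIm)
open Pool.Agent.N874.PP (Ev Sq1 U0)
open Pool.Agent.N874.QM (Gen SplitMod SelM)
open scoped Classical IntermediateField

namespace Pool.Agent.Helper82.PT

/-- Many `f` in the family; `f₁` is irreducible modulo all the primes which divide `W`, and `W` is
divisible by all the small primes. -/
def S_FAMW (g : ℕ) : Prop := ∀ (F : Type) [Field F] [NumberField F],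
  ∀ K : ℕ, ∃ (W : ℕ) (f₁ : (𝓞 F)[X]), K ≤ W ∧ GoodF g W f₁ ∧
  (∀ p : ℕ, p.Prime → p ≤ K → p ∣ W) ∧
  (∀ 𝔭 : Ideal (𝓞 F), 𝔭.IsPrime → (W : 𝓞 F) ∈ 𝔭 → Irreducible (rd 𝔭 f₁)) ∧
  ∃ c : ℝ, 0 < c ∧ ∀ (S : Finset ℕ) (𝔮 : ℕ → Ideal (𝓞 F)) (h P : ℕ → (𝓞 F)[X]),
    GoodS g W S 𝔮 h P → ∃ B₀ : ℕ, ∀ B ≥ B₀,
    c * (B : ℝ) ^ (Module.finrank ℚ F * dd g) ≤
      (((∏ q ∈ S, q ^ (2 * g)) ^ Module.finrank ℚ F : ℕ) : ℝ) *
      ({f : (𝓞 F)[X] | Fam g B W f₁ S P f}.ncard : ℝ)

/-- Existence of `S`, the primes in `S` splitting in the field defined by `m`. -/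
def S_EXSM : Prop := ∀ (F : Type) [Field F] [NumberField F] (g W : ℕ) (m : ℤ[X]), 1 ≤ g →
  m.Monic → ∀ r : ℕ, ∃ (S : Finset ℕ) (𝔮 : ℕ → Ideal (𝓞 F)) (h P : ℕ → (𝓞 F)[X]),
    GoodS g W S 𝔮 h P ∧ S.card = r ∧ ∀ q ∈ S, SplitMod q m

/-- An embedding over `F` of `M` in the completion of `F` at `v` extends to a completion of `M`. -/
def S_EMBF : Prop := ∀ (F M : Type) [Field F] [NumberField F] [Field M] [NumberField M]
  [Algebra F M] (v : HeightOneSpectrum (𝓞 F)) (σ : M →ₐ[F] v.adicCompletion F),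
  ∃ (w : HeightOneSpectrum (𝓞 M)) (j : w.adicCompletion M →+* v.adicCompletion F),
    (∀ a : 𝓞 F, a ∈ v.asIdeal ↔ algebraMap (𝓞 F) (𝓞 M) a ∈ w.asIdeal) ∧
    (∀ x : M, j (algebraMap M (w.adicCompletion M) x) = σ x) ∧
    ∀ x : M, w.valuation M x < 1 ↔ Valued.v (Γ₀ := WithZero (Multiplicative ℤ)) (σ x) < 1

end Pool.Agent.Helper82.PT
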