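import Pool.Agent.Helper82.PT.Abs

/-!
# Project PT (helper82): the 2-Selmer group over the extension, the fields

After `N874/QM/Fld.lean` (helper874) and `N170/PF/Tw.lean` (helper170).
-/

set_option autoImplicit false
set_option linter.all false

open Polynomial IsDedekindDomain NumberField
open Pool.Agent.N783.PF
open Pool.Agent.N783.PQ (LocIm)
open Pool.Agent.N874.PP (Ev Sq1 U0)
open Pool.Agent.N874.JM (LocF irr_up)
open Pool.Agent.N874.QM (Gen SplitMod SelM)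
open Pool.Agent.N78.PF (val_theta val_der rd_eq sp_le eq_of_ov fF_scale val_one)
open Pool.Agent.N170.PF (LBad.mono irr_scale)
open scoped Classical IntermediateField

namespace Pool.Agent.Helper82.PT

/-- A generator with irreducible integral equation. -/
theorem isGen_of {F L : Type} [Field F] [NumberField F] [Field L] [NumberField L] [Algebra F L]
    {g : ℕ} {f : (𝓞 F)[X]} {θ : L} (hm : f.Monic)
    (hd : f.natDegree = 2 * g + 1) (hroot : aeval θ (fF f) = 0) (hirr : Irreducible (fF f))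
    (htop : Algebra.adjoin F {θ} = ⊤) : IsGen g f θ := by
  have hm' : (fF f).Monic := hm.map _
  have hd' : (fF f).natDegree = 2 * g + 1 := by rw [fF, hm.natDegree_map, hd]
  have hmin : minpoly F θ = fF f := (minpoly.eq_of_irreducible_of_monic hirr hroot hm').symm
  have hint : IsIntegral F θ := ⟨fF f, hm', by rw [← aeval_def]; exact hroot⟩
  have hfin : FiniteDimensional F L := FiniteDimensional.right ℚ F L
  have htop' : F⟮θ⟯ = ⊤ := by
    apply IntermediateField.toSubalgebra_injective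
    rw [IntermediateField.adjoin_simple_toSubalgebra_of_isAlgebraic
      (Algebra.IsAlgebraic.isAlgebraic θ), htop, IntermediateField.top_toSubalgebra]
  refine ⟨hm, hd, hroot, ?_, ?_⟩
  · rw [← (Field.primitive_element_iff_minpoly_natDegree_eq F θ).1 htop', hmin, hd']
  · intro x
    have hx : x ∈ (aeval (R := F) θ).range := by
      rw [← Algebra.adjoin_singleton_eq_range_aeval, htop]
      exact Algebra.mem_top
    obtain ⟨p, rfl⟩ := hx
    have h1 : aeval θ p = aeval θ (p %ₘ fF f) := by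
      have h2 := congrArg (aeval θ) (modByMonic_add_div p (fF f))
      rw [map_add, map_mul, hroot, zero_mul, add_zero] at h2
      exact h2.symm
    have hlt : (p %ₘ fF f).natDegree < 2 * g + 1 := by
      rw [← hd']
      exact natDegree_modByMonic_lt p hm' (by
        intro h
        rw [h] at hd'
        simp at hd')
    refine ⟨fun i => (p %ₘ fF f).coeff i, ?_⟩
    change aeval θ p = _
    rw [h1]
    conv_lhs => rw [(p %ₘ fF f).as_sum_range_C_mul_X_pow' hlt]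
    rw [map_sum, Finset.sum_range]
    refine Finset.sum_congr rfl fun i _ => ?_
    rw [map_mul, map_pow, aeval_X, aeval_C]

/-- The properties of the twists which are used. -/
structure GoodM (F : Type) [Field F] [NumberField F] (M : Type) [Field M] [NumberField M]
    [Algebra F M] (g δ : ℕ) (f : (𝓞 F)[X]) : Prop where
  irr : Irreducible ((fF f).map (algebraMap F M))
  sel : SelM M ((fF f).map (algebraMap F M))
  min : Min g f
  red : ∀ p : ℕ, p.Prime → p ∣ δ → ∀ 𝔭 : Ideal (𝓞 F), 𝔭.IsPrime → (p : 𝓞 F) ∈ 𝔭 →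
    Irreducible (rd 𝔭 f)
  str : ∃ (γ : M) (m : ℤ[X]) (f₀ : (𝓞 F)[X]) (D : ℕ), Gen ℚ γ m δ ∧
    f = f₀.scaleRoots ((D : ℕ) : 𝓞 F) ∧ f₀.Monic ∧ f₀.natDegree = 2 * g + 1 ∧ SqF g f₀ ∧ D ≠ 0 ∧
    (∀ q : ℕ, q.Prime → q ∣ D → SplitMod q m ∧ ¬ q ∣ δ) ∧
    ∀ p : ℕ, p.Prime → p ∣ δ → ∀ 𝔭 : Ideal (𝓞 F), 𝔭.IsPrime → (p : 𝓞 F) ∈ 𝔭 →
      Irreducible (rd 𝔭 f₀)

/-- The theorem on the Selmer group over `M`. -/
theorem twM (hEMB : S_EMBF) (F : Type) [Field F] [NumberField F] {g : ℕ} (hg : 1 ≤ g) :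
    ∃ κ : ℕ, ∀ (M : Type) [Field M] [NumberField M] [Algebra F M] [IsGalois F M]
    (_ : ∀ v : HeightOneSpectrum (𝓞 F), (2 : 𝓞 F) ∈ v.asIdeal →
      Nonempty (M →ₐ[F] v.adicCompletion F))
    (_ : ∀ σ : F →+* ℝ, ∃ ρ : M →+* ℝ, ρ.comp (algebraMap F M) = σ)
    (n : ℕ), Module.finrank F M = 2 ^ n →
    ∀ (γ : M) (m : ℤ[X]) (δ : ℕ), Gen ℚ γ m δ →
    ∀ (B N W : ℕ) (f₁ : (𝓞 F)[X]) (S : Finset ℕ) (𝔮 : ℕ → Ideal (𝓞 F)) (r P : ℕ → (𝓞 F)[X])
    (f : (𝓞 F)[X]), κ ≤ W → GoodF g W f₁ →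
    GoodS g W S 𝔮 r P → Fam g B W f₁ S P f → 2 ^ κ * B ≤ 4 ^ N → 1 ≤ B → ¬ LBad g N κ S 𝔮 P f →
    (∀ 𝔭 : Ideal (𝓞 F), 𝔭.IsPrime → (W : 𝓞 F) ∈ 𝔭 → Irreducible (rd 𝔭 f₁)) →
    (∀ p : ℕ, p.Prime → p ∣ δ → p ∣ W) → (∀ q ∈ S, SplitMod q m) →
    ∃ J ⊆ S, GoodM F M g δ (f.scaleRoots ((Dp J : ℕ) : 𝓞 F)) := by
  obtain ⟨κ₁, hκ₁⟩ := core g F hg
  obtain ⟨κ₂, hκ₂⟩ := sqf g F hg
  refine ⟨max κ₁ κ₂, ?_⟩
  intro M _ _ _ _ h2 hr0 n hM γ m δ hG B N W f₁ S 𝔮 r P f hW hf₁ hS hF hBN hB hnb hWi hδ hsp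
  have hBN1 : 2 ^ κ₁ * B ≤ 4 ^ N :=
    (Nat.mul_le_mul_right _ (Nat.pow_le_pow_right (by norm_num) (le_max_left _ _))).trans hBN
  have hBN2 : 2 ^ κ₂ * B ≤ 4 ^ N :=
    (Nat.mul_le_mul_right _ (Nat.pow_le_pow_right (by norm_num) (le_max_right _ _))).trans hBN
  have hnb1 : ¬ LBad g N κ₁ S 𝔮 P f := fun h => hnb (LBad.mono (le_max_left _ _) h)
  have hnb2 : ¬ LBad g N κ₂ S 𝔮 P f := fun h => hnb (LBad.mono (le_max_right _ _) h)
  have hm := hF.ht.mon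
  have hd := hF.ht.deg
  have hirr : Irreducible (fF f) := Pool.Agent.N667.PF.irr F g W f₁ f hf₁ hF.one hm hd
  have hsq : SqF g f := hκ₂ B N W f₁ S 𝔮 r P f ((le_max_right _ _).trans hW) hf₁ hS hF hirr hBN2
    hB hnb2
  haveI : FiniteDimensional F M := FiniteDimensional.right ℚ F M
  have hmF : (fF f).Monic := hm.map _
  have hmM : ((fF f).map (algebraMap F M)).Monic := hmF.map _
  have hdM : ((fF f).map (algebraMap F M)).natDegree = 2 * g + 1 := by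
    rw [hmF.natDegree_map, hm.natDegree_map, hd]
  have hup : ∀ f' : F[X], f'.Monic → f'.natDegree = 2 * g + 1 → Irreducible f' →
      Irreducible (f'.map (algebraMap F M)) := by
    intro f' h1 h2 h3
    exact irr_up hM h3 h1 (by rw [h2]; exact odd_two_mul_add_one g)
  have hirrM := hup (fF f) hmF (by rw [fF, hm.natDegree_map, hd]) hirr
  obtain ⟨Ω, instF, instA, t, ht, hrk, htop, hfin, hmin⟩ :=
    Pool.Agent.N874.JM.exists_field hirrM hmM
  rw [hdM] at hrk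
  letI : Algebra F Ω := ((algebraMap M Ω).comp (algebraMap F M)).toAlgebra
  haveI : IsScalarTower F M Ω := IsScalarTower.of_algebraMap_eq fun x => rfl
  haveI : CharZero Ω := charZero_of_injective_algebraMap (algebraMap M Ω).injective
  haveI : FiniteDimensional ℚ Ω := FiniteDimensional.trans ℚ M Ω
  haveI : NumberField Ω := NumberField.mk
  have ht' : aeval t (fF f) = 0 := by
    rw [aeval_map_algebraMap] at ht
    exact ht
  -- the field `L`
  haveI : FiniteDimensional F Ω := FiniteDimensional.right ℚ F Ω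
  let L : IntermediateField F Ω := F⟮t⟯
  haveI : FiniteDimensional F L := FiniteDimensional.left F L Ω
  haveI : FiniteDimensional ℚ L := FiniteDimensional.trans ℚ F L
  haveI : NumberField L := NumberField.mk
  let θ : L := IntermediateField.AdjoinSimple.gen F t
  have hθ : algebraMap L Ω θ = t := IntermediateField.AdjoinSimple.algebraMap_gen F t
  have hrootL : aeval θ (fF f) = 0 := by
    apply (algebraMap L Ω).injective
    rw [map_zero, ← aeval_algebraMap_apply, hθ, ht']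
  have htopL : Algebra.adjoin F {θ} = ⊤ := by
    have h1 := IntermediateField.adjoin_simple_toSubalgebra_of_isAlgebraic
      (Algebra.IsAlgebraic.isAlgebraic (R := F) t)
    rw [eq_top_iff]
    rintro ⟨x, hx⟩ -
    have hx' : x ∈ Algebra.adjoin F {t} := by
      rw [← h1]
      exact hx
    rw [Algebra.adjoin_singleton_eq_range_aeval] at hx' ⊢
    obtain ⟨p, hp⟩ := hx'
    refine ⟨p, ?_⟩
    apply (algebraMap L Ω).injective
    change algebraMap L Ω (aeval θ p) = x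
    rw [← aeval_algebraMap_apply, hθ]
    exact hp
  have hc : IsGen g f θ := isGen_of hm hd hrootL hirr htopL
  obtain ⟨J, hJ, hsel⟩ := hκ₁ L f f₁ θ B N W S 𝔮 r P ((le_max_left _ _).trans hW) hc hsq hf₁ hS
    hF hBN1 hB hnb1
  refine ⟨J, hJ, ?_⟩
  have hprimes : ∀ q ∈ J, q.Prime := fun q hq => (hS q (hJ hq)).1
  have hmin6 := Pool.Agent.N547.PF.min g W F S J 𝔮 r P f hg hS hsq hm hd hF.con hJ
  have hD0 : Dp J ≠ 0 := by
    rw [Dp, Finset.prod_ne_zero_iff]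
    exact fun q hq => (hprimes q hq).ne_zero
  have hpW : ∀ p : ℕ, p ∣ W → ∀ 𝔭 : Ideal (𝓞 F), (p : 𝓞 F) ∈ 𝔭 → (W : 𝓞 F) ∈ 𝔭 := by
    rintro p ⟨k, hk⟩ 𝔭 h
    rw [hk, Nat.cast_mul]
    exact Ideal.mul_mem_right _ _ h
  have hredf : ∀ 𝔭 : Ideal (𝓞 F), 𝔭.IsPrime → (W : 𝓞 F) ∈ 𝔭 → Irreducible (rd 𝔭 f) := by
    intro 𝔭 hp h
    rw [rd_eq (sp_le h) hF.one]
    exact hWi 𝔭 hp h
  have hDW : ∀ p : ℕ, p.Prime → p ∣ W → ∀ 𝔭 : Ideal (𝓞 F), 𝔭.IsPrime → (p : 𝓞 F) ∈ 𝔭 →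
      ((Dp J : ℕ) : 𝓞 F) ∉ 𝔭 := by
    intro p hp hpW 𝔭 h𝔭 h1 h2
    rw [Dp, Nat.cast_prod] at h2
    obtain ⟨q, hq, hqm⟩ := (Ideal.IsPrime.prod_mem_iff (hp := h𝔭)).1 h2
    have hqW := (hS q (hJ hq)).2.1
    have hpq : p ≠ q := by
      rintro rfl
      exact absurd (Nat.le_of_dvd hf₁.pos hpW) (not_le.2 hqW)
    have hco : Nat.Coprime p q := (Nat.coprime_primes hp (hprimes q hq)).2 hpq
    obtain ⟨u, v, huv⟩ := (Nat.isCoprime_iff_coprime.2 hco)
    apply h𝔭.ne_top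
    rw [Ideal.eq_top_iff_one]
    have h9 : (1 : 𝓞 F) = (u : 𝓞 F) * (p : 𝓞 F) + (v : 𝓞 F) * (q : 𝓞 F) := by
      have := congrArg (Int.cast (R := 𝓞 F)) huv
      push_cast at this
      exact this.symm
    rw [h9]
    exact Ideal.add_mem _ (Ideal.mul_mem_left _ _ h1) (Ideal.mul_mem_left _ _ hqm)
  have hmain := fun h hne hN hloc hr => selM_abs (L := L) (Ω := Ω) (T := W.primeFactors) (θ := θ)
    hEMB hg hc hsq hS hF.con hG hsp
    (fun p hp => Nat.prime_of_mem_primeFactors hp)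
    (Nat.mem_primeFactors.2 ⟨Nat.prime_two, hf₁.two, hf₁.pos.ne'⟩)
    (fun p hp 𝔭 h𝔭 hm => hredf 𝔭 h𝔭 (hpW p (Nat.dvd_of_mem_primeFactors hp) 𝔭 hm))
    (fun p hp hpd => Nat.mem_primeFactors.2 ⟨hp, hδ p hp hpd, hf₁.pos.ne'⟩)
    (by
      rw [Finset.disjoint_left]
      intro q hq hq'
      have h1 := Nat.le_of_dvd hf₁.pos (Nat.dvd_of_mem_primeFactors hq')
      exact absurd (hS q hq).2.1 (not_lt.2 h1))
    hJ (by rw [hθ]; exact htop) (by rw [hθ]; exact hmin) h2 hr0 hM hrk hsel h hne hN hloc hr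
  rw [hθ] at hmain
  have hDq : ∀ q : ℕ, q.Prime → q ∣ Dp J → SplitMod q m ∧ ¬ q ∣ δ := by
    intro q hq hqD
    rw [Dp, Prime.dvd_finsetProd_iff hq.prime] at hqD
    obtain ⟨q', hq', hqq'⟩ := hqD
    have e : q = q' := (Nat.prime_dvd_prime_iff_eq hq (hprimes q' hq')).1 hqq'
    subst e
    refine ⟨hsp q (hJ hq'), fun h => ?_⟩
    have h1 := Nat.le_of_dvd hf₁.pos (hδ q hq h)
    exact absurd (hS q (hJ hq')).2.1 (not_lt.2 h1)
  generalize hDD : Dp J = D at hD0 hmain hmin6 hDW hDq ⊢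
  have hD0F : (D : F) ≠ 0 := Nat.cast_ne_zero.2 hD0
  have hmD : (f.scaleRoots (D : 𝓞 F)).Monic := (monic_scaleRoots_iff (D : 𝓞 F)).2 hm
  have hdD : (f.scaleRoots (D : 𝓞 F)).natDegree = 2 * g + 1 := by rw [natDegree_scaleRoots, hd]
  have hirrD : Irreducible (fF (f.scaleRoots (D : 𝓞 F))) := by
    rw [fF_scale hm]
    exact irr_scale hD0F hirr
  obtain ⟨F', hF'⟩ : ∃ F' : M[X], F' = (fF (f.scaleRoots (D : 𝓞 F))).map (algebraMap F M) :=
    ⟨_, rfl⟩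
  have hmFD : (fF (f.scaleRoots (D : 𝓞 F))).Monic := hmD.map _
  have hirrF : Irreducible F' := by
    rw [hF']
    exact hup _ hmFD (by rw [fF, hmD.natDegree_map, hdD]) hirrD
  refine ⟨by rw [← hF']; exact hirrF, ?_, hmin6, ?_, γ, m, f, D, hG, rfl, hm, hd, hsq, hD0, hDq,
    fun p hp hpd 𝔭 h𝔭 hpm => hredf 𝔭 h𝔭 (hpW p (hδ p hp hpd) 𝔭 hpm)⟩
  swap
  · intro p hp hpd 𝔭 h𝔭 hpm
    have h𝔭0 : 𝔭 ≠ ⊥ := by
      rintro rfl
      rw [Ideal.mem_bot] at hpm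
      exact hp.ne_zero (by exact_mod_cast hpm)
    haveI : 𝔭.IsMaximal := h𝔭.isMaximal h𝔭0
    letI : Field (𝓞 F ⧸ 𝔭) := Ideal.Quotient.field 𝔭
    have hD𝔭 : ((D : ℕ) : 𝓞 F ⧸ 𝔭) ≠ 0 := by
      intro h
      apply hDW p hp (hδ p hp hpd) 𝔭 h𝔭 hpm
      rw [← Ideal.Quotient.eq_zero_iff_mem, map_natCast]
      exact h
    have e : rd 𝔭 (f.scaleRoots (D : 𝓞 F)) = (rd 𝔭 f).scaleRoots ((D : ℕ) : 𝓞 F ⧸ 𝔭) := by
      rw [rd, map_scaleRoots, map_natCast]
      rw [hm.leadingCoeff, map_one]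
      exact one_ne_zero
    rw [e]
    exact irr_scale hD𝔭 (hredf 𝔭 h𝔭 (hpW p (hδ p hp hpd) 𝔭 hpm))
  intro h hcop hnorm hloc hr
  have hmF' : F'.Monic := by
    rw [hF']
    exact hmFD.map _
  have hdF' : F'.natDegree = 2 * g + 1 := by
    rw [hF', hmFD.natDegree_map, fF, hmD.natDegree_map, hdD]
  haveI hfact' : Fact (Irreducible F') := ⟨hirrF⟩
  obtain ⟨Θ, hΘ⟩ : ∃ Θ : Ω, Θ = (D : Ω) * t := ⟨_, rfl⟩
  have hrootD : aeval Θ F' = 0 := by
    have h1 := scaleRoots_eval₂_mul (p := fF f) (algebraMap F Ω) t (D : F)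
    have h3 : eval₂ (algebraMap F Ω) t (fF f) = 0 := by
      rw [← aeval_def]
      exact ht'
    rw [h3, mul_zero, map_natCast] at h1
    rw [hF', aeval_map_algebraMap, fF_scale hm, aeval_def, hΘ]
    exact h1
  rw [← hF'] at hcop hnorm ⊢
  obtain ⟨φ, hφ⟩ : ∃ φ : AdjoinRoot F' →ₐ[M] Ω,
      φ = AdjoinRoot.liftAlgHom F' (Algebra.ofId M _) Θ hrootD := ⟨_, rfl⟩
  have hφmk : ∀ p : M[X], φ (AdjoinRoot.mk F' p) = aeval Θ p := by
    intro p
    have h1 := AdjoinRoot.liftAlgHom_mk F' (Algebra.ofId M Ω) Θ hrootD p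
    rw [Algebra.toRingHom_ofId, ← Polynomial.aeval_def] at h1
    rw [hφ]
    exact h1
  have hφinj : Function.Injective φ := φ.toRingHom.injective
  haveI : FiniteDimensional M (AdjoinRoot F') := hmF'.finite_adjoinRoot
  have hrk' : Module.finrank M (AdjoinRoot F') = Module.finrank M Ω := by
    rw [hrk, (AdjoinRoot.powerBasis hmF'.ne_zero).finrank, AdjoinRoot.powerBasis_dim, hdF']
  have hφsurj : Function.Surjective φ :=
    (LinearMap.injective_iff_surjective_of_finrank_eq_finrank (f := φ.toLinearMap) hrk').1 hφinj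
  obtain ⟨e, he⟩ : ∃ e : AdjoinRoot F' ≃ₐ[M] Ω, ∀ x, e x = φ x :=
    ⟨AlgEquiv.ofBijective φ ⟨hφinj, hφsurj⟩, fun _ => rfl⟩
  have hemk : ∀ p : M[X], e (AdjoinRoot.mk F' p) = aeval Θ p := fun p => (he _).trans (hφmk p)
  have hne : aeval Θ h ≠ 0 := by
    intro h0
    obtain ⟨u, v, huv⟩ := hcop
    have := congrArg (aeval Θ) huv
    rw [map_add, map_mul, map_mul, hrootD, h0, mul_zero, mul_zero, add_zero, map_one] at this
    exact zero_ne_one this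
  have hnorm' : IsSquare (Algebra.norm M (aeval Θ h)) := by
    rw [← hemk, Algebra.norm_eq_of_algEquiv]
    exact hnorm
  rw [← hΘ] at hmain
  obtain ⟨y, hy⟩ := hmain h hne hnorm' hloc hr
  obtain ⟨z, rfl⟩ := hφsurj y
  obtain ⟨s', rfl⟩ := AdjoinRoot.mk_surjective z
  refine ⟨s', ?_⟩
  rw [← AdjoinRoot.mk_eq_zero]
  apply hφinj
  rw [map_zero, hφmk, map_sub, map_pow, sub_eq_zero]
  rw [hφmk] at hy
  rw [pow_two]
  exact hy

end Pool.Agent.Helper82.PT
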