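import Pool.Graph.R_pool_sql_team_seeded_63374d34.N922.PX.Ex
import Pool.Graph.R_pool_sql_team_seeded_63374d34.N878.PX.RD
import Pool.Graph.R_pool_sql_team_seeded_63374d34.N385.PX.PR

/-!
# Project PT (helper82): local root numbers over a Galois 2-extension of a number field

After `N922/PX/Ex.lean` (helper922), `N385/PX/PR.lean` (helper385), `N897/PX/IE.lean` (helper897).
-/

set_option autoImplicit false
set_option linter.all false

open IsDedekindDomain NumberField Polynomial
open scoped Classical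

namespace Pool.Agent.Helper82.PT.Rn

open Pool.Agent.N922.PX (IntegralAt GoodReduction SplitMultiplicative not_split_of_good)
open Pool.Agent.N385.PX (val_inj)
open Pool.Agent.N878.PX (val_unit_of_mul)

section defs

variable (F : Type) {M : Type} [Field F] [Field M] [NumberField M] [Algebra F M]

/-- The prime `v` of `M` is stable under `Gal(M / F)`. -/
def FixedF (v : HeightOneSpectrum (𝓞 M)) : Prop :=
  ∀ (σ : M ≃ₐ[F] M) (x : M), v.valuation M (σ x) = v.valuation M x

variable (M)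

/-- The properties of the local root numbers which we use. -/
structure LocF (E : WeierstrassCurve F) (w : HeightOneSpectrum (𝓞 M) → ℤ) : Prop where
  sign : ∀ v, w v = 1 ∨ w v = -1
  good : ∀ v, GoodReduction v (E.baseChange M) → w v = 1
  split : ∀ v, SplitMultiplicative v (E.baseChange M) → w v = -1
  conj : ∀ (σ : M ≃ₐ[F] M) (v v' : HeightOneSpectrum (𝓞 M)),
    (∀ x : M, v'.valuation M x = v.valuation M (σ x)) → w v' = w v

end defs

section

variable {F : Type} {M : Type} [Field F] [NumberField F] [Field M] [NumberField M] [Algebra F M]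

theorem split_conj (E : WeierstrassCurve F) (σ : M ≃ₐ[F] M) (v v' : HeightOneSpectrum (𝓞 M))
    (h : ∀ x : M, v'.valuation M x = v.valuation M (σ x))
    (hs : SplitMultiplicative v' (E.baseChange M)) :
    SplitMultiplicative v (E.baseChange M) := by
  obtain ⟨C, hI, h3, h4, h6, hb, α, hα, hα'⟩ := hs
  have e : (C.map (σ : M →+* M)) • (E.baseChange M) =
      (C • (E.baseChange M)).map (σ : M →+* M) := by
    rw [← WeierstrassCurve.map_variableChange]
    congr 1
    rw [WeierstrassCurve.baseChange, WeierstrassCurve.map_map]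
    congr 1
    ext x
    simp
  refine ⟨C.map (σ : M →+* M), ?_⟩
  rw [e]
  refine ⟨⟨?_, ?_, ?_, ?_, ?_⟩, ?_, ?_, ?_, ?_, σ α, ?_, ?_⟩
  · rw [WeierstrassCurve.map_a₁]; exact (h _).symm.trans_le hI.a₁
  · rw [WeierstrassCurve.map_a₂]; exact (h _).symm.trans_le hI.a₂
  · rw [WeierstrassCurve.map_a₃]; exact (h _).symm.trans_le hI.a₃
  · rw [WeierstrassCurve.map_a₄]; exact (h _).symm.trans_le hI.a₄
  · rw [WeierstrassCurve.map_a₆]; exact (h _).symm.trans_le hI.a₆
  · rw [WeierstrassCurve.map_a₃]; exact (h _).symm.trans_lt h3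
  · rw [WeierstrassCurve.map_a₄]; exact (h _).symm.trans_lt h4
  · rw [WeierstrassCurve.map_a₆]; exact (h _).symm.trans_lt h6
  · rw [WeierstrassCurve.map_b₂]; exact (h _).symm.trans hb
  · exact (h _).symm.trans_le hα
  · rw [WeierstrassCurve.map_a₁, WeierstrassCurve.map_a₂]
    have e2 : (σ α) ^ 2 + (σ : M →+* M) (C • E.baseChange M).a₁ * σ α -
        (σ : M →+* M) (C • E.baseChange M).a₂ =
        σ (α ^ 2 + (C • E.baseChange M).a₁ * α - (C • E.baseChange M).a₂) := by
      rw [map_sub, map_add, map_mul, map_pow]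
      rfl
    rw [e2]
    exact (h _).symm.trans_lt hα'

variable (M)

/-- Systems of local root numbers exist. -/
theorem exists_local (E : WeierstrassCurve F) :
    ∃ w : HeightOneSpectrum (𝓞 M) → ℤ, LocF F M E w := by
  refine ⟨fun v => if SplitMultiplicative v (E.baseChange M) then -1 else 1, ?_, ?_, ?_, ?_⟩
  · intro v
    by_cases h : SplitMultiplicative v (E.baseChange M)
    · right; exact if_pos h
    · left; exact if_neg h
  · intro v h
    exact if_neg (not_split_of_good h)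
  · intro v h
    exact if_pos h
  · intro σ v v' h
    have h1 : SplitMultiplicative v' (E.baseChange M) ↔ SplitMultiplicative v (E.baseChange M) := by
      refine ⟨split_conj E σ v v' h, split_conj E σ.symm v' v fun x => ?_⟩
      rw [h, AlgEquiv.apply_symm_apply]
    change (if _ then (-1 : ℤ) else 1) = if _ then (-1 : ℤ) else 1
    simp only [h1]

variable {M}

theorem ex_act (σ : M ≃ₐ[F] M) (v : HeightOneSpectrum (𝓞 M)) :
    ∃ v' : HeightOneSpectrum (𝓞 M), ∀ x : M, v'.valuation M x = v.valuation M (σ x) := by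
  obtain ⟨v', h, -⟩ := Pool.Agent.N415.PQ.sig M (𝓞 M) σ.toRingEquiv v
  exact ⟨v', h⟩

/-- The action of the Galois group on the primes. -/
noncomputable def act (σ : M ≃ₐ[F] M) (v : HeightOneSpectrum (𝓞 M)) : HeightOneSpectrum (𝓞 M) :=
  (ex_act σ⁻¹ v).choose

theorem act_spec (σ : M ≃ₐ[F] M) (v : HeightOneSpectrum (𝓞 M)) (x : M) :
    (act σ v).valuation M x = v.valuation M (σ⁻¹ x) := (ex_act σ⁻¹ v).choose_spec x

theorem act_one (v : HeightOneSpectrum (𝓞 M)) : act (1 : M ≃ₐ[F] M) v = v :=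
  val_inj fun x => by rw [act_spec, inv_one, AlgEquiv.one_apply]

theorem act_mul (σ τ : M ≃ₐ[F] M) (v : HeightOneSpectrum (𝓞 M)) :
    act (σ * τ) v = act σ (act τ v) :=
  val_inj fun x => by rw [act_spec, act_spec, act_spec, mul_inv_rev, AlgEquiv.mul_apply]

/-- The product of the local root numbers. -/
theorem prod_one [IsGalois F M] {n : ℕ} (hn : Module.finrank F M = 2 ^ n)
    {w : HeightOneSpectrum (𝓞 M) → ℤ} (hs : ∀ v, w v = 1 ∨ w v = -1) (hf : {v | w v ≠ 1}.Finite)
    (hc : ∀ (σ : M ≃ₐ[F] M) (v v' : HeightOneSpectrum (𝓞 M)),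
      (∀ x : M, v'.valuation M x = v.valuation M (σ x)) → w v' = w v)
    (hno : ∀ v, FixedF F v → w v = 1) : ∏ᶠ v, w v = 1 := by
  have hN : {v | w v = -1} = {v | w v ≠ 1} := by
    ext v
    simp only [Set.mem_setOf_eq]
    rcases hs v with h | h <;> rw [h] <;> decide
  have hfin : {v | w v = -1}.Finite := by rw [hN]; exact hf
  have hwa : ∀ (σ : M ≃ₐ[F] M) (v : HeightOneSpectrum (𝓞 M)), w (act σ v) = w v := fun σ v =>
    hc σ⁻¹ v (act σ v) (act_spec σ v)
  let N : Type := {v : HeightOneSpectrum (𝓞 M) // w v = -1}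
  haveI : Finite N := hfin.to_subtype
  haveI : FiniteDimensional F M := Module.Finite.of_restrictScalars_finite ℚ F M
  letI ma : MulAction (M ≃ₐ[F] M) N :=
    { smul := fun σ v => ⟨act σ v.1, (hwa σ v.1).trans v.2⟩
      one_smul := fun v => Subtype.ext (act_one v.1)
      mul_smul := fun σ τ v => Subtype.ext (act_mul σ τ v.1) }
  have hG : IsPGroup 2 (M ≃ₐ[F] M) := by
    apply IsPGroup.of_card (n := n)
    rw [← hn]
    exact IsGalois.card_aut_eq_finrank F M
  haveI : Fact (Nat.Prime 2) := ⟨Nat.prime_two⟩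
  have hmod := hG.card_modEq_card_fixedPoints (α := N)
  have hempty : IsEmpty (MulAction.fixedPoints (M ≃ₐ[F] M) N) := by
    refine ⟨fun v => ?_⟩
    have h1 : FixedF F v.1.1 := by
      intro σ x
      have h1 : σ⁻¹ • v.1 = v.1 := v.2 σ⁻¹
      have h2 : act σ⁻¹ v.1.1 = v.1.1 := congrArg Subtype.val h1
      have h3 := act_spec σ⁻¹ v.1.1 x
      rw [h2, inv_inv] at h3
      exact h3.symm
    have h2 := hno _ h1
    rw [v.1.2] at h2
    norm_num at h2
  rw [Nat.card_of_isEmpty (α := MulAction.fixedPoints (M ≃ₐ[F] M) N)] at hmod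
  have hcard : Nat.card N = {v | w v = -1}.ncard := Nat.card_coe_set_eq _
  rw [hcard] at hmod
  have hprod : ∏ᶠ v, w v = (-1) ^ ({v | w v = -1}.ncard) := by
    rw [finprod_eq_prod_of_mulSupport_subset (s := hfin.toFinset) w ?_, Set.ncard_eq_toFinset_card _ hfin,
      Finset.prod_congr rfl (g := fun _ => (-1 : ℤ)) ?_, Finset.prod_const]
    · intro v hv
      exact hfin.mem_toFinset.1 hv
    · intro v hv
      rw [Set.Finite.coe_toFinset, hN]
      exact hv
  rw [hprod]
  exact (even_iff_two_dvd.2 ((Nat.modEq_zero_iff_dvd).1 hmod)).neg_one_pow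

/-- The number of infinite places is even. -/
theorem inf_even [IsGalois F M] {n : ℕ} (hn : Module.finrank F M = 2 ^ n) (h2 : 2 ≤ n) :
    Even (Nat.card (InfinitePlace M)) := by
  haveI : FiniteDimensional F M := Module.Finite.of_restrictScalars_finite ℚ F M
  have hcard : Nat.card (M ≃ₐ[F] M) = 2 ^ n := by
    rw [IsGalois.card_aut_eq_finrank, hn]
  have hp : IsPGroup 2 (M ≃ₐ[F] M) := IsPGroup.of_card hcard
  haveI : Fact (Nat.Prime 2) := ⟨Nat.prime_two⟩
  have hmod := hp.card_modEq_card_fixedPoints (InfinitePlace M)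
  have hempty : IsEmpty (MulAction.fixedPoints (M ≃ₐ[F] M) (InfinitePlace M)) := by
    refine ⟨fun w => ?_⟩
    have h3 : MulAction.stabilizer (M ≃ₐ[F] M) (w : InfinitePlace M) = ⊤ := by
      rw [eq_top_iff]
      intro g _
      rw [MulAction.mem_stabilizer_iff]
      exact w.2 g
    have h4 := InfinitePlace.nat_card_stabilizer_eq_one_or_two F (w : InfinitePlace M)
    rw [h3] at h4
    have h5 : Nat.card (⊤ : Subgroup (M ≃ₐ[F] M)) = 2 ^ n := by
      rw [Subgroup.card_top, hcard]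
    have h6 : 2 ^ 2 ≤ 2 ^ n := Nat.pow_le_pow_right (by norm_num) h2
    rw [h5] at h4
    omega
  have h0 : Nat.card (MulAction.fixedPoints (M ≃ₐ[F] M) (InfinitePlace M)) = 0 :=
    Nat.card_of_isEmpty
  rw [h0] at hmod
  exact even_iff_two_dvd.2 ((Nat.modEq_zero_iff_dvd).1 hmod)

/-! ### Reduction of `y ^ 2 = x ^ 3 + A x + B` -/

theorem val_le (x : 𝓞 F) (v : HeightOneSpectrum (𝓞 M)) :
    v.valuation M (algebraMap F M (x : F)) ≤ 1 := by
  have h : v.valuation M (algebraMap (𝓞 M) M (algebraMap (𝓞 F) (𝓞 M) x)) ≤ 1 :=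
    v.valuation_le_one _
  exact h

theorem val_lt_iff (x : 𝓞 F) (v : HeightOneSpectrum (𝓞 M)) :
    v.valuation M (algebraMap F M (x : F)) < 1 ↔ algebraMap (𝓞 F) (𝓞 M) x ∈ v.asIdeal :=
  HeightOneSpectrum.valuation_lt_one_iff_mem (K := M) v (algebraMap (𝓞 F) (𝓞 M) x)

theorem finite_ne (c : 𝓞 F) (hc : c ≠ 0) :
    {v : HeightOneSpectrum (𝓞 M) | v.valuation M (algebraMap F M (c : F)) ≠ 1}.Finite := by
  refine (HeightOneSpectrum.Support.finite (𝓞 M) ((algebraMap F M (c : F))⁻¹)).subset ?_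
  intro v hv
  have h1 : v.valuation M (algebraMap F M (c : F)) < 1 := lt_of_le_of_ne (val_le c v) hv
  have hc' : algebraMap F M (c : F) ≠ 0 := by
    rw [Ne, map_eq_zero]
    intro h
    exact hc (by exact_mod_cast h)
  change 1 < v.valuation M ((algebraMap F M (c : F))⁻¹)
  rw [map_inv₀, one_lt_inv₀]
  · exact h1
  · exact zero_lt_iff.2 ((Valuation.ne_zero_iff _).2 hc')

theorem bc_eq (A B : F) :
    (⟨0, 0, 0, A, B⟩ : WeierstrassCurve F).baseChange M =
      ⟨0, 0, 0, algebraMap F M A, algebraMap F M B⟩ := by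
  ext <;> simp [WeierstrassCurve.baseChange, WeierstrassCurve.map]

theorem good_red (p : 𝓞 F × 𝓞 F) (v : HeightOneSpectrum (𝓞 M))
    (h : v.valuation M (algebraMap F M ((2 * (4 * p.1 ^ 3 + 27 * p.2 ^ 2) : 𝓞 F) : F)) = 1) :
    GoodReduction v ((⟨0, 0, 0, (p.1 : F), (p.2 : F)⟩ : WeierstrassCurve F).baseChange M) := by
  rw [bc_eq]
  refine ⟨1, ?_, ?_⟩
  · rw [one_smul]
    exact ⟨by simp, by simp, by simp, val_le p.1 v, val_le p.2 v⟩
  · rw [one_smul]
    have e : algebraMap F M ((2 * (4 * p.1 ^ 3 + 27 * p.2 ^ 2) : 𝓞 F) : F) =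
        algebraMap F M ((2 : 𝓞 F) : F) * algebraMap F M ((4 * p.1 ^ 3 + 27 * p.2 ^ 2 : 𝓞 F) : F) := by
      rw [← map_mul]
      congr 1
    rw [e] at h
    have h2 := val_unit_of_mul v (val_le _ v) (val_le _ v) h
    have h3 : v.valuation M (algebraMap F M ((4 * p.1 ^ 3 + 27 * p.2 ^ 2 : 𝓞 F) : F)) = 1 := by
      rw [map_mul, h2, one_mul] at h
      exact h
    have e2 : (⟨0, 0, 0, algebraMap F M (p.1 : F), algebraMap F M (p.2 : F)⟩ :
        WeierstrassCurve M).Δ =
        -((algebraMap F M ((2 : 𝓞 F) : F)) ^ 4 *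
          algebraMap F M ((4 * p.1 ^ 3 + 27 * p.2 ^ 2 : 𝓞 F) : F)) := by
      simp only [WeierstrassCurve.Δ, WeierstrassCurve.b₂, WeierstrassCurve.b₄,
        WeierstrassCurve.b₆, WeierstrassCurve.b₈]
      have e3 : algebraMap F M ((2 : 𝓞 F) : F) = 2 := by
        show algebraMap F M (algebraMap (𝓞 F) F 2) = 2
        rw [map_ofNat, map_ofNat]
      have e4 : algebraMap F M ((4 * p.1 ^ 3 + 27 * p.2 ^ 2 : 𝓞 F) : F) =
          4 * (algebraMap F M (p.1 : F)) ^ 3 + 27 * (algebraMap F M (p.2 : F)) ^ 2 := by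
        show algebraMap F M (algebraMap (𝓞 F) F (4 * p.1 ^ 3 + 27 * p.2 ^ 2)) =
          4 * (algebraMap F M (algebraMap (𝓞 F) F p.1)) ^ 3 +
            27 * (algebraMap F M (algebraMap (𝓞 F) F p.2)) ^ 2
        simp only [map_add, map_mul, map_pow, map_ofNat]
      rw [e3, e4]
      ring
    rw [e2, Valuation.map_neg, map_mul, map_pow, h2, h3, one_pow, one_mul]

end

end Pool.Agent.Helper82.PT.Rn
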