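import Pool.Agent.Helper82.PT.Rn1
import Pool.Agent.Helper82.PT.Fin

/-!
# Project PT (helper82): the primes of a Galois 2-extension `M / F` which are stable under a
# non-cyclic Galois group
-/

set_option autoImplicit false
set_option linter.all false

open IsDedekindDomain NumberField Polynomial
open scoped Classical Pointwise

namespace Pool.Agent.Helper82.PT.Rn

open Pool.Agent.N922.PX (IntegralAt GoodReduction SplitMultiplicative)
open Pool.Agent.N385.PX (val_inj)
open Pool.Agent.N874.QM (Gen)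

section

variable {F : Type} {M : Type} [Field F] [NumberField F] [Field M] [NumberField M] [Algebra F M]

/-- The prime of `F` below `v`. -/
noncomputable def blw (F : Type) [Field F] [NumberField F] [Algebra F M]
    (v : HeightOneSpectrum (𝓞 M)) : HeightOneSpectrum (𝓞 F) where
  asIdeal := v.asIdeal.comap (algebraMap (𝓞 F) (𝓞 M))
  isPrime := by
    haveI := v.isPrime
    exact Ideal.comap_isPrime _ _
  ne_bot := by
    haveI := v.isPrime
    exact Ideal.under_ne_bot (A := 𝓞 F) v.ne_bot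

theorem mem_blw (v : HeightOneSpectrum (𝓞 M)) (a : 𝓞 F) :
    a ∈ (blw F v).asIdeal ↔ algebraMap (𝓞 F) (𝓞 M) a ∈ v.asIdeal := Iff.rfl

theorem trans_pr [IsGalois F M] {v v' : HeightOneSpectrum (𝓞 M)} (h : blw F v = blw F v') :
    ∃ σ : M ≃ₐ[F] M, ∀ x : M, v'.valuation M x = v.valuation M (σ x) := by
  haveI : FiniteDimensional F M := Module.Finite.of_restrictScalars_finite ℚ F M
  have := v.isPrime
  have := v'.isPrime
  haveI l1 : v.asIdeal.LiesOver (blw F v).asIdeal := ⟨rfl⟩
  haveI l2 : v'.asIdeal.LiesOver (blw F v).asIdeal := ⟨by rw [h]; rfl⟩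
  obtain ⟨σ, hσ⟩ := Ideal.exists_smul_eq_of_isGaloisGroup (blw F v).asIdeal
    v'.asIdeal v.asIdeal (M ≃ₐ[F] M)
  refine ⟨σ, ?_⟩
  obtain ⟨w, hw, -⟩ := Pool.Agent.N415.PQ.sig M (𝓞 M) σ.toRingEquiv v
  have e : w = v' := by
    apply HeightOneSpectrum.ext
    ext x
    rw [← HeightOneSpectrum.valuation_lt_one_iff_mem (K := M) w x, hw]
    have e2 : σ.toRingEquiv ((x : 𝓞 M) : M) = ((σ • x : 𝓞 M) : M) := rfl
    rw [e2, HeightOneSpectrum.valuation_lt_one_iff_mem, ← hσ,
      Ideal.smul_mem_pointwise_smul_iff]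
  rw [← e]
  exact hw

theorem fixed_eq [IsGalois F M] {v v' : HeightOneSpectrum (𝓞 M)} (hv : FixedF F v)
    (h : blw F v = blw F v') : v' = v := by
  obtain ⟨σ, hσ⟩ := trans_pr h
  exact val_inj fun x => by rw [hσ, hv]

theorem dense_lt (v₀ : HeightOneSpectrum (𝓞 F)) (y : v₀.adicCompletion F) :
    ∃ a : F, Valued.v (y - algebraMap F (v₀.adicCompletion F) a) < 1 := by
  have hd := HeightOneSpectrum.denseRange_algebraMap (K := F) v₀
  have hn : {z : v₀.adicCompletion F | Valued.v (z - y) < 1} ∈ nhds y := by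
    rw [Valued.mem_nhds]
    refine ⟨1, fun z hz => ?_⟩
    have hz' : (Valued.v (R := v₀.adicCompletion F)).restrict (z - y) < 1 := hz
    have h1 := (Valuation.restrict_lt_one_iff _).1 hz'
    exact h1
  obtain ⟨z, hz, ⟨a, rfl⟩⟩ := mem_closure_iff_nhds.1 (hd y) _ hn
  refine ⟨a, ?_⟩
  rw [Valuation.map_sub_swap]
  exact hz

/-- A prime which splits completely is not stable. -/
theorem not_fixed_of_emb [IsGalois F M] {v₀ : HeightOneSpectrum (𝓞 F)}
    (σ : M →ₐ[F] v₀.adicCompletion F) {v : HeightOneSpectrum (𝓞 M)} (hv : blw F v = v₀)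
    (hG : Nontrivial (M ≃ₐ[F] M)) : ¬ FixedF F v := by
  intro hfix
  have hb : blw F (Embf.pl σ) = v₀ := by
    apply HeightOneSpectrum.ext
    ext a
    exact (Embf.mem_pI_iff σ a).symm
  have hpl : Embf.pl σ = v := fixed_eq hfix (hv.trans hb.symm)
  obtain ⟨τ, hτ⟩ := exists_ne (1 : M ≃ₐ[F] M)
  apply hτ
  ext x
  by_contra hne
  have hx0 : τ x - x ≠ 0 := sub_ne_zero.2 hne
  -- a uniformizer at `v₀`
  obtain ⟨π, hπ⟩ := v₀.valuation_exists_uniformizer F
  have hπ0 : π ≠ 0 := by
    rintro rfl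
    rw [map_zero] at hπ
    exact WithZero.exp_ne_zero hπ.symm
  have key : ∀ c : F, c ≠ 0 → v.valuation M (τ x - x) < v.valuation M (algebraMap F M c) := by
    intro c hc
    have hc' : algebraMap F M c ≠ 0 := by rwa [Ne, map_eq_zero]
    obtain ⟨a, ha⟩ := dense_lt v₀ (σ (x / algebraMap F M c))
    have h1 : v.valuation M (x / algebraMap F M c - algebraMap F M a) < 1 := by
      rw [← hpl, Embf.lt_iff, Embf.vs, map_sub, σ.commutes]
      exact ha
    have h2 : v.valuation M (τ (x / algebraMap F M c - algebraMap F M a)) < 1 := by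
      rw [hfix]
      exact h1
    have h3 : v.valuation M ((τ x - x) / algebraMap F M c) < 1 := by
      have e : (τ x - x) / algebraMap F M c = τ (x / algebraMap F M c - algebraMap F M a) -
          (x / algebraMap F M c - algebraMap F M a) := by
        rw [map_sub, map_div₀, τ.commutes, τ.commutes]
        ring
      rw [e]
      exact lt_of_le_of_lt (Valuation.map_sub _ _ _) (max_lt h2 h1)
    rw [map_div₀] at h3
    exact (div_lt_one₀ (zero_lt_iff.2 ((Valuation.ne_zero_iff _).2 hc'))).1 h3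
  -- the powers of the uniformizer
  have hπv : v.valuation M (algebraMap F M π) < 1 := by
    rw [← hpl, Embf.lt_iff, Embf.vF, hπ]
    rw [← WithZero.exp_zero, WithZero.exp_lt_exp]
    norm_num
  have hπ1 : v.valuation M (algebraMap F M π) ≠ 0 :=
    (Valuation.ne_zero_iff _).2 (by rwa [Ne, map_eq_zero])
  have hy : v.valuation M (τ x - x) ≠ 0 := (Valuation.ne_zero_iff _).2 hx0
  have e1 : WithZero.exp (WithZero.log (v.valuation M (algebraMap F M π))) =
      v.valuation M (algebraMap F M π) := WithZero.exp_log hπ1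
  have e2 : WithZero.exp (WithZero.log (v.valuation M (τ x - x))) =
      v.valuation M (τ x - x) := WithZero.exp_log hy
  set l := WithZero.log (v.valuation M (algebraMap F M π)) with hl
  set m := WithZero.log (v.valuation M (τ x - x)) with hm
  have hl1 : l ≤ -1 := by
    rw [← e1, ← WithZero.exp_zero, WithZero.exp_lt_exp] at hπv
    omega
  have h4 := key (π ^ (m.natAbs)) (pow_ne_zero _ hπ0)
  rw [map_pow, map_pow, ← e1, ← e2, ← WithZero.exp_nsmul, WithZero.exp_lt_exp] at h4
  have h5 : (m.natAbs : ℤ) * l ≤ -(m.natAbs : ℤ) := by nlinarith [Int.natCast_nonneg m.natAbs]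
  have h6 : m.natAbs • l = (m.natAbs : ℤ) * l := by simp
  rw [h6] at h4
  have h7 : -(m.natAbs : ℤ) ≤ m := by omega
  omega

/-- The Galois group is cyclic if a prime which is not over a divisor of `δ` is stable. -/
theorem cyclic_of_fixed [IsGalois F M] {γ : M} {μ : ℤ[X]} {δ : ℕ} (hγ : Gen ℚ γ μ δ)
    {v : HeightOneSpectrum (𝓞 M)} (hδ : (δ : 𝓞 M) ∉ v.asIdeal) (hfix : FixedF F v) :
    IsCyclic (M ≃ₐ[F] M) := by
  haveI : FiniteDimensional F M := Module.Finite.of_restrictScalars_finite ℚ F M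
  haveI hmax : v.asIdeal.IsMaximal := v.isMaximal
  letI : Field (𝓞 M ⧸ v.asIdeal) := Ideal.Quotient.field v.asIdeal
  haveI : Finite (𝓞 M ⧸ v.asIdeal) := v.asIdeal.finiteQuotientOfFreeOfNeBot v.ne_bot
  letI bmax : (blw F v).asIdeal.IsMaximal := (blw F v).isMaximal
  letI : Field (𝓞 F ⧸ (blw F v).asIdeal) := Ideal.Quotient.field _
  haveI l1 : v.asIdeal.LiesOver (blw F v).asIdeal := ⟨rfl⟩
  have hst : ∀ σ : M ≃ₐ[F] M, σ ∈ MulAction.stabilizer (M ≃ₐ[F] M) v.asIdeal := by
    intro σ
    rw [MulAction.mem_stabilizer_iff]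
    ext x
    have e : (x ∈ σ • v.asIdeal) ↔ σ⁻¹ • x ∈ v.asIdeal := by
      rw [← Ideal.smul_mem_pointwise_smul_iff (a := σ) (x := σ⁻¹ • x), smul_inv_smul]
    rw [e, ← HeightOneSpectrum.valuation_lt_one_iff_mem (K := M),
      ← HeightOneSpectrum.valuation_lt_one_iff_mem (K := M)]
    have e2 : ((σ⁻¹ • x : 𝓞 M) : M) = σ⁻¹ (x : M) := rfl
    have h3 := hfix σ⁻¹ (x : M)
    rw [← e2] at h3
    exact (show v.valuation M ((σ⁻¹ • x : 𝓞 M) : M) < 1 ↔ v.valuation M (x : M) < 1 by rw [h3])
  let φ : (M ≃ₐ[F] M) →* MulAction.stabilizer (M ≃ₐ[F] M) v.asIdeal :=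
    { toFun := fun σ => ⟨σ, hst σ⟩
      map_one' := rfl
      map_mul' := fun _ _ => rfl }
  let ψ := (Ideal.Quotient.stabilizerHom v.asIdeal (blw F v).asIdeal (M ≃ₐ[F] M)).comp φ
  have hψ : ∀ (σ : M ≃ₐ[F] M) (x : 𝓞 M), ψ σ (Ideal.Quotient.mk v.asIdeal x) =
      Ideal.Quotient.mk v.asIdeal (σ • x) := fun σ x => rfl
  have hinj : Function.Injective ψ := by
    rw [injective_iff_map_eq_one]
    intro σ hσ
    -- `γ` is an algebraic integer
    have hint : IsIntegral ℤ γ := ⟨μ, hγ.monic, hγ.root⟩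
    obtain ⟨γ', hγ'⟩ : ∃ γ' : 𝓞 M, (γ' : M) = γ := ⟨⟨γ, hint⟩, rfl⟩
    have hr : aeval γ' μ = 0 := by
      have h1 : ((aeval γ' μ : 𝓞 M) : M) = aeval γ μ := by
        rw [← hγ']
        exact (Polynomial.aeval_algebraMap_apply M γ' μ).symm
      rw [hγ.root] at h1
      exact_mod_cast h1
    have hmem : σ • γ' - γ' ∈ v.asIdeal := by
      have h1 := hψ σ γ'
      rw [hσ] at h1
      have h2 : Ideal.Quotient.mk v.asIdeal γ' = Ideal.Quotient.mk v.asIdeal (σ • γ') := h1
      exact (Ideal.Quotient.eq).1 h2.symm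
    have hr2 : aeval (σ • γ') μ = 0 := by
      have h1 : ((aeval (σ • γ') μ : 𝓞 M) : M) = aeval (σ γ) μ := by
        rw [← hγ']
        exact (Polynomial.aeval_algebraMap_apply M (σ • γ') μ).symm
      have h2 : aeval (σ γ) μ = σ (aeval γ μ) := by
        have := Polynomial.aeval_algHom_apply ((σ : M →ₐ[F] M).restrictScalars ℤ) γ μ
        exact this
      rw [h2, hγ.root, map_zero] at h1
      exact_mod_cast h1
    have heq : σ • γ' = γ' := by
      by_contra hne
      apply hδ
      obtain ⟨u, w, huw⟩ := hγ.comb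
      set μ' : (𝓞 M)[X] := μ.map (algebraMap ℤ (𝓞 M)) with hμ'
      have r1 : μ'.IsRoot γ' := by
        rw [IsRoot.def, hμ', eval_map_algebraMap]
        exact hr
      obtain ⟨k, hk⟩ := dvd_iff_isRoot.2 r1
      have r2 : k.IsRoot (σ • γ') := by
        have h1 : eval (σ • γ') μ' = 0 := by
          rw [hμ', eval_map_algebraMap]
          exact hr2
        rw [hk, eval_mul, eval_sub, eval_X, eval_C] at h1
        exact (mul_eq_zero.1 h1).resolve_left (sub_ne_zero.2 hne)
      obtain ⟨h, hh⟩ := dvd_iff_isRoot.2 r2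
      have hd : aeval γ' (derivative μ) = (γ' - σ • γ') * eval γ' h := by
        have h1 : aeval γ' (derivative μ) = eval γ' (derivative μ') := by
          rw [hμ', derivative_map, eval_map_algebraMap]
        rw [h1, hk, hh]
        simp
      have hc : (δ : 𝓞 M) = aeval γ' w * ((γ' - σ • γ') * eval γ' h) := by
        have h1 := congrArg (aeval γ') huw
        rw [map_add, map_mul, map_mul, hr, mul_zero, zero_add, hd] at h1
        rw [← h1]
        simp
      rw [hc]
      refine Ideal.mul_mem_left _ _ (Ideal.mul_mem_right _ _ ?_)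
      rw [← neg_sub]
      exact Submodule.neg_mem _ hmem
    -- `γ` generates `M`
    have hσγ : σ γ = γ := by
      have := congrArg (fun y : 𝓞 M => (y : M)) heq
      rw [← hγ']
      exact this
    ext x
    have hx : x ∈ IntermediateField.adjoin ℚ ({γ} : Set M) := by
      rw [hγ.top]
      exact IntermediateField.mem_top
    have hle : IntermediateField.adjoin ℚ ({γ} : Set M) ≤
        IntermediateField.fixedField (Subgroup.zpowers ((σ : M ≃ₐ[F] M).restrictScalars ℚ)) := by
      rw [IntermediateField.adjoin_le_iff]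
      intro y hy
      rw [Set.mem_singleton_iff] at hy
      subst hy
      rw [SetLike.mem_coe, IntermediateField.mem_fixedField_iff]
      intro f hf
      have hs : ((σ : M ≃ₐ[F] M).restrictScalars ℚ) ∈
          MulAction.stabilizer (M ≃ₐ[ℚ] M) y := by
        rw [MulAction.mem_stabilizer_iff]
        exact hσγ
      have h2 : Subgroup.zpowers ((σ : M ≃ₐ[F] M).restrictScalars ℚ) ≤
          MulAction.stabilizer (M ≃ₐ[ℚ] M) y := Subgroup.zpowers_le.2 hs
      exact h2 hf
    have h8 := (IntermediateField.mem_fixedField_iff _ _).1 (hle hx)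
      ((σ : M ≃ₐ[F] M).restrictScalars ℚ) (Subgroup.mem_zpowers _)
    exact h8
  haveI : Finite (𝓞 F ⧸ (blw F v).asIdeal) :=
    (blw F v).asIdeal.finiteQuotientOfFreeOfNeBot (blw F v).ne_bot
  exact isCyclic_of_injective ψ hinj

end

end Pool.Agent.Helper82.PT.Rn
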