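import Pool.Agent.Helper82.PT.Base

/-!
# Project PT (helper82): the conditions for elements which are locally in the image, over the
# extension

After `N874/QM/Top.lean`, `Top2.lean` (helper874).
-/

set_option autoImplicit false
set_option linter.all false

open Polynomial IsDedekindDomain NumberField
open Pool.Agent.N783.PF
open Pool.Agent.N783.PQ (LocIm)
open Pool.Agent.N874.PP (Ev Sq1 U0)
open Pool.Agent.N874.PM (Lies ev_down sq_down ev_sq ev_mul)
open Pool.Agent.N874.JM (LocF)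
open Pool.Agent.N874.QM (Gen SplitMod SelM ov_val val_le val_le_int val_eq_of ov_down below_unique
  ov_mul ov_prod ov_delta locIm_congr locIm_sq locIm_map surj_top not_ov_delta')
open Pool.Agent.N891.PQ (exists_below not_ev_exp locIm_one)
open Pool.Agent.N78.PF (val_theta val_der rd_eq sp_le eq_of_ov fF_scale val_one)
open scoped Classical IntermediateField

namespace Pool.Agent.Helper82.PT

section top

variable {F L M Ω : Type} [Field F] [NumberField F] [Field L] [NumberField L] [Field M]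
  [NumberField M] [Field Ω] [NumberField Ω] [Algebra F L] [Algebra F M] [Algebra L Ω]
  [Algebra M Ω] [Algebra F Ω] [IsScalarTower F L Ω] [IsScalarTower F M Ω]

/-- Irreducibility modulo a prime over `𝔮 q`. -/
theorem irr_top {γ : M} {m : ℤ[X]} {δ : ℕ}
    (hG : Gen ℚ γ m δ) {q : ℕ} (hq : q.Prime) (hsp : SplitMod q m)
    (w : HeightOneSpectrum (𝓞 M)) (h1 : NOv q w) (hδ : ¬ NOv δ w) {𝔭 : Ideal (𝓞 F)}
    (hp : 𝔭.IsPrime) (hp0 : 𝔭 ≠ ⊥) (hpw : Ov 𝔭 w) {h : (𝓞 F)[X]}
    (hirr : Irreducible (rd 𝔭 h)) :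
    Irreducible ((h.map (algebraMap (𝓞 F) (𝓞 M))).map (Ideal.Quotient.mk w.asIdeal)) := by
  have hs0 := surj_top Pool.Agent.N222.QM.UR.ur Pool.Agent.N835.QM.spd hG hq hsp w h1 hδ
  have hs : Function.Surjective ((Ideal.Quotient.mk w.asIdeal).comp
      (algebraMap (𝓞 F) (𝓞 M))) := by
    intro y
    obtain ⟨z, hz⟩ := hs0 y
    refine ⟨(z : 𝓞 F), ?_⟩
    rw [← hz, RingHom.comp_apply, RingHom.comp_apply, map_intCast, eq_intCast]
  have hker : 𝔭 = RingHom.ker ((Ideal.Quotient.mk w.asIdeal).comp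
      (algebraMap (𝓞 F) (𝓞 M))) := by
    haveI : 𝔭.IsMaximal := hp.isMaximal hp0
    refine Ideal.IsMaximal.eq_of_le this ?_ ?_
    · haveI := Ideal.Quotient.nontrivial_iff.2 w.isPrime.ne_top
      exact RingHom.ker_ne_top _
    · intro a ha
      rw [RingHom.mem_ker, RingHom.comp_apply, Ideal.Quotient.eq_zero_iff_mem]
      exact hpw a ha
  let φ : (𝓞 F ⧸ 𝔭) ≃+* (𝓞 M ⧸ w.asIdeal) :=
    (Ideal.quotEquivOfEq hker).trans (RingHom.quotientKerEquivOfSurjective hs)
  have e : (h.map (algebraMap (𝓞 F) (𝓞 M))).map (Ideal.Quotient.mk w.asIdeal) =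
      Polynomial.mapEquiv φ (rd 𝔭 h) := by
    rw [Polynomial.mapEquiv_apply, Polynomial.map_map, rd, Polynomial.map_map]
    congr 1
  rw [e]
  exact (MulEquiv.irreducible_iff (Polynomial.mapEquiv φ)).2 hirr

theorem cnd_top {g W : ℕ} {f : (𝓞 F)[X]} {θ : L} {S J T : Finset ℕ} {𝔮 : ℕ → Ideal (𝓞 F)}
    {r P : ℕ → (𝓞 F)[X]} (hg : 1 ≤ g) (hc : IsGen g f θ) (hsq : SqF g f)
    (hS : GoodS g W S 𝔮 r P) (hcon : ∀ q ∈ S, Cg (sp F q) f (P q)) {γ : M} {m : ℤ[X]} {δ : ℕ}
    (hG : Gen ℚ γ m δ) (hG' : Gen L (algebraMap M Ω γ) m δ) (hsp : ∀ q ∈ S, SplitMod q m)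
    (hT : ∀ p ∈ T, p.Prime) (h2T : 2 ∈ T)
    (hδ : ∀ p : ℕ, p.Prime → p ∣ δ → p ∈ T) (hdis : Disjoint S T)
    (hJ : J ⊆ S) {h : M[X]}
    (hloc : ∀ w : HeightOneSpectrum (𝓞 M), LocF (w.adicCompletion M)
      ((fF (f.scaleRoots ((Dp J : ℕ) : 𝓞 F))).map (algebraMap F M)) h)
    (h0 : aeval (((Dp J : ℕ) : Ω) * algebraMap L Ω θ) h ≠ 0) :
    Cnd 𝔮 J T (algebraMap L Ω θ) (algebraMap L Ω (aeval θ (derivative (fF f))))
      (aeval (((Dp J : ℕ) : Ω) * algebraMap L Ω θ) h) := by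
  have hS' : ∀ q ∈ S, q.Prime := fun q hq => gs_prime hS hq
  obtain ⟨fM, hfM⟩ : ∃ fM : M[X], fM = (fF f).map (algebraMap F M) := ⟨_, rfl⟩
  have hmF : (fF f).Monic := hc.mon.map _
  have hmon : fM.Monic := by
    rw [hfM]
    exact hmF.map _
  have hdeg : fM.natDegree = 2 * g + 1 := by
    rw [hfM, hmF.natDegree_map, hc.mon.natDegree_map, hc.deg]
  have hsc : ∀ D : ℕ, (fF (f.scaleRoots (D : 𝓞 F))).map (algebraMap F M) =
      fM.scaleRoots (D : M) := by
    intro D
    rw [fF_scale hc.mon, map_scaleRoots, hfM]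
    · rw [map_natCast]
    · rw [hmF.leadingCoeff, map_one]
      exact one_ne_zero
  have hFL : ∀ a : F, algebraMap M Ω (algebraMap F M a) = algebraMap L Ω (algebraMap F L a) := by
    intro a
    rw [← IsScalarTower.algebraMap_apply F M Ω, ← IsScalarTower.algebraMap_apply F L Ω]
  have hae : ∀ p : F[X], aeval (algebraMap L Ω θ) (p.map (algebraMap F M)) =
      algebraMap L Ω (aeval θ p) := by
    intro p
    rw [aeval_map_algebraMap, aeval_algebraMap_apply]
  have hroot : aeval (algebraMap L Ω θ) fM = 0 := by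
    rw [hfM, hae, hc.root, map_zero]
  have hder : aeval (algebraMap L Ω θ) (derivative fM) =
      algebraMap L Ω (aeval θ (derivative (fF f))) := by
    rw [hfM, derivative_map, hae]
  have hco : ∀ j, fM.coeff j = algebraMap (𝓞 M) M (algebraMap (𝓞 F) (𝓞 M) (f.coeff j)) := by
    intro j
    rw [hfM, coeff_map, fF, coeff_map]
    rfl
  refine ⟨fun 𝔓 h1 h2 h3 => ?_, fun q hq 𝔓 h𝔓 h3 => ?_⟩
  · obtain ⟨w, hw, hO⟩ := Pool.Agent.N756.QM.lie M Ω 𝔓
    have v2 : w.valuation M 2 = 1 := by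
      have := val_eq_of 2 w fun h => h1 2 h2T ((hO 2).1 h)
      rwa [Nat.cast_ofNat] at this
    have hD : w.valuation M ((Dp J : ℕ) : M) = 1 := by
      refine val_eq_of _ w fun h => ?_
      obtain ⟨q, hq, h'⟩ := ov_prod h
      exact h2 q hq ((hO q).1 h')
    have hl := hloc w
    rw [hsc] at hl
    have e3 : algebraMap M Ω ((Dp J : ℕ) : M) = ((Dp J : ℕ) : Ω) :=
      map_natCast (algebraMap M Ω) _
    have h4 := Pool.Agent.N78.PF.LOC1 M Ω (𝓞 M) (𝓞 Ω) w 𝔓 hw v2 fM h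
      ((Dp J : ℕ) : M) (algebraMap L Ω θ) hmon (by rw [hdeg]; exact odd_two_mul_add_one g)
      (fun i => by rw [hco]; exact w.valuation_le_one _) hroot
      (by rw [hder]; exact h3) hD hl (by rw [e3]; exact h0)
    rw [e3] at h4
    exact h4
  · have hqS := hJ hq
    have hqp := hS' q hqS
    have hq𝔓 : NOv q 𝔓 := nov_of_ov h𝔓 (gs_mem hS hqS)
    obtain ⟨w, hw, hO⟩ := Pool.Agent.N756.QM.lie M Ω 𝔓
    have hqw : NOv q w := (hO q).2 hq𝔓
    have hδ0 := hG.ne
    have hδw : ¬ NOv δ w := not_ov_delta' hδ0 hδ hS' hT hdis hqS hqw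
    have hδ𝔓 : ¬ NOv δ 𝔓 := fun h => hδw ((hO δ).2 h)
    -- the prime of `M` is over `𝔮 q`
    obtain ⟨u, u1, u2, u3⟩ := Pool.Agent.N459.PF.lie F M w
    obtain ⟨u', t1, t2, t3⟩ := Pool.Agent.N459.PF.lie F Ω 𝔓
    have eu' : 𝔮 q = u'.asIdeal := eq_of_ov (gs_isPrime hS hqS) (gs_ne hS hqS) h𝔓 t2
    have hov : Ov (𝔮 q) w := by
      intro a ha
      by_contra hna
      have hna' : a ∉ u.asIdeal := fun h => hna ((u2 a).1 h)
      -- `a` is a unit at `w`, hence at `𝔓`
      have h4 : w.valuation M (algebraMap F M (a : F)) = 1 := by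
        refine le_antisymm (w.valuation_le_one (algebraMap (𝓞 F) (𝓞 M) a)) (not_lt.1 fun h => ?_)
        exact hna ((HeightOneSpectrum.valuation_lt_one_iff_mem (K := M) w _).1 h)
      have ha0 : algebraMap F M (a : F) ≠ 0 := by
        intro h
        rw [h, map_zero] at h4
        exact zero_ne_one h4
      have h5 : w.valuation M (algebraMap F M (a : F))⁻¹ ≤ 1 := by
        rw [map_inv₀, h4, inv_one]
      have h6 := hw.le _ h5
      have h7 : 𝔓.valuation Ω (algebraMap M Ω (algebraMap F M (a : F))) < 1 := by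
        rw [← IsScalarTower.algebraMap_apply F M Ω]
        exact ovF_val.1 h𝔓 a ha
      rw [map_inv₀, map_inv₀] at h6
      have h8 : 𝔓.valuation Ω (algebraMap M Ω (algebraMap F M (a : F))) ≠ 0 := by
        rw [Valuation.ne_zero_iff]
        exact (_root_.map_ne_zero _).2 ha0
      exact absurd h6 (not_le.2 ((one_lt_inv₀ (zero_lt_iff.2 h8)).2 h7))
    have v2 : w.valuation M 2 = 1 := by
      have := val_eq_of 2 w fun h => by
        have h' := below_unique hqp Nat.prime_two hqw h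
        rw [h'] at hqS
        exact Finset.disjoint_left.1 hdis hqS h2T
      rwa [Nat.cast_ofNat] at this
    haveI : Finite (𝓞 M ⧸ w.asIdeal) := Ideal.finiteQuotientOfFreeOfNeBot _ w.ne_bot
    haveI : Finite (𝓞 Ω ⧸ 𝔓.asIdeal) := Ideal.finiteQuotientOfFreeOfNeBot _ 𝔓.ne_bot
    obtain ⟨h5, h6⟩ := q_top hg hc hsq hS hcon hG' hqS 𝔓 h𝔓 hδ𝔓 h3
    have hprod : Dp J = q * ∏ p ∈ J.erase q, p := (Finset.mul_prod_erase J id hq).symm
    have hpq : ∀ p ∈ J.erase q, ¬ NOv p w := by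
      intro p hp h
      have hpS := hJ (Finset.mem_of_mem_erase hp)
      exact Finset.ne_of_mem_erase hp (below_unique (hS' p hpS) hqp h hqw)
    have hnD' : ¬ NOv (∏ p ∈ J.erase q, p) w := by
      intro h
      obtain ⟨p, hp, hp'⟩ := ov_prod h
      exact hpq p hp hp'
    have hD' : w.valuation M ((∏ p ∈ J.erase q, p : ℕ) : M) = 1 := val_eq_of _ w hnD'
    have hl := hloc w
    rw [hsc, hprod, Nat.cast_mul] at hl
    have e3 : algebraMap M Ω ((q : M) * ((∏ p ∈ J.erase q, p : ℕ) : M)) =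
        ((Dp J : ℕ) : Ω) := by
      rw [hprod, Nat.cast_mul, map_mul, map_natCast, map_natCast]
    obtain ⟨-, -, -, -, -, -, -, hsm, hsd, hsi, -⟩ := hS q hqS
    have h7 := Pool.Agent.N78.PF.LOC2 M Ω (𝓞 M) (𝓞 Ω) w 𝔓 hw v2 g fM h
      ((r q).map (algebraMap (𝓞 F) (𝓞 M))) (q : M)
      ((∏ p ∈ J.erase q, p : ℕ) : M) (algebraMap L Ω θ) hg hmon hdeg
      (hsm.map _) (by rw [hsm.natDegree_map, hsd])
      (irr_top hG hqp (hsp q hqS) w hqw hδw (gs_isPrime hS hqS) (gs_ne hS hqS) hov hsi)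
      (fun j => by
        have e : fM.coeff j - algebraMap (𝓞 M) M ((X * (r q).map
            (algebraMap (𝓞 F) (𝓞 M))).coeff j) =
            algebraMap (𝓞 M) M (algebraMap (𝓞 F) (𝓞 M) (f.coeff j - (X * r q).coeff j)) := by
          have e1 : (X * (r q).map (algebraMap (𝓞 F) (𝓞 M))) =
              (X * r q).map (algebraMap (𝓞 F) (𝓞 M)) := by
            rw [Polynomial.map_mul, map_X]
          rw [e1, coeff_map, hco, map_sub, map_sub]
        rw [e, HeightOneSpectrum.valuation_lt_one_iff_mem]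
        exact hov _ (gs_cg hS hqS (hcon q hqS) j)) hroot h3
      (by rw [map_natCast]; exact h5) hD'
      (by
        have := h6 (-1) (fun h => (gs_isPrime hS hqS).ne_top (by
          rw [Ideal.eq_top_iff_one]
          have := neg_mem h
          rwa [neg_neg] at this))
        have e : algebraMap F Ω (((-1 : 𝓞 F)) : F) = -1 := by simp
        rwa [e] at this)
      (by
        have := h6 ((∏ p ∈ J.erase q, p : ℕ) : 𝓞 F) (fun h => hnD' (nov_of_ov hov h))
        have e : algebraMap F Ω ((((∏ p ∈ J.erase q, p : ℕ) : 𝓞 F)) : F) =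
            algebraMap M Ω ((∏ p ∈ J.erase q, p : ℕ) : M) := by simp
        rwa [e] at this) hl
      (by rw [e3]; exact h0)
    rw [e3, map_natCast] at h7
    exact h7

end top

end Pool.Agent.Helper82.PT
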